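import Mathlib

-- merged part: Pool.Agent.Work.MP_9ec65e_al.LpDefs
section
/-! Operators on `ℓ^p(I)`: indicator multipliers, extension by zero, restriction. -/

namespace Pool.Agent.Work.MP_9ec65e_al

open scoped NNReal ENNReal

/-- The complex space `ℓ^p(I)`. -/
abbrev Ell (p : ℝ≥0) (I : Type) : Type := lp (fun _ : I => ℂ) (p : ℝ≥0∞)

/-- The Banach algebra of bounded operators on `ℓ^p(I)`. -/
abbrev Op (p : ℝ≥0) [Fact (1 ≤ (p : ℝ≥0∞))] (I : Type) : Type := Ell p I →L[ℂ] Ell p I

variable {p : ℝ≥0} [hp : Fact (1 ≤ (p : ℝ≥0∞))] {I I' : Type}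

theorem one_le_p : (1 : ℝ) ≤ p := by
  have h := hp.out
  exact_mod_cast h

theorem p_pos : (0 : ℝ) < p := lt_of_lt_of_le one_pos one_le_p

theorem p_pos' : 0 < (p : ℝ≥0∞).toReal := by simpa using (p_pos (p := p))

theorem sum_le_norm (f : Ell p I) (s : Finset I) : ∑ i ∈ s, ‖f i‖ ^ (p : ℝ) ≤ ‖f‖ ^ (p : ℝ) := by
  simpa using lp.sum_rpow_le_norm_rpow p_pos' f s

theorem mem_of_bound {g : I' → ℂ} {B : ℝ} (h : ∀ s : Finset I', ∑ i ∈ s, ‖g i‖ ^ (p : ℝ) ≤ B) :
    Memℓp g (p : ℝ≥0∞) :=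
  memℓp_gen' (C := B) (by simpa using h)

theorem norm_of_bound (g : Ell p I') {B : ℝ} (hB : 0 ≤ B)
    (h : ∀ s : Finset I', ∑ i ∈ s, ‖g i‖ ^ (p : ℝ) ≤ B ^ (p : ℝ)) : ‖g‖ ≤ B :=
  lp.norm_le_of_forall_sum_le p_pos' hB (by simpa using h)

/-- The bounded operator `ℓ^p(I) → ℓ^p(I')` given by a linear map `Φ` of function spaces that
satisfies an `ℓ^p` bound. -/
noncomputable def mkOp (Φ : (I → ℂ) →ₗ[ℂ] (I' → ℂ)) (C : ℝ≥0)
    (h : ∀ (f : Ell p I) (s : Finset I'), ∑ i ∈ s, ‖Φ f i‖ ^ (p : ℝ) ≤ (C * ‖f‖) ^ (p : ℝ)) :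
    Ell p I →L[ℂ] Ell p I' :=
  LinearMap.mkContinuous
    { toFun := fun f => ⟨Φ f, mem_of_bound (h f)⟩
      map_add' := fun f g => lp.ext (Φ.map_add f g)
      map_smul' := fun c f => lp.ext (Φ.map_smul c f) } C
    (fun f => norm_of_bound _ (mul_nonneg C.2 (norm_nonneg f)) (h f))

/-- Multiplication of functions by the indicator of `S`. -/
noncomputable def indL (S : Set I) : (I → ℂ) →ₗ[ℂ] (I → ℂ) where
  toFun f := S.indicator f
  map_add' f g := Set.indicator_add S f g
  map_smul' c f := Set.indicator_const_smul S c f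

/-- Extension of functions by zero along an injection. -/
noncomputable def extL (J : I ↪ I') : (I → ℂ) →ₗ[ℂ] (I' → ℂ) where
  toFun f := Function.extend J f 0
  map_add' f g := by
    funext i
    by_cases h : ∃ j, J j = i
    · obtain ⟨j, rfl⟩ := h
      simp [J.injective.extend_apply]
    · simp [Function.extend_apply' _ _ _ h]
  map_smul' c f := by
    funext i
    by_cases h : ∃ j, J j = i
    · obtain ⟨j, rfl⟩ := h
      simp [J.injective.extend_apply]
    · simp [Function.extend_apply' _ _ _ h]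

theorem chi_bound (S : Set I) (f : Ell p I) (s : Finset I) :
    ∑ i ∈ s, ‖indL S f i‖ ^ (p : ℝ) ≤ (((1 : ℝ≥0) : ℝ) * ‖f‖) ^ (p : ℝ) := by
  rw [NNReal.coe_one, one_mul]
  refine le_trans (Finset.sum_le_sum fun i _ => ?_) (sum_le_norm f s)
  exact Real.rpow_le_rpow (norm_nonneg _) (norm_indicator_le_norm_self _ _) p_pos.le

theorem res_bound (J : I ↪ I') (f : Ell p I') (s : Finset I) :
    ∑ i ∈ s, ‖LinearMap.funLeft ℂ ℂ J f i‖ ^ (p : ℝ) ≤ (((1 : ℝ≥0) : ℝ) * ‖f‖) ^ (p : ℝ) := by
  rw [NNReal.coe_one, one_mul]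
  refine le_trans (le_of_eq ?_) (sum_le_norm f (s.map J))
  rw [Finset.sum_map]
  rfl

theorem ext_bound (J : I ↪ I') (f : Ell p I) (s : Finset I') :
    ∑ i ∈ s, ‖extL J f i‖ ^ (p : ℝ) ≤ (((1 : ℝ≥0) : ℝ) * ‖f‖) ^ (p : ℝ) := by
  classical
  rw [NNReal.coe_one, one_mul]
  refine le_trans (le_of_eq ?_) (sum_le_norm f (s.preimage J J.injective.injOn))
  rw [← Finset.sum_preimage J s J.injective.injOn]
  · refine Finset.sum_congr rfl fun j _ => ?_
    simp [extL, J.injective.extend_apply]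
  · intro i _ hi
    have : extL J f i = 0 := Function.extend_apply' _ _ _ hi
    rw [this, norm_zero, Real.zero_rpow p_pos.ne']

variable (p) in
/-- The operator of multiplication by the indicator function of `S ⊆ I` on `ℓ^p(I)`. -/
noncomputable def chi (S : Set I) : Op p I := mkOp (indL S) 1 (chi_bound S)

variable (p) in
/-- The isometry `ℓ^p(I) → ℓ^p(I')` extending by zero along an injection `J : I → I'`. -/
noncomputable def ext (J : I ↪ I') : Ell p I →L[ℂ] Ell p I' := mkOp (extL J) 1 (ext_bound J)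

variable (p) in
/-- The contraction `ℓ^p(I') → ℓ^p(I)`, `f ↦ f ∘ J`, a left inverse of `ext p J`. -/
noncomputable def res (J : I ↪ I') : Ell p I' →L[ℂ] Ell p I :=
  mkOp (LinearMap.funLeft ℂ ℂ J) 1 (res_bound J)

end Pool.Agent.Work.MP_9ec65e_al
end

-- merged part: Pool.Agent.Work.MP_9ec65e_al.PropDefs
section
/-! Support, propagation and local compactness.  The index set `I` is placed in the space `Y` by a
map `ι : I → Y`; functions on `Y` act on `ℓ^p(I)` by multiplication after composing with `ι`. -/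

namespace Pool.Agent.Work.MP_9ec65e_al

open scoped NNReal ENNReal

variable {p : ℝ≥0} [hp : Fact (1 ≤ (p : ℝ≥0∞))] {I Y : Type} [PseudoEMetricSpace Y]

/-- The support of `T`: the pairs `(x, y)` with `χ_V T χ_U ≠ 0` for all open `U ∋ x`, `V ∋ y`. -/
def supp (ι : I → Y) (T : Op p I) : Set (Y × Y) :=
  {z | ∀ U V : Set Y, IsOpen U → IsOpen V → z.1 ∈ U → z.2 ∈ V →
    chi p (ι ⁻¹' V) * T * chi p (ι ⁻¹' U) ≠ 0}

/-- The propagation of `T`, a number in `[0, ∞]`. -/
noncomputable def prop (ι : I → Y) (T : Op p I) : ℝ≥0∞ :=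
  ⨆ z ∈ supp ι T, edist z.1 z.2

/-- `T` is locally compact: `χ_K T` and `T χ_K` are compact for every compact `K`. -/
def LocCompact (ι : I → Y) (T : Op p I) : Prop :=
  ∀ K : Set Y, IsCompact K →
    IsCompactOperator (chi p (ι ⁻¹' K) * T) ∧ IsCompactOperator (T * chi p (ι ⁻¹' K))

/-- An injection of index sets `J : I → I'` that does not increase distances and is proper. -/
structure Cov {I' Y' : Type} [PseudoEMetricSpace Y'] (ι : I → Y) (ι' : I' → Y') where
  /-- The injection. -/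
  J : I ↪ I'
  lip : ∀ i j, edist (ι' (J i)) (ι' (J j)) ≤ edist (ι i) (ι j)
  proper : ∀ K' : Set Y', IsCompact K' → ∃ K : Set Y, IsCompact K ∧ ∀ i, ι' (J i) ∈ K' → ι i ∈ K

variable (p) in
/-- The homomorphism `T ↦ V T V†` with `V = ext p J` and `V† = res p J`. -/
noncomputable def ad {I' : Type} (J : I ↪ I') :
    Op p I →ₙ+* Op p I' where
  toFun T := (ext p J).comp (T.comp (res p J))
  map_zero' := by simp
  map_add' S T := by simp [ContinuousLinearMap.add_comp, ContinuousLinearMap.comp_add]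
  map_mul' S T := ContinuousLinearMap.ext fun f => by
    have h : ∀ g : Ell p I, res p J (ext p J g) = g := fun g =>
      lp.ext (funext fun i => J.injective.extend_apply _ _ _)
    simp [h]

end Pool.Agent.Work.MP_9ec65e_al
end

-- merged part: Pool.Agent.Work.MP_9ec65e_al.LpOps
section
/-! Matrix entries, multipliers and permutation operators on `ℓ^p(I)`. -/

set_option linter.unusedSectionVars false
set_option backward.isDefEq.respectTransparency false

namespace Pool.Agent.Work.MP_9ec65e_al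

open scoped NNReal ENNReal Topology
open Filter

variable {p : ℝ≥0} [hp : Fact (1 ≤ (p : ℝ≥0∞))] {I I' I'' : Type}

theorem mkOp_apply (Φ : (I → ℂ) →ₗ[ℂ] (I' → ℂ)) (C : ℝ≥0) (h) (f : Ell p I) (i : I') :
    mkOp (p := p) Φ C h f i = Φ f i := rfl

theorem norm_mkOp_le (Φ : (I → ℂ) →ₗ[ℂ] (I' → ℂ)) (C : ℝ≥0) (h) :
    ‖mkOp (p := p) Φ C h‖ ≤ C := LinearMap.mkContinuous_norm_le _ C.2 _

theorem clm_ext {T S : Ell p I →L[ℂ] Ell p I'} (h : ∀ f i, T f i = S f i) : T = S :=
  ContinuousLinearMap.ext fun f => lp.ext (funext (h f))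

theorem chi_apply (S : Set I) (f : Ell p I) (i : I) : chi p S f i = S.indicator f i := rfl

theorem chi_apply_mem {S : Set I} (f : Ell p I) {i : I} (h : i ∈ S) : chi p S f i = f i := by
  rw [chi_apply, Set.indicator_of_mem h]

theorem chi_apply_not {S : Set I} (f : Ell p I) {i : I} (h : i ∉ S) : chi p S f i = 0 := by
  rw [chi_apply, Set.indicator_of_notMem h]

theorem res_apply (J : I ↪ I') (f : Ell p I') (i : I) : res p J f i = f (J i) := rfl

theorem ext_apply (J : I ↪ I') (f : Ell p I) (i : I) : ext p J f (J i) = f i :=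
  J.injective.extend_apply _ _ _

theorem ext_apply_not (J : I ↪ I') (f : Ell p I) {i : I'} (h : ¬ ∃ j, J j = i) :
    ext p J f i = 0 := Function.extend_apply' (f := J) _ _ _ h

theorem norm_chi_le (S : Set I) : ‖chi p S‖ ≤ 1 := norm_mkOp_le _ _ _
theorem norm_ext_le (J : I ↪ I') : ‖ext p J‖ ≤ 1 := norm_mkOp_le _ _ _
theorem norm_res_le (J : I ↪ I') : ‖res p J‖ ≤ 1 := norm_mkOp_le _ _ _

theorem res_ext_apply (J : I ↪ I') (f : Ell p I) : res p J (ext p J f) = f :=
  lp.ext (funext fun i => by rw [res_apply, ext_apply])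

theorem res_trans (J : I ↪ I') (J' : I' ↪ I'') :
    res p (J.trans J') = (res p J).comp (res p J') := clm_ext fun _ _ => rfl

theorem ext_trans (J : I ↪ I') (J' : I' ↪ I'') :
    ext p (J.trans J') = (ext p J').comp (ext p J) := by
  refine clm_ext fun f i => ?_
  rw [ContinuousLinearMap.comp_apply]
  by_cases h : ∃ j, J' j = i
  · obtain ⟨j, rfl⟩ := h
    rw [ext_apply]
    by_cases h' : ∃ k, J k = j
    · obtain ⟨k, rfl⟩ := h'
      rw [ext_apply]
      exact ext_apply (J.trans J') f k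
    · rw [ext_apply_not _ _ h', ext_apply_not]
      rintro ⟨k, hk⟩
      exact h' ⟨k, J'.injective hk⟩
  · rw [ext_apply_not _ _ h, ext_apply_not]
    rintro ⟨k, hk⟩
    exact h ⟨J k, hk⟩

theorem chi_mul_chi (S S' : Set I) : chi p S * chi p S' = chi p (S ∩ S') := by
  refine clm_ext fun f i => ?_
  rw [ContinuousLinearMap.mul_apply]
  by_cases h : i ∈ S
  · by_cases h' : i ∈ S'
    · rw [chi_apply_mem _ h, chi_apply_mem _ h', chi_apply_mem _ (show i ∈ S ∩ S' from ⟨h, h'⟩)]
    · rw [chi_apply_mem _ h, chi_apply_not _ h', chi_apply_not _ (fun hh => h' hh.2)]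
  · rw [chi_apply_not _ h, chi_apply_not _ (fun hh => h hh.1)]

theorem chi_ext (J : I ↪ I') (S : Set I') :
    (chi p S).comp (ext p J) = (ext p J).comp (chi p (J ⁻¹' S)) := by
  refine clm_ext fun f i => ?_
  simp only [ContinuousLinearMap.comp_apply]
  by_cases h : ∃ j, J j = i
  · obtain ⟨j, rfl⟩ := h
    by_cases h' : J j ∈ S
    · rw [chi_apply_mem _ h', ext_apply, ext_apply, chi_apply_mem _ (show j ∈ J ⁻¹' S from h')]
    · rw [chi_apply_not _ h', ext_apply, chi_apply_not _ (show j ∉ J ⁻¹' S from h')]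
  · rw [ext_apply_not _ _ h, chi_apply, Set.indicator_apply_eq_zero]
    intro _
    exact ext_apply_not _ _ h

theorem res_chi (J : I ↪ I') (S : Set I') :
    (res p J).comp (chi p S) = (chi p (J ⁻¹' S)).comp (res p J) := by
  refine clm_ext fun f i => ?_
  simp only [ContinuousLinearMap.comp_apply]
  by_cases h' : J i ∈ S
  · rw [res_apply, chi_apply_mem _ h', chi_apply_mem _ (show i ∈ J ⁻¹' S from h'), res_apply]
  · rw [res_apply, chi_apply_not _ h', chi_apply_not _ (show i ∉ J ⁻¹' S from h')]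

/-! ### Entries -/

variable (p) in
open Classical in
/-- The basis vector. -/
noncomputable def delta (j : I) : Ell p I := lp.single p j 1

theorem delta_apply (j i : I) [Decidable (i = j)] : delta p j i = if i = j then 1 else 0 := by
  classical
  unfold delta
  split_ifs with h
  · subst h; exact lp.single_apply_self _ _ _
  · exact lp.single_apply_ne _ _ _ h

theorem delta_self (j : I) : delta p j j = 1 := by classical rw [delta_apply, if_pos rfl]

theorem delta_ne {j i : I} (h : i ≠ j) : delta p j i = 0 := by classical rw [delta_apply, if_neg h]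

theorem norm_delta (j : I) : ‖delta p j‖ = 1 := by
  classical
  unfold delta
  rw [lp.norm_single (lt_of_lt_of_le one_pos hp.out)]
  simp

theorem hasSum_delta (f : Ell p I) : HasSum (fun j => f j • delta p j) f := by
  classical
  have := lp.hasSum_single (E := fun _ : I => ℂ) (p := (p : ℝ≥0∞)) ENNReal.coe_ne_top f
  convert this using 2 with j
  refine lp.ext (funext fun i => ?_)
  rw [lp.coeFn_smul, Pi.smul_apply, delta_apply]
  by_cases h : i = j
  · subst h; simp
  · simp [h, lp.single_apply_ne _ _ _ h]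

/-- Matrix entries. -/
noncomputable def entry (T : Ell p I →L[ℂ] Ell p I') (i : I') (j : I) : ℂ := T (delta p j) i

theorem continuous_ev (i : I) : Continuous fun f : Ell p I => f i :=
  (lp.evalCLM ℂ (fun _ : I => ℂ) (p : ℝ≥0∞) i).continuous

theorem hasSum_entry (T : Ell p I →L[ℂ] Ell p I') (f : Ell p I) (i : I') :
    HasSum (fun j => entry T i j * f j) (T f i) := by
  have := ((hasSum_delta f).mapL T).mapL (lp.evalCLM ℂ (fun _ : I' => ℂ) (p : ℝ≥0∞) i)
  have e : (fun j => entry T i j * f j) =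
      fun j => (lp.evalCLM ℂ (fun _ : I' => ℂ) (p : ℝ≥0∞) i) (T (f j • delta p j)) := by
    funext j
    rw [map_smul, map_smul, smul_eq_mul, mul_comm]
    rfl
  rw [e]
  exact this

theorem op_ext {T S : Ell p I →L[ℂ] Ell p I'} (h : ∀ i j, entry T i j = entry S i j) : T = S := by
  refine clm_ext fun f i => (hasSum_entry T f i).unique ?_
  simp only [h]
  exact hasSum_entry S f i

theorem continuous_entry (i : I') (j : I) :
    Continuous fun T : Ell p I →L[ℂ] Ell p I' => entry T i j :=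
  (continuous_ev i).comp (ContinuousLinearMap.apply ℂ (Ell p I') (delta p j)).continuous

@[simp] theorem entry_add (T S : Ell p I →L[ℂ] Ell p I') (i j) :
    entry (T + S) i j = entry T i j + entry S i j := rfl
@[simp] theorem entry_sub (T S : Ell p I →L[ℂ] Ell p I') (i j) :
    entry (T - S) i j = entry T i j - entry S i j := rfl
@[simp] theorem entry_neg (T : Ell p I →L[ℂ] Ell p I') (i j) :
    entry (-T) i j = - entry T i j := rfl
@[simp] theorem entry_smul (c : ℂ) (T : Ell p I →L[ℂ] Ell p I') (i j) :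
    entry (c • T) i j = c * entry T i j := rfl
@[simp] theorem entry_zero (i : I') (j : I) : entry (0 : Ell p I →L[ℂ] Ell p I') i j = 0 := rfl
theorem entry_one (i j : I) [Decidable (i = j)] :
    entry (1 : Op p I) i j = if i = j then 1 else 0 := delta_apply j i

theorem apply_ne_zero {T : Ell p I →L[ℂ] Ell p I'} {f : Ell p I} {i : I'} (h : T f i ≠ 0) :
    ∃ k, entry T i k ≠ 0 ∧ f k ≠ 0 := by
  by_contra hc
  push Not at hc
  apply h
  refine (hasSum_entry T f i).unique ?_
  convert hasSum_zero with k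
  by_cases hk : entry T i k = 0
  · rw [hk, zero_mul]
  · rw [hc k hk, mul_zero]

theorem entry_comp_ne_zero {S : Ell p I' →L[ℂ] Ell p I''} {T : Ell p I →L[ℂ] Ell p I'} {i j}
    (h : entry (S.comp T) i j ≠ 0) : ∃ k, entry S i k ≠ 0 ∧ entry T k j ≠ 0 :=
  apply_ne_zero (T := S) (f := T (delta p j)) h

theorem entry_mul_ne_zero {S T : Op p I} {i j}
    (h : entry (S * T) i j ≠ 0) : ∃ k, entry S i k ≠ 0 ∧ entry T k j ≠ 0 :=
  entry_comp_ne_zero (S := S) (T := T) h

theorem apply_eq_sum (T : Ell p I →L[ℂ] Ell p I') (f : Ell p I) (i : I') (F : Finset I)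
    (h : ∀ k ∉ F, f k = 0) : T f i = ∑ k ∈ F, entry T i k * f k :=
  (hasSum_entry T f i).unique (hasSum_sum_of_ne_finset_zero fun k hk => by rw [h k hk, mul_zero])

theorem chi_delta_mem {S : Set I} {j : I} (h : j ∈ S) : chi p S (delta p j) = delta p j := by
  refine lp.ext (funext fun i => ?_)
  by_cases hi : i ∈ S
  · exact chi_apply_mem _ hi
  · rw [chi_apply_not _ hi, delta_ne]
    rintro rfl
    exact hi h

theorem chi_delta_not {S : Set I} {j : I} (h : j ∉ S) : chi p S (delta p j) = 0 := by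
  refine lp.ext (funext fun i => ?_)
  by_cases hi : i ∈ S
  · rw [chi_apply_mem _ hi, delta_ne]
    · rfl
    · rintro rfl
      exact h hi
  · exact chi_apply_not _ hi

theorem entry_chi_mul (S : Set I) (T : Op p I) (i j : I) [Decidable (i ∈ S)] :
    entry (chi p S * T) i j = if i ∈ S then entry T i j else 0 := by
  split_ifs with h
  · exact chi_apply_mem _ h
  · exact chi_apply_not _ h

theorem entry_mul_chi (S : Set I) (T : Op p I) (i j : I) [Decidable (j ∈ S)] :
    entry (T * chi p S) i j = if j ∈ S then entry T i j else 0 := by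
  unfold entry
  rw [ContinuousLinearMap.mul_apply]
  split_ifs with h
  · rw [chi_delta_mem h]
  · rw [chi_delta_not h, map_zero]; rfl

theorem ext_delta (J : I ↪ I') (j : I) : ext p J (delta p j) = delta p (J j) := by
  classical
  refine lp.ext (funext fun i => ?_)
  by_cases h : ∃ k, J k = i
  · obtain ⟨k, rfl⟩ := h
    rw [ext_apply, delta_apply, delta_apply]
    simp
  · rw [ext_apply_not _ _ h, delta_ne]
    rintro rfl
    exact h ⟨j, rfl⟩

theorem res_delta (J : I ↪ I') (j : I) : res p J (delta p (J j)) = delta p j := by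
  rw [← ext_delta, res_ext_apply]

theorem res_delta_not (J : I ↪ I') {j : I'} (h : ¬ ∃ k, J k = j) : res p J (delta p j) = 0 := by
  refine lp.ext (funext fun i => ?_)
  rw [res_apply, delta_ne]
  · rfl
  · rintro rfl
    exact h ⟨i, rfl⟩

/-! ### Compactness -/

theorem chi_finset_eq (F : Finset I) : chi p (F : Set I) =
    ∑ j ∈ F, (lp.evalCLM ℂ (fun _ : I => ℂ) (p : ℝ≥0∞) j).smulRight (delta p j) := by
  classical
  refine clm_ext fun f i => ?_
  rw [ContinuousLinearMap.sum_apply, lp.coeFn_sum, Finset.sum_apply]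
  simp only [ContinuousLinearMap.smulRight_apply, lp.coeFn_smul, Pi.smul_apply, delta_apply,
    smul_eq_mul, mul_ite, mul_one, mul_zero, Finset.sum_ite_eq]
  by_cases h : i ∈ F
  · rw [if_pos h, chi_apply_mem _ (Finset.mem_coe.2 h)]; rfl
  · rw [if_neg h, chi_apply_not _ (fun hh => h (Finset.mem_coe.1 hh))]

theorem chi_finset_apply (F : Finset I) (f : Ell p I) :
    chi p (F : Set I) f = ∑ j ∈ F, f j • delta p j := by
  rw [chi_finset_eq, ContinuousLinearMap.sum_apply]
  rfl

theorem isCompact_chi {S : Set I} (hS : S.Finite) : IsCompactOperator (chi p S) := by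
  lift S to Finset I using hS
  rw [chi_finset_eq]
  refine (compactOperator (RingHom.id ℂ) (Ell p I) (Ell p I)).sum_mem fun j _ => ?_
  have h1 : IsCompactOperator (lp.evalCLM ℂ (fun _ : I => ℂ) (p : ℝ≥0∞) j) :=
    isCompactOperator_of_locallyCompactSpace_dom _
  exact h1.clm_comp (ContinuousLinearMap.toSpanSingleton ℂ (delta p j))

theorem tendsto_chi_apply (f : Ell p I) :
    Tendsto (fun F : Finset I => chi p (F : Set I) f) atTop (𝓝 f) := by
  simp only [chi_finset_apply]
  exact hasSum_delta f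

theorem tendsto_chi_mul {K : Op p I} (hK : IsCompactOperator K) :
    Tendsto (fun F : Finset I => chi p (F : Set I) * K) atTop (𝓝 K) := by
  obtain ⟨C, hC, hKC⟩ := IsCompactOperator.image_closedBall_subset_compact
    (f := (K : Ell p I →ₗ[ℂ] Ell p I)) hK 1
  rw [Metric.tendsto_nhds]
  intro ε hε
  obtain ⟨t, -, htf, htC⟩ := hC.finite_cover_balls (e := ε / 4) (by positivity)
  have h1 : ∀ᶠ F : Finset I in atTop, ∀ c ∈ t, dist (chi p (F : Set I) c) c < ε / 4 :=
    (Filter.eventually_all_finite htf).2 fun c _ =>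
      Metric.tendsto_nhds.1 (tendsto_chi_apply c) _ (by positivity)
  filter_upwards [h1] with F hF
  rw [dist_eq_norm]
  refine lt_of_le_of_lt (ContinuousLinearMap.opNorm_le_of_unit_norm (C := 3 * (ε / 4))
    (by positivity) fun f hf => ?_) (by linarith)
  have hmem : K f ∈ C := hKC ⟨f, by simp [hf], rfl⟩
  obtain ⟨c, hc, hfc⟩ := Set.mem_iUnion₂.1 (htC hmem)
  have e1 : (chi p (F : Set I) * K - K) f =
      chi p (F : Set I) (K f - c) + (chi p (F : Set I) c - c) - (K f - c) := by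
    simp only [ContinuousLinearMap.sub_apply, ContinuousLinearMap.mul_apply, map_sub]
    abel
  have h2 : ‖K f - c‖ ≤ ε / 4 := by
    rw [← dist_eq_norm]; exact (Metric.mem_ball.1 hfc).le
  have h3 : ‖chi p (F : Set I) (K f - c)‖ ≤ ε / 4 :=
    ((chi p _).le_opNorm _).trans (by
      have := norm_chi_le (p := p) (F : Set I)
      nlinarith [norm_nonneg (K f - c), norm_nonneg (chi p (F : Set I))])
  have h4 : ‖chi p (F : Set I) c - c‖ ≤ ε / 4 := by
    rw [← dist_eq_norm]; exact (hF c hc).le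
  rw [e1]
  refine (norm_sub_le _ _).trans ?_
  refine (add_le_add_left (norm_add_le _ _) _).trans ?_
  linarith

/-! ### Multipliers -/

/-- Boundedness of a function. -/
def Bdd (φ : I → ℂ) : Prop := ∃ C : ℝ≥0, ∀ i, ‖φ i‖ ≤ C

theorem mul_bound {φ : I → ℂ} {C : ℝ≥0} (h : ∀ i, ‖φ i‖ ≤ C) (f : Ell p I) (s : Finset I) :
    ∑ i ∈ s, ‖LinearMap.mulLeft ℂ φ f i‖ ^ (p : ℝ) ≤ ((C : ℝ) * ‖f‖) ^ (p : ℝ) := by
  rw [Real.mul_rpow C.coe_nonneg (norm_nonneg f)]
  refine le_trans ?_ (mul_le_mul_of_nonneg_left (sum_le_norm f s) (by positivity))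
  rw [Finset.mul_sum]
  refine Finset.sum_le_sum fun i _ => ?_
  rw [← Real.mul_rpow C.coe_nonneg (norm_nonneg _)]
  refine Real.rpow_le_rpow (norm_nonneg _) ?_ p_pos.le
  change ‖φ i * f i‖ ≤ _
  rw [norm_mul]
  exact mul_le_mul_of_nonneg_right (h i) (norm_nonneg _)

variable (p) in
open Classical in
/-- Multiplication operator. -/
noncomputable def mulOp (φ : I → ℂ) : Op p I :=
  if h : Bdd φ then mkOp (LinearMap.mulLeft ℂ φ) h.choose (mul_bound h.choose_spec) else 0

theorem mulOp_apply {φ : I → ℂ} (h : Bdd φ) (f : Ell p I) (i : I) :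
    mulOp p φ f i = φ i * f i := by
  unfold mulOp
  rw [dif_pos h]
  rfl

theorem norm_mulOp_le {φ : I → ℂ} {C : ℝ} (hC : 0 ≤ C) (h : ∀ i, ‖φ i‖ ≤ C) :
    ‖mulOp p φ‖ ≤ C := by
  lift C to ℝ≥0 using hC
  have : mulOp p φ = mkOp (LinearMap.mulLeft ℂ φ) C (mul_bound h) :=
    clm_ext fun f i => mulOp_apply ⟨C, h⟩ f i
  rw [this]
  exact norm_mkOp_le _ _ _

theorem bdd_of_le {φ : I → ℂ} {C : ℝ} (h : ∀ i, ‖φ i‖ ≤ C) : Bdd φ :=
  ⟨C.toNNReal, fun i => (h i).trans (Real.le_coe_toNNReal C)⟩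

theorem entry_mulOp_mul {φ : I → ℂ} (h : Bdd φ) (T : Op p I) (i j : I) :
    entry (mulOp p φ * T) i j = φ i * entry T i j := mulOp_apply h _ _

theorem mulOp_delta {φ : I → ℂ} (h : Bdd φ) (j : I) :
    mulOp p φ (delta p j) = φ j • delta p j := by
  refine lp.ext (funext fun i => ?_)
  rw [mulOp_apply h, lp.coeFn_smul, Pi.smul_apply, smul_eq_mul]
  by_cases hij : i = j
  · rw [hij]
  · rw [delta_ne hij, mul_zero, mul_zero]

theorem entry_mul_mulOp {φ : I → ℂ} (h : Bdd φ) (T : Op p I) (i j : I) :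
    entry (T * mulOp p φ) i j = entry T i j * φ j := by
  unfold entry
  rw [ContinuousLinearMap.mul_apply, mulOp_delta h, map_smul, lp.coeFn_smul, Pi.smul_apply,
    smul_eq_mul, mul_comm]

theorem entry_mulOp {φ : I → ℂ} (h : Bdd φ) (i j : I) [Decidable (i = j)] :
    entry (mulOp p φ) i j = if i = j then φ i else 0 := by
  rw [← mul_one (mulOp p φ), entry_mulOp_mul h, entry_one]
  simp

theorem Bdd.mul {φ ψ : I → ℂ} (h : Bdd φ) (h' : Bdd ψ) : Bdd (φ * ψ) := by
  obtain ⟨C, hC⟩ := h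
  obtain ⟨D, hD⟩ := h'
  refine ⟨C * D, fun i => ?_⟩
  rw [Pi.mul_apply, norm_mul, NNReal.coe_mul]
  exact mul_le_mul (hC i) (hD i) (norm_nonneg _) C.2

theorem mulOp_mul {φ ψ : I → ℂ} (h : Bdd φ) (h' : Bdd ψ) :
    mulOp p φ * mulOp p ψ = mulOp p (φ * ψ) := by
  refine clm_ext fun f i => ?_
  rw [ContinuousLinearMap.mul_apply, mulOp_apply h, mulOp_apply h', mulOp_apply (h.mul h'),
    Pi.mul_apply, mul_assoc]

theorem mulOp_one : mulOp p (1 : I → ℂ) = 1 := by
  refine clm_ext fun f i => ?_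
  rw [mulOp_apply (bdd_of_le (C := 1) (by simp))]
  simp

/-! ### Permutation operators -/

variable (p) in
/-- The permutation operator. -/
noncomputable def perm (σ : Equiv.Perm I) : Op p I := ext p σ.toEmbedding

theorem perm_apply (σ : Equiv.Perm I) (f : Ell p I) (i : I) : perm p σ f i = f (σ⁻¹ i) := by
  have := ext_apply σ.toEmbedding f (σ⁻¹ i)
  simpa [perm] using this

theorem norm_perm_le (σ : Equiv.Perm I) : ‖perm p σ‖ ≤ 1 := norm_ext_le _

theorem perm_mul (σ τ : Equiv.Perm I) : perm p (σ * τ) = perm p σ * perm p τ := by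
  refine clm_ext fun f i => ?_
  rw [ContinuousLinearMap.mul_apply, perm_apply, perm_apply, perm_apply, mul_inv_rev]
  rfl

theorem perm_one : perm p (1 : Equiv.Perm I) = 1 := by
  refine clm_ext fun f i => ?_
  rw [perm_apply]
  rfl

theorem entry_perm (σ : Equiv.Perm I) (i j : I) [Decidable (i = σ j)] :
    entry (perm p σ) i j = if i = σ j then 1 else 0 := by
  unfold entry perm
  rw [ext_delta, delta_apply]
  rfl

theorem entry_perm_sub_one {σ : Equiv.Perm I} {i j : I} (h : entry (perm p σ - 1) i j ≠ 0) :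
    σ j ≠ j ∧ σ i ≠ i ∧ (i = σ j ∨ i = j) := by
  classical
  rw [entry_sub, entry_perm, entry_one] at h
  by_cases h1 : i = σ j <;> by_cases h2 : i = j
  · simp [h1, h2] at h
    simp [← h1, h2] at h
  · refine ⟨fun hh => h2 (h1.trans hh), fun hh => h2 (σ.injective (hh.trans h1)), Or.inl h1⟩
  · subst h2
    exact ⟨fun hh => h1 hh.symm, fun hh => h1 hh.symm, Or.inr rfl⟩
  · simp [h1, h2] at h

end Pool.Agent.Work.MP_9ec65e_al
end

-- merged part: Pool.Agent.Work.MP_9ec65e_al.PropLem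
section
/-! Propagation in terms of matrix entries. -/

set_option linter.unusedSectionVars false
set_option backward.isDefEq.respectTransparency false

namespace Pool.Agent.Work.MP_9ec65e_al

open scoped NNReal ENNReal Topology
open Filter

variable {p : ℝ≥0} [hp : Fact (1 ≤ (p : ℝ≥0∞))] {I I' I'' Y Y' Y'' : Type} [PseudoEMetricSpace Y]
  [PseudoEMetricSpace Y'] [PseudoEMetricSpace Y''] {ι : I → Y} {ι' : I' → Y'} {ι'' : I'' → Y''}

theorem prop_le_iff {T : Op p I} {δ : ℝ≥0∞} :
    prop ι T ≤ δ ↔ ∀ i j, entry T i j ≠ 0 → edist (ι i) (ι j) ≤ δ := by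
  classical
  constructor
  · intro h i j hij
    rw [edist_comm]
    refine le_trans (le_iSup₂_of_le (f := fun z (_ : z ∈ supp ι T) => edist z.1 z.2)
      (ι j, ι i) ?_ le_rfl) h
    intro U V _ _ hU hV h0
    apply hij
    have := congrArg (fun S => entry S i j) h0
    simp only [entry_mul_chi, entry_chi_mul, entry_zero] at this
    rwa [if_pos (show j ∈ ι ⁻¹' U from hU), if_pos (show i ∈ ι ⁻¹' V from hV)] at this
  · intro h
    refine iSup₂_le fun z hz => ENNReal.le_of_forall_pos_le_add fun ε hε _ => ?_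
    have hε' : (0 : ℝ≥0∞) < ε / 2 := ENNReal.half_pos (by simpa using hε.ne')
    have h1 := hz (Metric.eball z.1 (ε / 2)) (Metric.eball z.2 (ε / 2)) Metric.isOpen_eball
      Metric.isOpen_eball (Metric.mem_eball_self hε') (Metric.mem_eball_self hε')
    by_contra hc
    apply h1
    refine op_ext fun i j => ?_
    rw [entry_mul_chi, entry_chi_mul, entry_zero]
    split_ifs with hj hi
    · by_contra h0
      apply hc
      have h2 := h i j h0
      have hj' : edist (ι j) z.1 < ε / 2 := hj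
      have hi' : edist (ι i) z.2 < ε / 2 := hi
      calc edist z.1 z.2 ≤ edist z.1 (ι j) + edist (ι j) (ι i) + edist (ι i) z.2 :=
            edist_triangle4 _ _ _ _
        _ ≤ ε / 2 + δ + ε / 2 := by
            gcongr
            · rw [edist_comm]; exact hj'.le
            · rw [edist_comm]; exact h2
        _ = δ + ε := by rw [add_comm _ δ, add_assoc, ENNReal.add_halves]
    · rfl
    · rfl

theorem edist_le_prop {T : Op p I} {i j : I} (h : entry T i j ≠ 0) :
    edist (ι i) (ι j) ≤ prop ι T := prop_le_iff.1 le_rfl i j h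

theorem prop_zero : prop ι (0 : Op p I) = 0 :=
  le_antisymm (prop_le_iff.2 fun _ _ h => (h rfl).elim) zero_le

theorem prop_one : prop ι (1 : Op p I) = 0 := by
  classical
  refine le_antisymm (prop_le_iff.2 fun i j h => ?_) zero_le
  rw [entry_one] at h
  by_cases hij : i = j
  · simp [hij]
  · simp [hij] at h

theorem prop_add_le (S T : Op p I) : prop ι (S + T) ≤ prop ι S + prop ι T := by
  refine prop_le_iff.2 fun i j h => ?_
  by_cases hS : entry S i j = 0
  · rw [entry_add, hS, zero_add] at h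
    exact (edist_le_prop h).trans le_add_self
  · exact (edist_le_prop hS).trans le_self_add

theorem prop_smul_le (c : ℂ) (T : Op p I) : prop ι (c • T) ≤ prop ι T := by
  refine prop_le_iff.2 fun i j h => edist_le_prop fun h0 => h ?_
  rw [entry_smul, h0, mul_zero]

theorem prop_sub_le (S T : Op p I) : prop ι (S - T) ≤ prop ι S + prop ι T := by
  rw [sub_eq_add_neg, ← neg_one_smul ℂ T]
  exact (prop_add_le _ _).trans (add_le_add_right (prop_smul_le _ _) _)

theorem prop_mul_le (S T : Op p I) : prop ι (S * T) ≤ prop ι S + prop ι T := by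
  refine prop_le_iff.2 fun i j h => ?_
  obtain ⟨k, h1, h2⟩ := entry_mul_ne_zero h
  exact (edist_triangle _ (ι k) _).trans (add_le_add (edist_le_prop h1) (edist_le_prop h2))

theorem compact_mul_left {S : Op p I} (h : IsCompactOperator S)
    (T : Op p I) : IsCompactOperator (T * S) := h.clm_comp T

theorem compact_mul_right {S : Op p I} (h : IsCompactOperator S)
    (T : Op p I) : IsCompactOperator (S * T) := h.comp_clm T

theorem LocCompact.zero : LocCompact ι (0 : Op p I) := fun K _ => by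
  rw [mul_zero, zero_mul]
  exact ⟨isCompactOperator_zero, isCompactOperator_zero⟩

theorem LocCompact.add {S T : Op p I} (hS : LocCompact ι S) (hT : LocCompact ι T) :
    LocCompact ι (S + T) := fun K hK => by
  rw [mul_add, add_mul]
  exact ⟨(hS K hK).1.add (hT K hK).1, (hS K hK).2.add (hT K hK).2⟩

theorem LocCompact.smul {T : Op p I} (hT : LocCompact ι T) (c : ℂ) :
    LocCompact ι (c • T) := fun K hK => by
  rw [mul_smul_comm, smul_mul_assoc]
  exact ⟨(hT K hK).1.smul c, (hT K hK).2.smul c⟩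

theorem LocCompact.mul {S T : Op p I} (hS : LocCompact ι S) (hT : LocCompact ι T) :
    LocCompact ι (S * T) := fun K hK => by
  rw [← mul_assoc, mul_assoc S]
  exact ⟨compact_mul_right (hS K hK).1 T, compact_mul_left (hT K hK).2 S⟩

/-! ### The maps `ad` -/

theorem ad_apply (J : I ↪ I') (T : Op p I) :
    ad p J T = (ext p J).comp (T.comp (res p J)) := rfl

theorem norm_ad_le (J : I ↪ I') (T : Op p I) : ‖ad p J T‖ ≤ ‖T‖ := by
  rw [ad_apply]
  have h1 := (ext p J).opNorm_comp_le (T.comp (res p J))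
  have h2 := T.opNorm_comp_le (res p J)
  have h3 := norm_ext_le (p := p) J
  have h4 := norm_res_le (p := p) J
  have h5 : ‖T.comp (res p J)‖ ≤ ‖T‖ := h2.trans (mul_le_of_le_one_right (norm_nonneg _) h4)
  exact h1.trans ((mul_le_of_le_one_left (norm_nonneg _) h3).trans h5)

theorem lipschitz_ad (J : I ↪ I') : LipschitzWith 1 (ad p J) :=
  LipschitzWith.of_dist_le_mul fun S T => by
    rw [dist_eq_norm, dist_eq_norm, ← map_sub, NNReal.coe_one, one_mul]
    exact norm_ad_le J _

theorem ad_smul (J : I ↪ I') (c : ℂ) (T : Op p I) :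
    ad p J (c • T) = c • ad p J T := by
  simp [ad_apply]

theorem ad_trans (J : I ↪ I') (J' : I' ↪ I'') (T : Op p I) :
    ad p (J.trans J') T = ad p J' (ad p J T) := by
  simp only [ad_apply, ext_trans, res_trans, ContinuousLinearMap.comp_assoc]

theorem entry_ad (J : I ↪ I') (T : Op p I) (i j : I) :
    entry (ad p J T) (J i) (J j) = entry T i j := by
  unfold entry
  rw [ad_apply, ContinuousLinearMap.comp_apply, ContinuousLinearMap.comp_apply, ext_apply,
    res_delta]

theorem entry_ad_left (J : I ↪ I') (T : Op p I) {i : I'} (j : I')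
    (h : ¬ ∃ k, J k = i) : entry (ad p J T) i j = 0 := ext_apply_not _ _ h

theorem entry_ad_right (J : I ↪ I') (T : Op p I) (i : I') {j : I'}
    (h : ¬ ∃ k, J k = j) : entry (ad p J T) i j = 0 := by
  unfold entry
  rw [ad_apply, ContinuousLinearMap.comp_apply, ContinuousLinearMap.comp_apply, res_delta_not _ h,
    map_zero, map_zero]
  rfl

theorem entry_ad_ne_zero {J : I ↪ I'} {T : Op p I} {i j : I'}
    (h : entry (ad p J T) i j ≠ 0) : ∃ a b, J a = i ∧ J b = j ∧ entry T a b ≠ 0 := by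
  by_cases hi : ∃ k, J k = i
  · by_cases hj : ∃ k, J k = j
    · obtain ⟨a, rfl⟩ := hi
      obtain ⟨b, rfl⟩ := hj
      exact ⟨a, b, rfl, rfl, by rwa [entry_ad] at h⟩
    · exact (h (entry_ad_right _ _ _ hj)).elim
  · exact (h (entry_ad_left _ _ _ hi)).elim

theorem chi_mul_ad (J : I ↪ I') (S : Set I') (T : Op p I) :
    chi p S * ad p J T = ad p J (chi p (J ⁻¹' S) * T) := by
  change (chi p S).comp ((ext p J).comp (T.comp (res p J))) =
    (ext p J).comp (((chi p (J ⁻¹' S)).comp T).comp (res p J))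
  rw [← ContinuousLinearMap.comp_assoc, chi_ext]
  rfl

theorem ad_mul_chi (J : I ↪ I') (S : Set I') (T : Op p I) :
    ad p J T * chi p S = ad p J (T * chi p (J ⁻¹' S)) := by
  change ((ext p J).comp (T.comp (res p J))).comp (chi p S) =
    (ext p J).comp ((T.comp (chi p (J ⁻¹' S))).comp (res p J))
  rw [ContinuousLinearMap.comp_assoc, ContinuousLinearMap.comp_assoc, res_chi]
  rfl

theorem compact_ad (J : I ↪ I') {T : Op p I} (h : IsCompactOperator T) :
    IsCompactOperator (ad p J T) := (h.comp_clm (res p J)).clm_comp (ext p J)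

theorem Cov.prop_ad (c : Cov ι ι') (T : Op p I) :
    prop ι' (ad p c.J T) ≤ prop ι T := by
  refine prop_le_iff.2 fun i j h => ?_
  obtain ⟨a, b, rfl, rfl, hab⟩ := entry_ad_ne_zero h
  exact (c.lip a b).trans (edist_le_prop hab)

theorem Cov.locCompact_ad (c : Cov ι ι') {T : Op p I} (h : LocCompact ι T) :
    LocCompact ι' (ad p c.J T) := fun K' hK' => by
  obtain ⟨K, hK, hKK⟩ := c.proper K' hK'
  rw [chi_mul_ad, ad_mul_chi]
  have e1 : c.J ⁻¹' (ι' ⁻¹' K') = c.J ⁻¹' (ι' ⁻¹' K') ∩ ι ⁻¹' K :=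
    (Set.inter_eq_left.2 fun i hi => hKK i hi).symm
  have e2 : c.J ⁻¹' (ι' ⁻¹' K') = ι ⁻¹' K ∩ c.J ⁻¹' (ι' ⁻¹' K') :=
    (Set.inter_eq_right.2 fun i hi => hKK i hi).symm
  constructor
  · rw [e1, ← chi_mul_chi, mul_assoc]
    exact compact_ad _ (compact_mul_left (h K hK).1 _)
  · rw [e2, ← chi_mul_chi, ← mul_assoc]
    exact compact_ad _ (compact_mul_right (h K hK).2 _)

end Pool.Agent.Work.MP_9ec65e_al
end

-- merged part: Pool.Agent.Work.MP_9ec65e_al.RoeDefs
section
/-! The `L^p` Roe algebra, the `L^p` localization algebra, evaluation at `0`, and the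
homomorphisms `T ↦ V T V†` between them. -/

set_option linter.unusedSectionVars false
set_option backward.isDefEq.respectTransparency false

namespace Pool.Agent.Work.MP_9ec65e_al

open scoped NNReal ENNReal Topology BoundedContinuousFunction
open Filter

variable (p : ℝ≥0) [hp : Fact (1 ≤ (p : ℝ≥0∞))] {I I' Y Y' : Type} [PseudoEMetricSpace Y]
  [PseudoEMetricSpace Y']

/-- Bounded continuous maps `[0, ∞) → B` with the supremum norm. -/
abbrev Fn (B : Type) [NormedRing B] : Type := ℝ≥0 →ᵇ B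

/-- The algebra of locally compact operators of finite propagation. -/
noncomputable def roeAlg (ι : I → Y) : NonUnitalSubalgebra ℂ (Op p I) where
  carrier := {T | LocCompact ι T ∧ prop ι T < ∞}
  zero_mem' := ⟨LocCompact.zero, by simp [prop_zero]⟩
  add_mem' hS hT := ⟨hS.1.add hT.1, (prop_add_le _ _).trans_lt (ENNReal.add_lt_top.2 ⟨hS.2, hT.2⟩)⟩
  mul_mem' hS hT := ⟨hS.1.mul hT.1, (prop_mul_le _ _).trans_lt (ENNReal.add_lt_top.2 ⟨hS.2, hT.2⟩)⟩
  smul_mem' c _ hT := ⟨hT.1.smul c, (prop_smul_le _ _).trans_lt hT.2⟩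

/-- The `L^p` Roe algebra `B^p`: the norm closure of `roeAlg`. -/
noncomputable def Roe (ι : I → Y) : NonUnitalSubalgebra ℂ (Op p I) :=
  (roeAlg p ι).topologicalClosure

theorem loc_bound {ι : I → Y} {f g h : Fn (Op p I)}
    (hle : ∀ t, prop ι (h t) ≤ prop ι (f t) + prop ι (g t))
    (hf : ⨆ t, prop ι (f t) < ∞ ∧ Tendsto (fun t => prop ι (f t)) atTop (𝓝 0))
    (hg : ⨆ t, prop ι (g t) < ∞ ∧ Tendsto (fun t => prop ι (g t)) atTop (𝓝 0)) :
    ⨆ t, prop ι (h t) < ∞ ∧ Tendsto (fun t => prop ι (h t)) atTop (𝓝 0) := by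
  refine ⟨lt_of_le_of_lt (iSup_le fun t => (hle t).trans (add_le_add
    (le_iSup (fun t => prop ι (f t)) t) (le_iSup (fun t => prop ι (g t)) t)))
    (ENNReal.add_lt_top.2 ⟨hf.1, hg.1⟩), ?_⟩
  refine tendsto_of_tendsto_of_tendsto_of_le_of_le tendsto_const_nhds ?_ (fun _ => zero_le) hle
  simpa using hf.2.add hg.2

theorem uniformContinuous_mul_bcf {B : Type} [NormedRing B] {f g : Fn B}
    (hf : UniformContinuous f) (hg : UniformContinuous g) : UniformContinuous (⇑f * ⇑g) := by
  rw [Metric.uniformContinuous_iff] at *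
  intro ε hε
  have hM : 0 < ‖f‖ + ‖g‖ + 1 := by positivity
  obtain ⟨δ₁, h₁, hf⟩ := hf (ε / (‖f‖ + ‖g‖ + 1)) (by positivity)
  obtain ⟨δ₂, h₂, hg⟩ := hg (ε / (‖f‖ + ‖g‖ + 1)) (by positivity)
  refine ⟨min δ₁ δ₂, lt_min h₁ h₂, fun {a b} hab => ?_⟩
  have e : (⇑f * ⇑g) a - (⇑f * ⇑g) b = (f a - f b) * g a + f b * (g a - g b) := by
    simp only [Pi.mul_apply]
    noncomm_ring
  have h3 := (hf (hab.trans_le (min_le_left _ _))).le
  have h4 := (hg (hab.trans_le (min_le_right _ _))).le
  rw [dist_eq_norm] at h3 h4 ⊢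
  rw [e]
  calc _ ≤ ε / (‖f‖ + ‖g‖ + 1) * ‖g‖ + ‖f‖ * (ε / (‖f‖ + ‖g‖ + 1)) := by
        refine (norm_add_le _ _).trans (add_le_add ((norm_mul_le _ _).trans ?_)
          ((norm_mul_le _ _).trans ?_))
        · exact mul_le_mul h3 (g.norm_coe_le_norm a) (norm_nonneg _) (by positivity)
        · exact mul_le_mul (f.norm_coe_le_norm b) h4 (norm_nonneg _) (by positivity)
    _ = ε * ((‖f‖ + ‖g‖) / (‖f‖ + ‖g‖ + 1)) := by ring
    _ < ε := mul_lt_of_lt_one_right hε ((div_lt_one hM).2 (lt_add_one _))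

/-- The algebra of bounded, uniformly norm-continuous maps `f : [0, ∞) → B^p` with
`sup_t prop (f t) < ∞` and `prop (f t) → 0` as `t → ∞`. -/
noncomputable def locAlg (ι : I → Y) : NonUnitalSubalgebra ℂ (Fn (Op p I)) where
  carrier := {f | (∀ t, f t ∈ Roe p ι) ∧ UniformContinuous f ∧
    ⨆ t, prop ι (f t) < ∞ ∧ Tendsto (fun t => prop ι (f t)) atTop (𝓝 0)}
  zero_mem' := ⟨fun _ => zero_mem _, uniformContinuous_const, by simp [prop_zero],
    by simp [prop_zero]⟩
  add_mem' hf hg := ⟨fun t => add_mem (hf.1 t) (hg.1 t), hf.2.1.add hg.2.1,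
    loc_bound p (fun _ => prop_add_le _ _) hf.2.2 hg.2.2⟩
  mul_mem' hf hg := ⟨fun t => mul_mem (hf.1 t) (hg.1 t), uniformContinuous_mul_bcf hf.2.1 hg.2.1,
    loc_bound p (fun _ => prop_mul_le _ _) hf.2.2 hg.2.2⟩
  smul_mem' c _ hf := ⟨fun t => SMulMemClass.smul_mem c (hf.1 t), hf.2.1.const_smul c,
    loc_bound p (fun _ => (prop_smul_le _ _).trans le_self_add) hf.2.2 hf.2.2⟩

/-- The `L^p` localization algebra `B^p_L`: the closure of `locAlg` in the supremum norm. -/
noncomputable def Loc (ι : I → Y) : NonUnitalSubalgebra ℂ (Fn (Op p I)) :=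
  (locAlg p ι).topologicalClosure

variable {p}

theorem Loc.apply_mem {ι : I → Y} {f : Fn (Op p I)} (hf : f ∈ Loc p ι) (t : ℝ≥0) :
    f t ∈ Roe p ι := by
  have h1 : IsClosed {g : Fn (Op p I) | g t ∈ Roe p ι} :=
    (roeAlg p ι).isClosed_topologicalClosure.preimage (continuous_eval_const t)
  have h2 : (locAlg p ι : Set (Fn (Op p I))) ⊆ {g : Fn (Op p I) | g t ∈ Roe p ι} :=
    fun g hg => hg.1 t
  exact closure_minimal h2 h1 hf

variable {ι : I → Y} {ι' : I' → Y'}

theorem Cov.ad_mem_Roe (c : Cov ι ι') {T : Op p I} (h : T ∈ Roe p ι) : ad p c.J T ∈ Roe p ι' := by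
  have h1 : ∀ S ∈ (roeAlg p ι : Set (Op p I)), ad p c.J S ∈ (roeAlg p ι' : Set (Op p I')) :=
    fun S hS => ⟨c.locCompact_ad hS.1, (c.prop_ad S).trans_lt hS.2⟩
  exact map_mem_closure (lipschitz_ad c.J).continuous h h1

theorem Cov.ad_mem_Loc (c : Cov ι ι') {f : Fn (Op p I)} (h : f ∈ Loc p ι) :
    (f.comp (ad p c.J) (lipschitz_ad c.J) : Fn (Op p I')) ∈ Loc p ι' := by
  have h1 : ∀ g ∈ (locAlg p ι : Set (Fn (Op p I))),
      (g.comp (ad p c.J) (lipschitz_ad c.J) : Fn (Op p I')) ∈ (locAlg p ι' : Set (Fn (Op p I'))) :=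
    fun g hg => ⟨fun t => c.ad_mem_Roe (hg.1 t), (lipschitz_ad c.J).uniformContinuous.comp hg.2.1,
      lt_of_le_of_lt (iSup_mono fun t => c.prop_ad (g t)) hg.2.2.1,
      tendsto_of_tendsto_of_tendsto_of_le_of_le tendsto_const_nhds hg.2.2.2 (fun _ => zero_le)
        fun t => c.prop_ad (g t)⟩
  exact map_mem_closure (BoundedContinuousFunction.continuous_comp (lipschitz_ad c.J)) h h1

variable (p)

/-- Evaluation at `0`, `e_0 : B^p_L → B^p`. -/
noncomputable def ev0 (ι : I → Y) : Loc p ι →ₙ+* Roe p ι where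
  toFun f := ⟨f.1 0, Loc.apply_mem f.2 0⟩
  map_zero' := rfl
  map_add' _ _ := rfl
  map_mul' _ _ := rfl

theorem continuous_ev0 (ι : I → Y) : Continuous (ev0 p ι) :=
  ((continuous_eval_const 0).comp continuous_subtype_val).subtype_mk _

/-- The homomorphism `T ↦ V T V†` of Roe algebras. -/
noncomputable def Cov.roe (c : Cov ι ι') : Roe p ι →ₙ+* Roe p ι' where
  toFun T := ⟨ad p c.J T.1, c.ad_mem_Roe T.2⟩
  map_zero' := Subtype.ext (map_zero (ad p c.J))
  map_add' _ _ := Subtype.ext (map_add (ad p c.J) _ _)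
  map_mul' _ _ := Subtype.ext (map_mul (ad p c.J) _ _)

theorem Cov.continuous_roe (c : Cov ι ι') : Continuous (c.roe p) :=
  ((lipschitz_ad c.J).continuous.comp continuous_subtype_val).subtype_mk _

/-- The homomorphism `f ↦ (t ↦ V f(t) V†)` of localization algebras. -/
noncomputable def Cov.loc (c : Cov ι ι') : Loc p ι →ₙ+* Loc p ι' where
  toFun f := ⟨f.1.comp (ad p c.J) (lipschitz_ad c.J), c.ad_mem_Loc f.2⟩
  map_zero' := Subtype.ext (BoundedContinuousFunction.ext fun _ => map_zero (ad p c.J))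
  map_add' _ _ := Subtype.ext (BoundedContinuousFunction.ext fun _ => map_add (ad p c.J) _ _)
  map_mul' _ _ := Subtype.ext (BoundedContinuousFunction.ext fun _ => map_mul (ad p c.J) _ _)

theorem Cov.continuous_loc (c : Cov ι ι') : Continuous (c.loc p) :=
  ((BoundedContinuousFunction.continuous_comp (lipschitz_ad c.J)).comp
    continuous_subtype_val).subtype_mk _

end Pool.Agent.Work.MP_9ec65e_al
end

-- merged part: Pool.Agent.Work.MP_9ec65e_al.Comm
section
/-! Commutators of multipliers with operators of small propagation. -/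

set_option linter.unusedSectionVars false
set_option backward.isDefEq.respectTransparency false

namespace Pool.Agent.Work.MP_9ec65e_al

open scoped NNReal ENNReal Topology BoundedContinuousFunction
open Filter

variable {p : ℝ≥0} [hp : Fact (1 ≤ (p : ℝ≥0∞))] {I Y : Type} [PseudoEMetricSpace Y] {ι : I → Y}

theorem norm_mul3_le {a b : I → ℂ} (ha : ∀ i, ‖a i‖ ≤ 1) (hb : ∀ i, ‖b i‖ ≤ 1) (T : Op p I) :
    ‖mulOp p a * T * mulOp p b‖ ≤ ‖T‖ := by
  have h1 := norm_mulOp_le (p := p) zero_le_one ha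
  have h2 := norm_mulOp_le (p := p) zero_le_one hb
  calc _ ≤ ‖mulOp p a‖ * ‖T‖ * ‖mulOp p b‖ :=
        (norm_mul_le _ _).trans (mul_le_mul_of_nonneg_right (norm_mul_le _ _) (norm_nonneg _))
    _ ≤ 1 * ‖T‖ * 1 := by gcongr
    _ = ‖T‖ := by ring

theorem norm_comm_int (k : I → ℤ) (hk : Bdd fun i => (k i : ℂ)) (T : Op p I)
    (h : ∀ i j, entry T i j ≠ 0 → |k i - k j| ≤ 1) :
    ‖mulOp p (fun i => (k i : ℂ)) * T - T * mulOp p (fun i => (k i : ℂ))‖ ≤ ‖T‖ := by
  set a : I → ℂ := fun i => Complex.I ^ (k i)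
  set b : I → ℂ := fun i => Complex.I ^ (-k i)
  have ha : ∀ i, ‖a i‖ ≤ 1 := fun i => by simp [a]
  have hb : ∀ i, ‖b i‖ ≤ 1 := fun i => by simp [b]
  have e : mulOp p (fun i => (k i : ℂ)) * T - T * mulOp p (fun i => (k i : ℂ)) =
      (-Complex.I / 2) • (mulOp p a * T * mulOp p b - mulOp p b * T * mulOp p a) := by
    refine op_ext fun i j => ?_
    simp only [entry_sub, entry_smul, entry_mulOp_mul hk, entry_mul_mulOp hk,
      entry_mul_mulOp (bdd_of_le ha), entry_mul_mulOp (bdd_of_le hb),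
      entry_mulOp_mul (bdd_of_le ha), entry_mulOp_mul (bdd_of_le hb)]
    by_cases h0 : entry T i j = 0
    · simp [h0]
    have h1 : a i * b j = Complex.I ^ (k i - k j) := by
      simp only [a, b]
      rw [← zpow_add₀ Complex.I_ne_zero, sub_eq_add_neg]
    have h2 : b i * a j = Complex.I ^ (-(k i - k j)) := by
      simp only [a, b]
      rw [← zpow_add₀ Complex.I_ne_zero]
      congr 1
      ring
    have h3 : (k i : ℂ) - k j = -Complex.I / 2 * (a i * b j - b i * a j) := by
      rw [h1, h2, ← Int.cast_sub]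
      have := h i j h0
      generalize k i - k j = d at this ⊢
      obtain rfl | rfl | rfl : d = -1 ∨ d = 0 ∨ d = 1 := by
        rw [abs_le] at this
        omega
      · simp
        linear_combination (-1 : ℂ) * Complex.I_mul_I
      · simp
      · simp
        linear_combination Complex.I_mul_I
    linear_combination entry T i j * h3
  rw [e, norm_smul]
  have h4 := (norm_sub_le _ _).trans (add_le_add (norm_mul3_le ha hb T) (norm_mul3_le hb ha T))
  have h5 : ‖-Complex.I / 2‖ = 1 / 2 := by simp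
  rw [h5]
  linarith

theorem norm_comm_real (h : I → ℝ) (hb : Bdd fun i => (h i : ℂ)) {δ : ℝ} (hδ : 0 < δ) (T : Op p I)
    (hT : ∀ i j, entry T i j ≠ 0 → |h i - h j| ≤ δ) :
    ‖mulOp p (fun i => (h i : ℂ)) * T - T * mulOp p (fun i => (h i : ℂ))‖ ≤ 3 * δ * ‖T‖ := by
  obtain ⟨C, hC⟩ := id hb
  set k : I → ℤ := fun i => ⌊h i / δ⌋
  set ρ : I → ℂ := fun i => ((h i - δ * k i : ℝ) : ℂ)
  have hρ : ∀ i, ‖ρ i‖ ≤ δ := fun i => by
    simp only [ρ, Complex.norm_real, Real.norm_eq_abs, abs_le]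
    have h1 := (le_div_iff₀ hδ).1 (Int.floor_le (h i / δ))
    have h2 := (div_lt_iff₀ hδ).1 (Int.lt_floor_add_one (h i / δ))
    constructor <;> simp only [k] <;> nlinarith
  have hk : Bdd fun i => (k i : ℂ) := by
    refine bdd_of_le (C := C / δ + 1) fun i => ?_
    have h1 := hC i
    have h2 := hρ i
    simp only [ρ, Complex.norm_real, Real.norm_eq_abs, abs_le] at h1 h2
    rw [Complex.norm_intCast, abs_le, div_add_one hδ.ne', neg_le, le_div_iff₀ hδ, le_div_iff₀ hδ]
    constructor <;> nlinarith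
  have h1 := norm_comm_int k hk T fun i j hij => by
    have := abs_le.1 (hT i j hij)
    have h3 : ∀ a b : ℝ, a - b ≤ δ → ⌊a / δ⌋ ≤ ⌊b / δ⌋ + 1 := fun a b hab => by
      rw [← Int.floor_add_one]
      refine Int.floor_mono ?_
      rw [div_add_one hδ.ne', div_le_div_iff_of_pos_right hδ]
      linarith
    have h4 := h3 (h i) (h j) this.2
    have h5 := h3 (h j) (h i) (by linarith [this.1])
    simp only [k]
    rw [abs_le]
    omega
  have e : mulOp p (fun i => (h i : ℂ)) * T - T * mulOp p (fun i => (h i : ℂ)) =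
      (δ : ℂ) • (mulOp p (fun i => (k i : ℂ)) * T - T * mulOp p (fun i => (k i : ℂ))) +
        (mulOp p ρ * T - T * mulOp p ρ) := by
    refine op_ext fun i j => ?_
    simp only [entry_sub, entry_smul, entry_add, entry_mulOp_mul hk, entry_mul_mulOp hk,
      entry_mul_mulOp (bdd_of_le hρ), entry_mul_mulOp hb,
      entry_mulOp_mul (bdd_of_le hρ), entry_mulOp_mul hb, ρ]
    push_cast
    ring
  have h2 := norm_mulOp_le (p := p) hδ.le hρ
  have h3 : ‖mulOp p ρ * T‖ ≤ δ * ‖T‖ :=
    (norm_mul_le _ _).trans (mul_le_mul_of_nonneg_right h2 (norm_nonneg _))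
  have h4 : ‖T * mulOp p ρ‖ ≤ ‖T‖ * δ :=
    (norm_mul_le _ _).trans (mul_le_mul_of_nonneg_left h2 (norm_nonneg _))
  rw [e]
  refine (norm_add_le _ _).trans ?_
  rw [norm_smul, Complex.norm_real, Real.norm_eq_abs, abs_of_pos hδ]
  have h5 := norm_sub_le (mulOp p ρ * T) (T * mulOp p ρ)
  nlinarith

theorem norm_comm {f : I → ℂ} (hb : Bdd f) {δ : ℝ} (hδ : 0 < δ) (T : Op p I)
    (hT : ∀ i j, entry T i j ≠ 0 → ‖f i - f j‖ ≤ δ) :
    ‖mulOp p f * T - T * mulOp p f‖ ≤ 6 * δ * ‖T‖ := by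
  obtain ⟨C, hC⟩ := id hb
  have hr : Bdd fun i => ((f i).re : ℂ) := ⟨C, fun i => by
    simpa using (Complex.abs_re_le_norm _).trans (hC i)⟩
  have hi : Bdd fun i => ((f i).im : ℂ) := ⟨C, fun i => by
    simpa using (Complex.abs_im_le_norm _).trans (hC i)⟩
  have h1 := norm_comm_real (fun i => (f i).re) hr hδ T fun i j h =>
    le_trans (by simpa using Complex.abs_re_le_norm (f i - f j)) (hT i j h)
  have h2 := norm_comm_real (fun i => (f i).im) hi hδ T fun i j h =>
    le_trans (by simpa using Complex.abs_im_le_norm (f i - f j)) (hT i j h)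
  have e : mulOp p f * T - T * mulOp p f =
      (mulOp p (fun i => ((f i).re : ℂ)) * T - T * mulOp p (fun i => ((f i).re : ℂ))) +
      Complex.I • (mulOp p (fun i => ((f i).im : ℂ)) * T - T * mulOp p (fun i => ((f i).im : ℂ))) := by
    refine op_ext fun i j => ?_
    simp only [entry_sub, entry_smul, entry_add, entry_mulOp_mul hr, entry_mul_mulOp hr,
      entry_mul_mulOp hi, entry_mul_mulOp hb, entry_mulOp_mul hi, entry_mulOp_mul hb]
    linear_combination entry T i j * (Complex.re_add_im (f j) - Complex.re_add_im (f i))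
  rw [e]
  refine (norm_add_le _ _).trans ?_
  rw [norm_smul, Complex.norm_I]
  linarith

theorem isClosed_tendsto_zero {B : Type} [NormedRing B] :
    IsClosed {x : Fn B | Tendsto x atTop (𝓝 0)} := by
  refine isClosed_of_closure_subset fun x hx => ?_
  rw [Set.mem_setOf_eq, Metric.tendsto_nhds]
  intro ε hε
  obtain ⟨y, hy, hxy⟩ := Metric.mem_closure_iff.1 hx (ε / 2) (half_pos hε)
  filter_upwards [Metric.tendsto_nhds.1 hy (ε / 2) (half_pos hε)] with t ht
  have := BoundedContinuousFunction.dist_coe_le_dist (f := x) (g := y) t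
  linarith [dist_triangle (x t) (y t) 0]

theorem Loc.tendsto_comm {g : Y → ℂ} {L : ℝ≥0} (hg : LipschitzWith L g) (hb : Bdd (g ∘ ι))
    {x : Fn (Op p I)} (hx : x ∈ Loc p ι) :
    Tendsto (fun t => mulOp p (g ∘ ι) * x t - x t * mulOp p (g ∘ ι)) atTop (𝓝 0) := by
  set M : Fn (Op p I) := BoundedContinuousFunction.const ℝ≥0 (mulOp p (g ∘ ι))
  have h1 : IsClosed {x : Fn (Op p I) | Tendsto (M * x - x * M : Fn (Op p I)) atTop (𝓝 0)} :=
    isClosed_tendsto_zero.preimage (f := fun x : Fn (Op p I) => M * x - x * M) (by fun_prop)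
  have h2 : (locAlg p ι : Set (Fn (Op p I))) ⊆
      {x : Fn (Op p I) | Tendsto (M * x - x * M : Fn (Op p I)) atTop (𝓝 0)} := by
    intro x hx
    rw [Set.mem_setOf_eq, Metric.tendsto_nhds]
    intro ε hε
    obtain ⟨δ, hδ, hδε⟩ : ∃ δ : ℝ≥0, 0 < δ ∧ 6 * ((L + 1) * δ : ℝ) * ‖x‖ < ε := by
      have hc : Continuous fun δ : ℝ≥0 => 6 * ((L + 1) * δ : ℝ) * ‖x‖ := by fun_prop
      have h0 : ∀ᶠ δ : ℝ≥0 in 𝓝 0, 6 * ((L + 1) * δ : ℝ) * ‖x‖ < ε :=
        hc.continuousAt.eventually_lt continuousAt_const (by simpa using hε)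
      obtain ⟨δ, h1, h2⟩ := (h0.filter_mono nhdsWithin_le_nhds |>.and
        (self_mem_nhdsWithin (s := Set.Ioi (0 : ℝ≥0)))).exists
      exact ⟨δ, h2, h1⟩
    filter_upwards [ENNReal.tendsto_nhds_zero.1 hx.2.2.2 δ (by simpa using hδ)] with t ht
    rw [dist_zero_right]
    refine lt_of_le_of_lt ((norm_comm hb (δ := (L + 1) * δ) (by positivity) (x t)
      fun i j hij => ?_).trans ?_) hδε
    · have h3 := (hg (ι i) (ι j)).trans (mul_le_mul_right ((edist_le_prop hij).trans ht) _)
      rw [← ENNReal.coe_mul, edist_le_coe, ← NNReal.coe_le_coe, coe_nndist, dist_eq_norm,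
        NNReal.coe_mul] at h3
      refine h3.trans ?_
      gcongr
      linarith
    · gcongr
      exact x.norm_coe_le_norm t
  exact closure_minimal h2 h1 hx

theorem Roe.chi_comm {W : Set Y} (hW : ∀ y ∈ W, ∀ y' ∉ W, edist y y' = ∞) {T : Op p I}
    (hT : T ∈ Roe p ι) : chi p (ι ⁻¹' W) * T = T * chi p (ι ⁻¹' W) := by
  classical
  have h1 : IsClosed {T : Op p I | chi p (ι ⁻¹' W) * T = T * chi p (ι ⁻¹' W)} :=
    isClosed_eq (by fun_prop) (by fun_prop)
  have h2 : (roeAlg p ι : Set (Op p I)) ⊆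
      {T : Op p I | chi p (ι ⁻¹' W) * T = T * chi p (ι ⁻¹' W)} := by
    intro T hT
    refine op_ext fun i j => ?_
    rw [entry_chi_mul, entry_mul_chi]
    by_cases h0 : entry T i j = 0
    · simp [h0]
    have h3 := ((edist_le_prop h0).trans_lt hT.2).ne
    by_cases hi : ι i ∈ W <;> by_cases hj : ι j ∈ W
    · simp [hi, hj]
    · exact (h3 (hW _ hi _ hj)).elim
    · exact (h3 (by rw [edist_comm]; exact hW _ hj _ hi)).elim
    · simp [hi, hj]
  exact closure_minimal h2 h1 hT

theorem Roe.chi_compact {W K : Set Y} (hK : IsCompact K) (hW : W ⊆ K) {T : Op p I}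
    (hT : T ∈ Roe p ι) : IsCompactOperator (chi p (ι ⁻¹' W) * T) := by
  have h1 : IsClosed {T : Op p I | IsCompactOperator (chi p (ι ⁻¹' W) * T)} :=
    isClosed_setOfPred_isCompactOperator.preimage
      (f := fun T : Op p I => chi p (ι ⁻¹' W) * T) (by fun_prop)
  have h2 : (roeAlg p ι : Set (Op p I)) ⊆
      {T : Op p I | IsCompactOperator (chi p (ι ⁻¹' W) * T)} := by
    intro T hT
    have e : ι ⁻¹' W = ι ⁻¹' W ∩ ι ⁻¹' K := (Set.inter_eq_left.2 (Set.preimage_mono hW)).symm
    rw [Set.mem_setOf_eq, e, ← chi_mul_chi, mul_assoc]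
    exact compact_mul_left (hT.1 K hK).1 _
  exact closure_minimal h2 h1 hT

end Pool.Agent.Work.MP_9ec65e_al
end
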