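import Mathlib

/-! Topological `K_1` of a closed subalgebra `A` of a unital Banach algebra `B`. -/

namespace Pool.Agent.Work.MP_9ec65e_al.St

variable {B B' : Type} [NormedRing B] [NormedRing B']

/-- `GL_n(A)` in the coordinate `x ↦ 1 + x`: the matrices `x` over `A` such that `1 + x` has an
inverse `1 + y` with `y` a matrix over `A`. -/
def GLn (A : Set B) (n : ℕ) : Set (Matrix (Fin n) (Fin n) B) :=
  {x | (∀ i j, x i j ∈ A) ∧ ∃ y : Matrix (Fin n) (Fin n) B, (∀ i j, y i j ∈ A) ∧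
    (1 + x) * (1 + y) = 1 ∧ (1 + y) * (1 + x) = 1}

/-- The stabilisation `1 + x ↦ (1 + x) ⊕ 1`, that is `x ↦ x ⊕ 0`, from size `n` to size `N`. -/
def pad {n : ℕ} (N : ℕ) (x : Matrix (Fin n) (Fin n) B) : Matrix (Fin N) (Fin N) B :=
  Matrix.of fun i j => if h : i.1 < n ∧ j.1 < n then x ⟨i, h.1⟩ ⟨j, h.2⟩ else 0

/-- Two invertibles are equivalent when their stabilisations are joined by a continuous path in
some `GL_N(A)`. -/
def K1Rel (A : Set B) (a b : Σ n, GLn A n) : Prop :=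
  ∃ N, a.1 ≤ N ∧ b.1 ≤ N ∧ JoinedIn (GLn A N) (pad N a.2.1) (pad N b.2.1)

/-- `K_1(A) = lim_n GL_n(A) / GL_n(A)_0`. -/
def K1 (A : Set B) : Type := Quot (K1Rel A)

/-- `φ` is a continuous (non-unital) ring homomorphism that maps `A` into `A'`. -/
def IsHom (φ : B → B') (A : Set B) (A' : Set B') : Prop :=
  Continuous φ ∧ (∀ x y, φ (x + y) = φ x + φ y) ∧ (∀ x y, φ (x * y) = φ x * φ y) ∧
    ∀ x ∈ A, φ x ∈ A'

variable {φ : B → B'} {A : Set B} {A' : Set B'}

theorem IsHom.map_zero (h : IsHom φ A A') : φ 0 = 0 := by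
  simpa using h.2.1 0 0

theorem one_add_mul_iff {R : Type} [Ring R] (x y : R) :
    (1 + x) * (1 + y) = 1 ↔ y + x + x * y = 0 := by
  rw [show (1 + x) * (1 + y) = 1 + (y + x + x * y) by noncomm_ring, add_eq_left]

theorem IsHom.map_mem (h : IsHom φ A A') {n : ℕ} {x : Matrix (Fin n) (Fin n) B}
    (hx : x ∈ GLn A n) : x.map φ ∈ GLn A' n := by
  obtain ⟨hx, y, hy, h1, h2⟩ := hx
  let ψ : B →ₙ+* B' := { toFun := φ, map_zero' := h.map_zero, map_add' := h.2.1, map_mul' := h.2.2.1 }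
  have e : ∀ z, φ z = ψ z := fun _ => rfl
  rw [one_add_mul_iff] at h1 h2
  refine ⟨fun i j => h.2.2.2 _ (hx i j), y.map φ, fun i j => h.2.2.2 _ (hy i j), ?_, ?_⟩
  · rw [one_add_mul_iff]
    ext i j
    simpa [Matrix.mul_apply, map_sum, e] using congrArg (fun z => ψ (z i j)) h1
  · rw [one_add_mul_iff]
    ext i j
    simpa [Matrix.mul_apply, map_sum, e] using congrArg (fun z => ψ (z i j)) h2

theorem IsHom.map_rel (h : IsHom φ A A') (a b : Σ n, GLn A n) (hab : K1Rel A a b) :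
    K1Rel A' ⟨a.1, a.2.1.map φ, h.map_mem a.2.2⟩ ⟨b.1, b.2.1.map φ, h.map_mem b.2.2⟩ := by
  obtain ⟨N, ha, hb, hj⟩ := hab
  have e : ∀ {n : ℕ} (x : Matrix (Fin n) (Fin n) B), pad N (x.map φ) = (pad N x).map φ := by
    intro n x
    ext i j
    simp only [pad, Matrix.of_apply, Matrix.map_apply]
    split_ifs <;> simp [h.map_zero]
  refine ⟨N, ha, hb, ?_⟩
  simp only [e]
  refine (hj.map (f := fun x : Matrix (Fin N) (Fin N) B => x.map φ)
    (continuous_id.matrix_map h.1)).mono ?_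
  rintro _ ⟨x, hx, rfl⟩
  exact h.map_mem hx

/-- The map on `K_1` induced by a continuous homomorphism, applied entrywise to matrices. -/
def K1.map (φ : B → B') (h : IsHom φ A A') : K1 A → K1 A' :=
  Quot.map (fun a => ⟨a.1, a.2.1.map φ, h.map_mem a.2.2⟩) h.map_rel

end Pool.Agent.Work.MP_9ec65e_al.St
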