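import Pool.Agent.Work.MP_9ec65e_al.RoeDefs

/-! The `L^p` Roe algebra and the `L^p` localization algebra.  The index set `I` is placed in the
space `Y` by a map `ι : I → Y`; functions on `Y` act on `ℓ^p(I)` after composing with `ι`. -/

set_option backward.isDefEq.respectTransparency false

namespace Pool.Agent.Work.MP_9ec65e_al.St

open scoped NNReal ENNReal Topology BoundedContinuousFunction
open Filter

/-- The complex space `ℓ^p(I)`. -/
def Ell (p : ℝ≥0) (I : Type) : Type := lp (fun _ : I => ℂ) (p : ℝ≥0∞)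

variable {p : ℝ≥0} [Fact (1 ≤ (p : ℝ≥0∞))] {I I' Y : Type} [PseudoEMetricSpace Y]

noncomputable instance instNormedAddCommGroupEll : NormedAddCommGroup (Ell p I) :=
  lp.normedAddCommGroup

noncomputable instance instNormedSpaceEll : NormedSpace ℂ (Ell p I) := lp.instNormedSpace

/-- The coordinates of a vector of `ℓ^p(I)`. -/
def Ell.val (f : Ell p I) : I → ℂ := Subtype.val f

/-- The vector of `ℓ^p(I)` with the given `p`-summable coordinates. -/
def Ell.mk (g : I → ℂ) (h : Memℓp g (p : ℝ≥0∞)) : Ell p I := Subtype.mk g h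

theorem mem_chi (S : Set I) (f : Ell p I) : Memℓp (S.indicator f.val) (p : ℝ≥0∞) :=
  (MP_9ec65e_al.chi p S f).2

theorem mem_ext (J : I ↪ I') (f : Ell p I) : Memℓp (Function.extend J f.val 0) (p : ℝ≥0∞) :=
  (MP_9ec65e_al.ext p J f).2

theorem mem_res (J : I ↪ I') (f : Ell p I') : Memℓp (f.val ∘ J) (p : ℝ≥0∞) :=
  (MP_9ec65e_al.res p J f).2

/-- Multiplication by the indicator function of `S ⊆ I`. -/
noncomputable def chi (S : Set I) (f : Ell p I) : Ell p I := Ell.mk (S.indicator f.val) (mem_chi S f)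

/-- The isometry `V : ℓ^p(I) → ℓ^p(I')` extending by zero along an injection `J : I → I'`. -/
noncomputable def ext (J : I ↪ I') (f : Ell p I) : Ell p I' :=
  Ell.mk (Function.extend J f.val 0) (mem_ext J f)

/-- The contraction `V† : ℓ^p(I') → ℓ^p(I)`, `f ↦ f ∘ J`, a left inverse of `V`. -/
noncomputable def res (J : I ↪ I') (f : Ell p I') : Ell p I := Ell.mk (f.val ∘ J) (mem_res J f)

variable (p I) in
/-- The bounded operators on `ℓ^p(I)`. -/
def Op : Type := Ell p I →L[ℂ] Ell p I

/-- Composition and the operator norm make `Op p I` a unital Banach algebra. -/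
noncomputable instance instNormedRingOp : NormedRing (Op p I) := ContinuousLinearMap.toNormedRing

/-- An operator as a map `ℓ^p(I) → ℓ^p(I)`. -/
noncomputable def Op.app (T : Op p I) : Ell p I → Ell p I := DFunLike.coe (F := Ell p I →L[ℂ] Ell p I) T

theorem exists_ad (J : I ↪ I') (T : Op p I) : ∃ T' : Op p I', T'.app = ext J ∘ T.app ∘ res J :=
  ⟨MP_9ec65e_al.ad p J T, rfl⟩

/-- The operator `V T V†` on `ℓ^p(I')`. -/
noncomputable def ad (J : I ↪ I') (T : Op p I) : Op p I' := (exists_ad J T).choose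

theorem ad_eq (J : I ↪ I') (T : Op p I) : ad J T = MP_9ec65e_al.ad p J T :=
  DFunLike.coe_injective (F := Ell p I' →L[ℂ] Ell p I') (exists_ad J T).choose_spec

theorem lipschitz_ad (J : I ↪ I') : LipschitzWith 1 (ad J : Op p I → Op p I') := by
  rw [funext (ad_eq J)]
  exact MP_9ec65e_al.lipschitz_ad J

/-- The support of `T`: the pairs `(x, y)` with `χ_V T χ_U ≠ 0` for all open `U ∋ x`, `V ∋ y`. -/
def supp (ι : I → Y) (T : Op p I) : Set (Y × Y) :=
  {z | ∀ U V : Set Y, IsOpen U → IsOpen V → z.1 ∈ U → z.2 ∈ V →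
    chi (ι ⁻¹' V) ∘ T.app ∘ chi (ι ⁻¹' U) ≠ 0}

/-- The propagation of `T`, a number in `[0, ∞]`. -/
noncomputable def prop (ι : I → Y) (T : Op p I) : ℝ≥0∞ :=
  ⨆ z ∈ supp ι T, edist z.1 z.2

/-- `T` is locally compact: `χ_K T` and `T χ_K` are compact for every compact `K`. -/
def LocCompact (ι : I → Y) (T : Op p I) : Prop :=
  ∀ K : Set Y, IsCompact K →
    IsCompactOperator (chi (ι ⁻¹' K) ∘ T.app) ∧ IsCompactOperator (T.app ∘ chi (ι ⁻¹' K))

variable (p)

/-- The `L^p` Roe algebra `B^p`: the norm closure of the locally compact operators of finite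
propagation. -/
def Roe (ι : I → Y) : Set (Op p I) := closure {T | LocCompact ι T ∧ prop ι T < ∞}

/-- Bounded continuous maps `[0, ∞) → B`. -/
def Fn (B : Type) [NormedRing B] : Type := ℝ≥0 →ᵇ B

/-- Pointwise operations and the supremum norm make `Fn B` a unital normed ring. -/
noncomputable instance instNormedRingFn {B : Type} [NormedRing B] : NormedRing (Fn B) :=
  BoundedContinuousFunction.instNormedRing

/-- An element of `Fn B` as a map. -/
def Fn.app {B : Type} [NormedRing B] (f : Fn B) : ℝ≥0 → B := DFunLike.coe (F := ℝ≥0 →ᵇ B) f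

/-- Composition of `f : [0, ∞) → B` with a Lipschitz map `G : B → B'`. -/
noncomputable def Fn.comp {B B' : Type} [NormedRing B] [NormedRing B'] (G : B → B')
    (h : LipschitzWith 1 G) (f : Fn B) : Fn B' := BoundedContinuousFunction.comp G h f

/-- The `L^p` localization algebra `B^p_L`: the closure in the supremum norm of the bounded,
uniformly norm-continuous `f : [0, ∞) → B^p` with `sup_t prop (f t) < ∞` and `prop (f t) → 0`. -/
def Loc (ι : I → Y) : Set (Fn (Op p I)) :=
  closure {f | (∀ t, f.app t ∈ Roe p ι) ∧ UniformContinuous f.app ∧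
    ⨆ t, prop ι (f.app t) < ∞ ∧ Tendsto (fun t => prop ι (f.app t)) atTop (𝓝 0)}

end Pool.Agent.Work.MP_9ec65e_al.St
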