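import Pool.Agent.Work.MP_9ec65e_al.LimDefs
import Pool.Agent.Work.MP_9ec65e_al.StK
import Pool.Agent.Work.MP_9ec65e_al.StOp
import Mathlib
import Pool.Agent.Work.MP_9ec65e_al.RoeDefs

-- merged part: Pool.Agent.Work.MP_9ec65e_al.StBridge
section
-- merged part: Pool.Agent.Work.MP_9ec65e_al.KDefs
section
/-! Topological `K_1` of a non-unital topological ring, and sequential direct limits. -/

namespace Pool.Agent.Work.MP_9ec65e_al

section K1

variable (A B : Type) [NonUnitalRing A] [TopologicalSpace A] [NonUnitalRing B] [TopologicalSpace B]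

/-- `GL_n(A)`, in the coordinate `x ↦ 1 + x`: the matrices `x` over `A` such that `1 + x` has an
inverse of the form `1 + y` with `y` a matrix over `A`. -/
def GLset (n : ℕ) : Set (Matrix (Fin n) (Fin n) A) := {x | IsQuasiregular x}

variable {A} in
/-- The stabilisation `1 + x ↦ (1 + x) ⊕ 1`, that is `x ↦ x ⊕ 0`, from size `n` to size `N`. -/
def pad {n : ℕ} (N : ℕ) (x : Matrix (Fin n) (Fin n) A) : Matrix (Fin N) (Fin N) A :=
  Matrix.of fun i j => if h : i.1 < n ∧ j.1 < n then x ⟨i, h.1⟩ ⟨j, h.2⟩ else 0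

/-- Two invertibles are equivalent when their stabilisations are joined by a continuous path in
some `GL_N(A)`. -/
def K1Rel (a b : Σ n, GLset A n) : Prop :=
  ∃ N, a.1 ≤ N ∧ b.1 ≤ N ∧ JoinedIn (GLset A N) (pad N a.2.1) (pad N b.2.1)

/-- `K_1(A) = lim_n GL_n(A) / GL_n(A)_0`. -/
def K1 : Type := Quot (K1Rel A)

variable {A B}

omit [TopologicalSpace A] [TopologicalSpace B] in
theorem map_mem_GLset (φ : A →ₙ+* B) {n : ℕ} {x : Matrix (Fin n) (Fin n) A} (hx : x ∈ GLset A n) :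
    x.map φ ∈ GLset B n := by
  obtain ⟨y, h1, h2⟩ := isQuasiregular_iff.1 hx
  refine isQuasiregular_iff.2 ⟨y.map φ, ?_, ?_⟩
  · ext i j
    simpa [Matrix.mul_apply, map_sum] using congrArg (fun z => φ (z i j)) h1
  · ext i j
    simpa [Matrix.mul_apply, map_sum] using congrArg (fun z => φ (z i j)) h2

omit [TopologicalSpace A] [TopologicalSpace B] in
theorem pad_map (φ : A →ₙ+* B) {n : ℕ} (N : ℕ) (x : Matrix (Fin n) (Fin n) A) :
    pad N (x.map φ) = (pad N x).map φ := by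
  ext i j
  simp only [pad, Matrix.of_apply, Matrix.map_apply]
  split_ifs <;> simp

theorem K1Rel.map (φ : A →ₙ+* B) (hφ : Continuous φ) (a b : Σ n, GLset A n) (h : K1Rel A a b) :
    K1Rel B ⟨a.1, a.2.1.map φ, map_mem_GLset φ a.2.2⟩ ⟨b.1, b.2.1.map φ, map_mem_GLset φ b.2.2⟩ := by
  obtain ⟨N, ha, hb, h⟩ := h
  refine ⟨N, ha, hb, ?_⟩
  simp only [pad_map]
  refine (h.map (f := fun x : Matrix (Fin N) (Fin N) A => x.map φ)
    (continuous_id.matrix_map hφ)).mono ?_
  rintro _ ⟨x, hx, rfl⟩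
  exact map_mem_GLset φ hx

/-- The map on `K_1` induced by a continuous homomorphism, applied entrywise to matrices. -/
def K1.map (φ : A →ₙ+* B) (hφ : Continuous φ) : K1 A → K1 B :=
  Quot.map (fun a => ⟨a.1, a.2.1.map φ, map_mem_GLset φ a.2.2⟩) (K1Rel.map φ hφ)

end K1

end Pool.Agent.Work.MP_9ec65e_al
end

-- merged part: Pool.Agent.Work.MP_9ec65e_al.KLem
section
/-! Basic facts on `K1` and `SeqLim`. -/

set_option linter.unusedSectionVars false

namespace Pool.Agent.Work.MP_9ec65e_al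

section K1

variable {A B : Type} [NonUnitalRing A] [TopologicalSpace A] [NonUnitalRing B] [TopologicalSpace B]

theorem pad_add {n : ℕ} (N : ℕ) (x y : Matrix (Fin n) (Fin n) A) :
    pad N (x + y) = pad N x + pad N y := by
  ext i j
  simp only [pad, Matrix.of_apply, Matrix.add_apply]
  split_ifs <;> simp

theorem pad_zero {n : ℕ} (N : ℕ) : pad N (0 : Matrix (Fin n) (Fin n) A) = 0 := by
  ext i j
  simp [pad]

theorem pad_mul {n N : ℕ} (h : n ≤ N) (x y : Matrix (Fin n) (Fin n) A) :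
    pad N (x * y) = pad N x * pad N y := by
  ext i j
  rw [Matrix.mul_apply]
  symm
  by_cases hij : i.1 < n ∧ j.1 < n
  · simp only [pad, Matrix.of_apply, dif_pos hij, Matrix.mul_apply]
    symm
    refine Fintype.sum_of_injective (Fin.castLE h) (Fin.castLE_injective h) _ _ ?_ ?_
    · intro k hk
      have : ¬ k.1 < n := fun hh => hk ⟨⟨k, hh⟩, rfl⟩
      simp [this]
    · intro k
      simp [hij.1, hij.2]
  · simp only [pad, Matrix.of_apply, dif_neg hij]
    refine Finset.sum_eq_zero fun k _ => ?_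
    by_cases hi : i.1 < n
    · have hj : ¬ j.1 < n := fun hh => hij ⟨hi, hh⟩
      simp [hj]
    · simp [hi]

theorem pad_mem {n N : ℕ} (h : n ≤ N) {x : Matrix (Fin n) (Fin n) A} (hx : x ∈ GLset A n) :
    pad N x ∈ GLset A N := by
  obtain ⟨y, h1, h2⟩ := isQuasiregular_iff.1 hx
  refine isQuasiregular_iff.2 ⟨pad N y, ?_, ?_⟩
  · rw [← pad_mul h, ← pad_add, ← pad_add, h1, pad_zero]
  · rw [← pad_mul h, ← pad_add, ← pad_add, h2, pad_zero]

theorem pad_pad {n N : ℕ} (h : n ≤ N) (M : ℕ) (x : Matrix (Fin n) (Fin n) A) :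
    pad M (pad N x) = pad M x := by
  ext i j
  simp only [pad, Matrix.of_apply]
  by_cases hij : i.1 < n ∧ j.1 < n
  · rw [dif_pos hij, dif_pos ⟨lt_of_lt_of_le hij.1 h, lt_of_lt_of_le hij.2 h⟩, dif_pos hij]
  · rw [dif_neg hij]
    split_ifs <;> rfl

theorem continuous_pad {n : ℕ} (N : ℕ) :
    Continuous (pad N : Matrix (Fin n) (Fin n) A → Matrix (Fin N) (Fin N) A) := by
  refine continuous_matrix fun i j => ?_
  simp only [pad, Matrix.of_apply]
  split_ifs
  · exact continuous_apply_apply _ _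
  · exact continuous_const

theorem joined_pad {n N : ℕ} (h : n ≤ N) {x y : Matrix (Fin n) (Fin n) A}
    (hxy : JoinedIn (GLset A n) x y) : JoinedIn (GLset A N) (pad N x) (pad N y) := by
  refine (hxy.map (continuous_pad N)).mono ?_
  rintro _ ⟨z, hz, rfl⟩
  exact pad_mem h hz

theorem K1Rel_equivalence : Equivalence (K1Rel A) where
  refl a := ⟨a.1, le_rfl, le_rfl, JoinedIn.refl (pad_mem le_rfl a.2.2)⟩
  symm := fun ⟨N, ha, hb, h⟩ => ⟨N, hb, ha, h.symm⟩
  trans := fun {a b c} ⟨N, ha, hb, h⟩ ⟨M, hb', hc, h'⟩ => by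
    refine ⟨max N M, ha.trans (le_max_left _ _), hc.trans (le_max_right _ _), ?_⟩
    have h1 := joined_pad (le_max_left N M) h
    have h2 := joined_pad (le_max_right N M) h'
    rw [pad_pad ha, pad_pad hb] at h1
    rw [pad_pad hb', pad_pad hc] at h2
    exact h1.trans h2

theorem qr_zero {R : Type} [NonUnitalRing R] : IsQuasiregular (0 : R) :=
  isQuasiregular_iff.2 ⟨0, by simp, by simp⟩

/-- The one by one matrix. -/
def sc (x : A) : Matrix (Fin 1) (Fin 1) A := Matrix.of fun _ _ => x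

theorem sc_mem {x : A} (hx : IsQuasiregular x) : sc x ∈ GLset A 1 := by
  obtain ⟨y, h1, h2⟩ := isQuasiregular_iff.1 hx
  refine isQuasiregular_iff.2 ⟨sc y, ?_, ?_⟩
  · ext i j
    simpa [sc, Matrix.mul_apply] using h1
  · ext i j
    simpa [sc, Matrix.mul_apply] using h2

/-- The class of `1 + x`. -/
def cls (x : A) (hx : IsQuasiregular x) : K1 A := Quot.mk _ ⟨1, sc x, sc_mem hx⟩

theorem map_cls (φ : A →ₙ+* B) (hφ : Continuous φ) (x : A) (hx : IsQuasiregular x) :
    K1.map φ hφ (cls x hx) = cls (φ x) (hx.map φ) := rfl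

theorem cls_congr {x y : A} (h : x = y) (hx : IsQuasiregular x) (hy : IsQuasiregular y) :
    cls x hx = cls y hy := by subst h; rfl

theorem map_cls_eq (φ : A →ₙ+* B) (hφ : Continuous φ) {x : A} (hx : IsQuasiregular x) {y : B}
    (hy : IsQuasiregular y) (h : φ x = y) : K1.map φ hφ (cls x hx) = cls y hy := by
  subst h; rfl

theorem cls_eq_of_joined {x y : A} (h : JoinedIn {z : A | IsQuasiregular z} x y) :
    cls x h.source_mem = cls y h.target_mem := by
  refine Quot.sound ⟨1, le_rfl, le_rfl, joined_pad le_rfl ?_⟩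
  refine (h.map (f := sc) (continuous_matrix fun _ _ => continuous_id)).mono ?_
  rintro _ ⟨z, hz, rfl⟩
  exact sc_mem hz

theorem joined_of_cls_eq {x : A} {hx : IsQuasiregular x} (h : cls x hx = cls 0 qr_zero) :
    ∃ N, 1 ≤ N ∧ JoinedIn (GLset A N) (pad N (sc x)) 0 := by
  obtain ⟨N, h1, -, h2⟩ := (K1Rel_equivalence.eqvGen_iff).1 (Quot.eqvGen_exact h)
  refine ⟨N, h1, ?_⟩
  have : pad N (sc (0 : A)) = 0 := pad_zero N
  rwa [← this]

end K1

theorem seqLim_ne {F : ℕ → Type} (f : ∀ k, F k → F (k + 1)) (z : ∀ k, F k)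
    (hz : ∀ k, f k (z k) = z (k + 1)) (P : ∀ k, F k → Prop)
    (hP : ∀ k x, P k x → P (k + 1) (f k x)) (hPz : ∀ k, ¬ P k (z k)) {k : ℕ} {x : F k}
    (hx : P k x) : (Quot.mk _ ⟨k, x⟩ : SeqLim f) ≠ Quot.mk _ ⟨k, z k⟩ := by
  let Good : (Σ k, F k) → Prop := fun a => ∃ P : ∀ k, F k → Prop,
    (∀ k x, P k x → P (k + 1) (f k x)) ∧ (∀ k, ¬ P k (z k)) ∧ P a.1 a.2
  have hG : ∀ a b : Σ k, F k, b = ⟨a.1 + 1, f a.1 a.2⟩ → Good a = Good b := by
    rintro ⟨k, x⟩ _ rfl
    refine propext ⟨fun ⟨P, h1, h2, h3⟩ => ⟨P, h1, h2, h1 _ _ h3⟩, fun ⟨P, h1, h2, h3⟩ => ?_⟩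
    refine ⟨fun k x => P (k + 1) (f k x), fun k x h => h1 _ _ h, fun k h => ?_, h3⟩
    exact h2 (k + 1) (hz k ▸ h)
  intro h
  have h' := congrArg (Quot.lift Good hG) h
  have h1 : Good ⟨k, x⟩ := ⟨P, hP, hPz, hx⟩
  have h2 : Good ⟨k, z k⟩ := (show Good ⟨k, x⟩ = Good ⟨k, z k⟩ from h') ▸ h1
  obtain ⟨P', -, h3, h4⟩ := h2
  exact h3 k h4

end Pool.Agent.Work.MP_9ec65e_al
end

-- merged part: Pool.Agent.Work.MP_9ec65e_al.StBridge
section
/-! Comparison of the two presentations of `K_1`, of the Roe algebra and of the localization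
algebra. -/

set_option backward.isDefEq.respectTransparency false
set_option linter.unusedSectionVars false

namespace Pool.Agent.Work.MP_9ec65e_al.St

open scoped NNReal ENNReal Topology
open Filter Topology

section K

variable {A B : Type} [NonUnitalRing A] [TopologicalSpace A] [NormedRing B] {j : A →ₙ+* B}
  {S : Set B}

theorem image_GL (hj : Function.Injective j) (hS : Set.range j = S) (n : ℕ) :
    (fun x : Matrix (Fin n) (Fin n) A => x.map j) '' GLset A n = GLn S n := by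
  have key : ∀ x y : Matrix (Fin n) (Fin n) A,
      (1 + x.map j) * (1 + y.map j) = 1 ↔ y + x + x * y = 0 := by
    intro x y
    rw [one_add_mul_iff]
    constructor
    · intro h
      ext a b
      apply hj
      simpa [Matrix.mul_apply, map_sum] using congrFun (congrFun h a) b
    · intro h
      ext a b
      simpa [Matrix.mul_apply, map_sum] using congrArg (fun z => j (z a b)) h
  subst hS
  ext x
  constructor
  · rintro ⟨x, hx, rfl⟩
    obtain ⟨y, h1, h2⟩ := isQuasiregular_iff.1 hx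
    exact ⟨fun a b => ⟨_, rfl⟩, y.map j, fun a b => ⟨_, rfl⟩, (key _ _).2 h1, (key _ _).2 h2⟩
  · rintro ⟨hx, y, hy, h1, h2⟩
    choose x' hx' using hx
    choose y' hy' using hy
    obtain rfl : x = (Matrix.of x').map j := by ext a b; exact (hx' a b).symm
    obtain rfl : y = (Matrix.of y').map j := by ext a b; exact (hy' a b).symm
    exact ⟨_, isQuasiregular_iff.2 ⟨_, (key _ _).1 h1, (key _ _).1 h2⟩, rfl⟩

/-- The comparison map on representatives. -/
def sigMap (hj : Function.Injective j) (hS : Set.range j = S) (a : Σ n, GLset A n) :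
    Σ n, GLn S n :=
  ⟨a.1, a.2.1.map j, image_GL hj hS a.1 ▸ ⟨_, a.2.2, rfl⟩⟩

theorem sigMap_bijective (hj : Function.Injective j) (hS : Set.range j = S) :
    Function.Bijective (sigMap hj hS) := by
  constructor
  · rintro ⟨n, x, hx⟩ ⟨m, y, hy⟩ h
    obtain rfl : n = m := congrArg Sigma.fst h
    have h2 : x.map j = y.map j := congrArg Subtype.val (eq_of_heq (Sigma.mk.inj h).2)
    obtain rfl : x = y := Matrix.map_injective hj h2
    rfl
  · rintro ⟨n, x, hx⟩
    obtain ⟨y, hy, rfl⟩ := (image_GL hj hS n).symm ▸ hx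
    exact ⟨⟨n, y, hy⟩, rfl⟩

theorem rel_iff (hj : IsEmbedding j) (hS : Set.range j = S) (a b : Σ n, GLset A n) :
    MP_9ec65e_al.K1Rel A a b ↔ K1Rel S (sigMap hj.injective hS a) (sigMap hj.injective hS b) := by
  refine exists_congr fun N => and_congr_right fun ha => and_congr_right fun hb => ?_
  have e : ∀ {n : ℕ} (x : Matrix (Fin n) (Fin n) A),
      pad N (x.map j) = (MP_9ec65e_al.pad N x).map j := by
    intro n x
    ext a b
    simp only [pad, MP_9ec65e_al.pad, Matrix.of_apply, Matrix.map_apply]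
    split_ifs <;> simp
  change _ ↔ JoinedIn (GLn S N) (pad N (a.2.1.map j)) (pad N (b.2.1.map j))
  rw [e, e, ← image_GL hj.injective hS]
  exact (hj.isInducing.matrix_map.joinedIn_image (pad_mem ha a.2.2) (pad_mem hb b.2.2)).symm

/-- The two presentations of `K_1` agree. -/
noncomputable def kEquiv (hj : IsEmbedding j) (hS : Set.range j = S) :
    MP_9ec65e_al.K1 A ≃ K1 S :=
  Quot.congr (Equiv.ofBijective _ (sigMap_bijective hj.injective hS)) (rel_iff hj hS)

theorem kEquiv_map {A' B' : Type} [NonUnitalRing A'] [TopologicalSpace A'] [NormedRing B']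
    {j' : A' →ₙ+* B'} {S' : Set B'} (hj : IsEmbedding j) (hS : Set.range j = S)
    (hj' : IsEmbedding j') (hS' : Set.range j' = S') (ψ : A →ₙ+* A') (hψ : Continuous ψ)
    (φ : B → B') (hφ : IsHom φ S S') (h : ∀ a, j' (ψ a) = φ (j a)) (x : MP_9ec65e_al.K1 A) :
    kEquiv hj' hS' (MP_9ec65e_al.K1.map ψ hψ x) = K1.map φ hφ (kEquiv hj hS x) := by
  obtain ⟨n, x, hx⟩ := x
  refine congrArg (fun z => (Quot.mk _ ⟨n, z⟩ : K1 S')) (Subtype.ext ?_)
  ext a b
  exact h _

end K

theorem seqLim_injective {F G : ℕ → Type} {f : ∀ k, F k → F (k + 1)} {g : ∀ k, G k → G (k + 1)}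
    (e : ∀ k, F k ≃ G k) (h : ∀ k x, e (k + 1) (f k x) = g k (e k x)) :
    Function.Injective (SeqLim.map (fun k => e k) h) := by
  refine Function.LeftInverse.injective (g := SeqLim.map (f := g) (g := f) (fun k => (e k).symm)
    fun k x => ?_) ?_
  · rw [Equiv.symm_apply_eq, h, Equiv.apply_symm_apply]
  · rintro ⟨k, x⟩
    exact congrArg (fun z => (Quot.mk _ ⟨k, z⟩ : SeqLim f)) ((e k).symm_apply_apply x)

section Op

variable {p : ℝ≥0} [Fact (1 ≤ (p : ℝ≥0∞))] {I I' Y Y' : Type} [PseudoEMetricSpace Y]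
  [PseudoEMetricSpace Y']

theorem supp_eq (ι : I → Y) (T : Op p I) : supp ι T = MP_9ec65e_al.supp ι T := by
  ext z
  refine forall_congr' fun U => forall_congr' fun V => forall_congr' fun _ =>
    forall_congr' fun _ => forall_congr' fun _ => forall_congr' fun _ => not_congr ?_
  exact ⟨fun h => ContinuousLinearMap.ext fun f => congrFun h f,
    fun h => funext fun f => DFunLike.congr_fun h f⟩

theorem prop_eq (ι : I → Y) (T : Op p I) : prop ι T = MP_9ec65e_al.prop ι T := by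
  rw [prop, supp_eq]
  rfl

theorem locCompact_iff (ι : I → Y) (T : Op p I) : LocCompact ι T ↔ MP_9ec65e_al.LocCompact ι T :=
  Iff.rfl

theorem roe_eq (ι : I → Y) : Roe p ι = (MP_9ec65e_al.Roe p ι : Set (MP_9ec65e_al.Op p I)) := by
  simp only [Roe, prop_eq, locCompact_iff]
  rfl

theorem loc_eq (ι : I → Y) :
    Loc p ι = (MP_9ec65e_al.Loc p ι : Set (MP_9ec65e_al.Fn (MP_9ec65e_al.Op p I))) := by
  simp only [Loc, prop_eq, roe_eq]
  rfl

variable (p)

/-- The inclusion of the Roe algebra. -/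
noncomputable def jRoe (ι : I → Y) : MP_9ec65e_al.Roe p ι →ₙ+* Op p I where
  toFun T := T.1
  map_zero' := rfl
  map_add' _ _ := rfl
  map_mul' _ _ := rfl

/-- The inclusion of the localization algebra. -/
noncomputable def jLoc (ι : I → Y) : MP_9ec65e_al.Loc p ι →ₙ+* Fn (Op p I) where
  toFun T := T.1
  map_zero' := rfl
  map_add' _ _ := rfl
  map_mul' _ _ := rfl

theorem emb_jRoe (ι : I → Y) : IsEmbedding (jRoe p ι) := IsEmbedding.subtypeVal

theorem emb_jLoc (ι : I → Y) : IsEmbedding (jLoc p ι) := IsEmbedding.subtypeVal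

theorem range_jRoe (ι : I → Y) : Set.range (jRoe p ι) = Roe p ι :=
  Subtype.range_val.trans (roe_eq ι).symm

theorem range_jLoc (ι : I → Y) : Set.range (jLoc p ι) = Loc p ι :=
  Subtype.range_val.trans (loc_eq ι).symm

variable {ι : I → Y} {ι' : I' → Y'}

theorem isHom_roe (c : Cov ι ι') : IsHom (ad c.J) (Roe p ι) (Roe p ι') := by
  refine ⟨(lipschitz_ad c.J).continuous, fun x y => ?_, fun x y => ?_, fun x hx => ?_⟩
  · rw [ad_eq, ad_eq, ad_eq]
    exact (MP_9ec65e_al.ad p c.J).map_add' x y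
  · rw [ad_eq, ad_eq, ad_eq]
    exact (MP_9ec65e_al.ad p c.J).map_mul' x y
  · rw [roe_eq] at hx ⊢
    rw [ad_eq]
    exact c.ad_mem_Roe hx

theorem comp_eq (J : I ↪ I') (f : Fn (Op p I)) : Fn.comp (ad J) (lipschitz_ad J) f =
    BoundedContinuousFunction.comp (MP_9ec65e_al.ad p J) (MP_9ec65e_al.lipschitz_ad J) f :=
  BoundedContinuousFunction.ext fun _ => ad_eq _ _

theorem isHom_loc (c : Cov ι ι') :
    IsHom (Fn.comp (ad c.J) (lipschitz_ad c.J)) (Loc p ι) (Loc p ι') := by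
  refine ⟨BoundedContinuousFunction.continuous_comp (lipschitz_ad c.J),
    fun x y => BoundedContinuousFunction.ext fun _ => (isHom_roe p c).2.1 _ _,
    fun x y => BoundedContinuousFunction.ext fun _ => (isHom_roe p c).2.2.1 _ _, fun x hx => ?_⟩
  rw [loc_eq] at hx ⊢
  rw [comp_eq]
  exact c.ad_mem_Loc hx

theorem isHom_ev (ι : I → Y) :
    IsHom (fun f : Fn (Op p I) => f.app 0) (Loc p ι) (Roe p ι) := by
  refine ⟨continuous_eval_const (F := BoundedContinuousFunction ℝ≥0 (Op p I)) 0,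
    fun _ _ => rfl, fun _ _ => rfl, fun x hx => ?_⟩
  rw [loc_eq] at hx
  rw [roe_eq]
  exact MP_9ec65e_al.Loc.apply_mem hx 0

end Op

end Pool.Agent.Work.MP_9ec65e_al.St
end
end

-- merged part: Pool.Agent.Work.MP_9ec65e_al.Gap
section
/-! A spectral gap in `ℓ^2` and in `ℓ^4` for averages along the cone over the moment curve. -/

namespace Pool.Agent.Work.MP_9ec65e_al

open scoped BigOperators ComplexConjugate
open Finset

section Abstract

variable {G κ : Type} [AddCommGroup G] [Fintype G] [Fintype κ] [Nonempty κ]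

theorem parseval (c : AddChar G ℂ → ℂ) :
    𝔼 w, ‖∑ ψ, c ψ * ψ w‖ ^ 2 = ∑ ψ, ‖c ψ‖ ^ 2 := by
  classical
  apply Complex.ofReal_injective
  rw [Complex.ofReal_expect]
  push_cast
  simp only [← Complex.mul_conj', map_sum, sum_mul_sum, expect_sum_comm]
  refine sum_congr rfl fun ψ _ => ?_
  have h : ∀ φ : AddChar G ℂ, 𝔼 w, c ψ * ψ w * conj (c φ * φ w) =
      if ψ = φ then c ψ * conj (c φ) else 0 := fun φ => by
    have e : ∀ w, c ψ * ψ w * conj (c φ * φ w) = c ψ * conj (c φ) * (ψ - φ) w := fun w => by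
      rw [AddChar.sub_apply, AddChar.map_neg_eq_conj, map_mul]
      ring
    simp only [e]
    rw [← mul_expect, AddChar.expect_eq_ite]
    simp only [sub_eq_zero, mul_ite, mul_one, mul_zero]
  simp only [h]
  simp

/-- Average along `s` minus the global mean. -/
noncomputable def dev (s : κ → G) (f : G → ℂ) (w : G) : ℂ := 𝔼 k, f (w + s k) - 𝔼 v, f v

theorem gap_two (s : κ → G) {ε : ℝ} (hε : ∀ ψ : AddChar G ℂ, ψ ≠ 0 → ‖𝔼 k, ψ (s k)‖ ≤ ε)
    (f : G → ℂ) : 𝔼 w, ‖dev s f w‖ ^ 2 ≤ ε ^ 2 * 𝔼 w, ‖f w‖ ^ 2 := by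
  classical
  obtain ⟨c, hc⟩ : ∃ c : AddChar G ℂ → ℂ, ∀ w, f w = ∑ ψ, c ψ * ψ w := by
    refine ⟨(AddChar.complexBasis G).repr f, fun w => ?_⟩
    have := congrFun ((AddChar.complexBasis G).sum_repr f) w
    simpa [Finset.sum_apply] using this.symm
  have e : ∀ w, dev s f w = ∑ ψ, (if ψ = 0 then 0 else c ψ * 𝔼 k, ψ (s k)) * ψ w := fun w => by
    simp only [dev, hc, expect_sum_comm, ← sum_sub_distrib, ← mul_expect, AddChar.map_add_eq_mul,
      AddChar.expect_eq_ite]
    refine sum_congr rfl fun ψ _ => ?_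
    split_ifs with h
    · subst h
      simp [Fintype.expect_const]
    · ring
  simp only [e, hc, parseval, mul_sum]
  refine sum_le_sum fun ψ _ => ?_
  split_ifs with h
  · rw [norm_zero, zero_pow two_ne_zero]
    positivity
  · rw [norm_mul, mul_pow, mul_comm]
    gcongr
    exact hε ψ h

theorem sq_norm_expect_le {ι : Type} [Fintype ι] [Nonempty ι] (g : ι → ℂ) :
    ‖𝔼 k, g k‖ ^ 2 ≤ 𝔼 k, ‖g k‖ ^ 2 := by
  have h1 : ‖𝔼 k, g k‖ ≤ 𝔼 k, ‖g k‖ := RCLike.norm_expect_le (K := ℂ)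
  have h2 := expect_mul_sq_le_sq_mul_sq univ (fun k => ‖g k‖) (fun _ => (1 : ℝ))
  simp only [mul_one, one_pow, Fintype.expect_const] at h2
  exact (pow_le_pow_left₀ (norm_nonneg _) h1 2).trans h2

theorem norm_add_pow_four_le (a b : ℂ) : ‖a + b‖ ^ 4 ≤ 8 * ‖a‖ ^ 4 + 8 * ‖b‖ ^ 4 := by
  have h := pow_le_pow_left₀ (norm_nonneg _) (norm_add_le a b) 4
  have := add_pow_le (norm_nonneg a) (norm_nonneg b) 4
  norm_num at this
  linarith only [h, this]

theorem gap_four (s : κ → G) {ε : ℝ} (h0 : 0 < ε) (h1 : ε ≤ 1)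
    (hε : ∀ f : G → ℂ, 𝔼 w, ‖dev s f w‖ ^ 2 ≤ ε ^ 2 * 𝔼 w, ‖f w‖ ^ 2) (f : G → ℂ) :
    𝔼 w, ‖dev s f w‖ ^ 4 ≤ 352 * ε * 𝔼 w, ‖f w‖ ^ 4 := by
  classical
  set B := 𝔼 w, ‖f w‖ ^ 4 with hB
  have hB0 : 0 ≤ B := expect_nonneg fun _ _ => by positivity
  set b := Real.sqrt B
  have hb0 : 0 ≤ b := Real.sqrt_nonneg _
  have hbB : b ^ 2 = B := Real.sq_sqrt hB0
  set f₁ : G → ℂ := fun w => if ε * ‖f w‖ ^ 2 ≤ b then f w else 0
  set f₂ : G → ℂ := fun w => if ε * ‖f w‖ ^ 2 ≤ b then 0 else f w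
  have hdev : ∀ w, dev s f w = dev s f₁ w + (𝔼 k, f₂ (w + s k) + -𝔼 v, f₂ v) := fun w => by
    have e : ∀ v, f v = f₁ v + f₂ v := fun v => by
      simp only [f₁, f₂]
      split_ifs <;> simp
    simp only [dev]
    rw [expect_congr rfl fun k _ => e (w + s k), expect_congr rfl fun v _ => e v,
      expect_add_distrib, expect_add_distrib]
    ring
  have hE2 : 𝔼 w, ‖f w‖ ^ 2 ≤ b := by
    refine Real.le_sqrt_of_sq_le ?_
    have h2 := expect_mul_sq_le_sq_mul_sq univ (fun k => ‖f k‖ ^ 2) (fun _ => (1 : ℝ))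
    simpa only [mul_one, one_pow, Fintype.expect_const, ← pow_mul] using h2
  have hf₁ : ∀ w, ε * ‖f₁ w‖ ^ 2 ≤ b := fun w => by
    simp only [f₁]
    split_ifs with h
    · exact h
    · simpa using hb0
  have hf₁' : ∀ w, ‖f₁ w‖ ^ 2 ≤ ‖f w‖ ^ 2 := fun w => by
    simp only [f₁]
    split_ifs <;> simp
  have hf₂ : ∀ w, b * ‖f₂ w‖ ^ 2 ≤ ε * ‖f w‖ ^ 4 := fun w => by
    simp only [f₂]
    split_ifs with h
    · rw [norm_zero, zero_pow two_ne_zero, mul_zero]
      positivity
    · linarith only [h, sq_nonneg ‖f w‖, not_le.1 h, mul_nonneg_of_nonpos_of_nonpos (Mathlib.Tactic.Linarith.sub_nonpos_of_le (sq_nonneg ‖f w‖)) (le_of_lt (Mathlib.Tactic.Linarith.sub_neg_of_lt (lt_of_not_ge h)))]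
  have hf₂' : ∀ w, ‖f₂ w‖ ^ 4 ≤ ‖f w‖ ^ 4 := fun w => by
    simp only [f₂]
    split_ifs <;> simp
  have hmean : ∀ {ι : Type} [Fintype ι] [Nonempty ι] (u : ι → G), ε * ‖𝔼 k, f₁ (u k)‖ ^ 2 ≤ b :=
    fun u => by
      refine (mul_le_mul_of_nonneg_left (sq_norm_expect_le _) h0.le).trans ?_
      rw [mul_expect]
      exact expect_le univ_nonempty fun k _ => hf₁ _
  have hd₁ : ∀ w, ε * ‖dev s f₁ w‖ ^ 2 ≤ 4 * b := fun w => by
    have a1 := hmean (fun k => w + s k)
    have a2 := hmean (fun v : G => v)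
    have a3 : ‖dev s f₁ w‖ ≤ _ := norm_sub_le _ _
    have a4 := pow_le_pow_left₀ (norm_nonneg _) a3 2
    linarith only [a1, a2, h0, a4, sq_nonneg (‖𝔼 k, f₁ (w + s k)‖ - ‖𝔼 v, f₁ v‖), mul_nonneg_of_nonpos_of_nonpos (Mathlib.Tactic.Linarith.sub_nonpos_of_le (sq_nonneg (‖𝔼 k, f₁ (w + s k)‖ - ‖𝔼 v, f₁ v‖))) (le_of_lt (Mathlib.Tactic.Linarith.sub_neg_of_lt h0)), mul_nonneg_of_nonpos_of_nonpos (le_of_lt (Mathlib.Tactic.Linarith.sub_neg_of_lt h0)) (Mathlib.Tactic.Linarith.sub_nonpos_of_le a4)]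
  have p1 : 𝔼 w, ‖dev s f₁ w‖ ^ 4 ≤ 4 * ε * B := by
    have a1 : ε * 𝔼 w, ‖dev s f₁ w‖ ^ 4 ≤ 4 * b * 𝔼 w, ‖dev s f₁ w‖ ^ 2 := by
      rw [mul_expect, mul_expect]
      exact expect_le_expect fun w _ => by linarith only [hd₁, hd₁ w, sq_nonneg ‖dev s f₁ w‖, mul_nonneg_of_nonpos_of_nonpos (Mathlib.Tactic.Linarith.sub_nonpos_of_le (sq_nonneg ‖dev s f₁ w‖)) (Mathlib.Tactic.Linarith.sub_nonpos_of_le (hd₁ w))]
    have a2 := (hε f₁).trans (mul_le_mul_of_nonneg_left
      ((expect_le_expect fun w _ => hf₁' w).trans hE2) (sq_nonneg ε))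
    refine le_of_mul_le_mul_left ?_ h0
    linarith only [a1, a2, hb0, hbB, mul_le_mul_of_nonneg_left a2 hb0, Mathlib.Tactic.Linarith.mul_zero_eq (Mathlib.Tactic.Linarith.sub_nonpos_of_le (sq_nonneg ε)) (sub_eq_zero_of_eq hbB)]
  set m := 𝔼 w, ‖f₂ w‖ ^ 2 with hm
  have hm0 : 0 ≤ m := expect_nonneg fun _ _ => by positivity
  have hmb : m ≤ ε * b := by
    have a1 : b * m ≤ ε * B := by
      rw [hm, hB, mul_expect, mul_expect]
      exact expect_le_expect fun w _ => hf₂ w
    have a2 : m ≤ b := le_trans (expect_le_expect fun w _ => by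
      simp only [f₂]
      split_ifs <;> simp) hE2
    rcases hb0.eq_or_lt with h | h
    · rw [← h] at a2 ⊢
      simpa using a2
    · refine le_of_mul_le_mul_left ?_ h
      linarith only [a1, h0, hbB, Mathlib.Tactic.Linarith.mul_zero_eq (Mathlib.Tactic.Linarith.sub_neg_of_lt h0) (sub_eq_zero_of_eq hbB)]
  have hm2 : m ^ 2 ≤ ε ^ 2 * B := by
    rw [← hbB, ← mul_pow]
    exact pow_le_pow_left₀ hm0 hmb 2
  have p3 : ‖𝔼 v, f₂ v‖ ^ 4 ≤ ε ^ 2 * B := by
    have a1 := pow_le_pow_left₀ (sq_nonneg _) (sq_norm_expect_le f₂) 2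
    rw [← pow_mul] at a1
    exact a1.trans hm2
  have p2 : 𝔼 w, ‖𝔼 k, f₂ (w + s k)‖ ^ 4 ≤ 4 * ε ^ 2 * B := by
    set h : G → ℂ := fun w => ((‖f₂ w‖ ^ 2 : ℝ) : ℂ)
    have a1 : ∀ w, ‖𝔼 k, f₂ (w + s k)‖ ^ 4 ≤ 2 * ‖dev s h w‖ ^ 2 + 2 * m ^ 2 := fun w => by
      have b1 := sq_norm_expect_le fun k => f₂ (w + s k)
      have b2 : dev s h w = ((𝔼 k, ‖f₂ (w + s k)‖ ^ 2 - m : ℝ) : ℂ) := by
        simp only [dev, h, hm, Complex.ofReal_sub, Complex.ofReal_expect]
      have b3 := pow_le_pow_left₀ (sq_nonneg _) b1 2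
      rw [← pow_mul] at b3
      rw [b2, Complex.norm_real, Real.norm_eq_abs, sq_abs]
      linarith only [b1, sq_nonneg (𝔼 k, ‖f₂ (w + s k)‖ ^ 2 - 2 * m), sq_nonneg (𝔼 k, ‖f₂ (w + s k)‖ ^ (2 : ℕ) - (2 : ℝ) * m), mul_nonneg_of_nonpos_of_nonpos (Mathlib.Tactic.Linarith.sub_nonpos_of_le (sq_nonneg ‖𝔼 k, f₂ (w + s k)‖)) (Mathlib.Tactic.Linarith.sub_nonpos_of_le b1), mul_nonneg_of_nonpos_of_nonpos (Mathlib.Tactic.Linarith.sub_nonpos_of_le b1) (Mathlib.Tactic.Linarith.sub_nonpos_of_le b1)]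
    have a2 : 𝔼 w, ‖h w‖ ^ 2 ≤ B := expect_le_expect fun w _ => by
      simp only [h, Complex.norm_real, Real.norm_eq_abs, sq_abs, ← pow_mul]
      exact hf₂' w
    have a3 := (hε h).trans (mul_le_mul_of_nonneg_left a2 (sq_nonneg ε))
    refine (expect_le_expect fun w _ => a1 w).trans ?_
    rw [expect_add_distrib, ← mul_expect, Fintype.expect_const]
    linarith only [hm2, a3]
  have q : ∀ w, ‖dev s f w‖ ^ 4 ≤ 8 * ‖dev s f₁ w‖ ^ 4 + (64 * ‖𝔼 k, f₂ (w + s k)‖ ^ 4 +
      64 * (ε ^ 2 * B)) := fun w => by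
    rw [hdev]
    have a1 := norm_add_pow_four_le (dev s f₁ w) (𝔼 k, f₂ (w + s k) + -𝔼 v, f₂ v)
    have a2 := norm_add_pow_four_le (𝔼 k, f₂ (w + s k)) (-𝔼 v, f₂ v)
    rw [norm_neg] at a2
    linarith only [p3, a1, a2]
  refine (expect_le_expect fun w _ => q w).trans ?_
  rw [expect_add_distrib, expect_add_distrib, ← mul_expect, ← mul_expect, Fintype.expect_const]
  have : ε ^ 2 * B ≤ ε * B := mul_le_mul_of_nonneg_right (by linarith only [h0, h1, mul_nonneg_of_nonpos_of_nonpos (le_of_lt (Mathlib.Tactic.Linarith.sub_neg_of_lt h0)) (Mathlib.Tactic.Linarith.sub_nonpos_of_le h1)]) hB0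
  linarith only [p1, p2, this]

end Abstract

/-- The moment curve. -/
def mom {F : Type} [Monoid F] (m : ℕ) (x : F) : Fin m → F := fun i => x ^ (i : ℕ)

theorem char_bound {F : Type} [Field F] [Fintype F] (m : ℕ) (ψ : AddChar (Fin m → F) ℂ)
    (hψ : ψ ≠ 0) : ‖𝔼 k : F × F, ψ (k.2 • mom m k.1)‖ ≤ m / Fintype.card F := by
  classical
  set Bad : Finset F := univ.filter fun x => ∀ y : F, ψ (y • mom m x) = 1
  have hBad : Bad.card ≤ m := by
    by_contra hc
    obtain ⟨v⟩ : Nonempty (Fin m ↪ Bad) :=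
      Function.Embedding.nonempty_of_card_le (by simp; omega)
    have hv : Function.Injective fun i => (v i : F) := Subtype.val_injective.comp v.injective
    have hu : IsUnit (Matrix.vandermonde fun i => (v i : F)) := by
      rw [Matrix.isUnit_iff_isUnit_det, isUnit_iff_ne_zero]
      exact Matrix.det_vandermonde_ne_zero_iff.2 hv
    refine hψ (AddChar.eq_zero_iff.2 fun w => ?_)
    obtain ⟨c, rfl⟩ := Matrix.vecMul_surjective_iff_isUnit.2 hu w
    have e : (Matrix.vandermonde fun i => (v i : F)).vecMul c = ∑ i, c i • mom m (v i : F) := by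
      funext j
      simp [Matrix.vecMul, dotProduct, Finset.sum_apply, mom, Matrix.vandermonde_apply]
    change ψ (Matrix.vecMul c _) = 1
    rw [e]
    refine Finset.sum_induction _ (fun a => ψ a = 1) (fun a b ha hb => ?_) ψ.map_zero_eq_one
      fun i _ => (mem_filter.1 (v i).2).2 _
    rw [ψ.map_add_eq_mul, ha, hb, one_mul]
  have e : ∀ x : F, 𝔼 y : F, ψ (y • mom m x) = if x ∈ Bad then 1 else 0 := fun x => by
    have := AddChar.expect_eq_ite (ψ.compAddMonoidHom ((smulAddHom F (Fin m → F)).flip (mom m x)))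
    simp only [AddChar.eq_zero_iff] at this
    simp only [Bad, mem_filter, mem_univ, true_and]
    convert this using 2 <;> rfl
  rw [← univ_product_univ, expect_product]
  simp only [e]
  rw [Fintype.expect_eq_sum_div_card]
  simp only [sum_ite_mem, univ_inter, sum_const, nsmul_eq_mul, mul_one, norm_div,
    Complex.norm_natCast]
  gcongr

theorem gap_mom {F : Type} [Field F] [Fintype F] {m : ℕ} {ε : ℝ} (h0 : 0 < ε) (h1 : ε ≤ 1)
    (hm : (m : ℝ) / Fintype.card F ≤ ε) (f : (Fin m → F) → ℂ) :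
    ∑ w, ‖dev (fun k : F × F => k.2 • mom m k.1) f w‖ ^ 4 ≤ 352 * ε * ∑ w, ‖f w‖ ^ 4 := by
  classical
  have := gap_four (fun k : F × F => k.2 • mom m k.1) h0 h1
    (gap_two _ fun ψ hψ => (char_bound m ψ hψ).trans hm) f
  rw [← Fintype.card_mul_expect, ← Fintype.card_mul_expect, mul_left_comm]
  exact mul_le_mul_of_nonneg_left this (Nat.cast_nonneg _)

end Pool.Agent.Work.MP_9ec65e_al
end

-- merged part: Pool.Agent.Work.MP_9ec65e_al.Space
section
/-! The metric space: a coarse disjoint union of Cayley graphs of `F_q^m`. -/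

namespace Pool.Agent.Work.MP_9ec65e_al

open scoped Pointwise

/-- The dimension. -/
def md (n : ℕ) : ℕ := 4 * n + 2

/-- The prime. -/
noncomputable def qq (n : ℕ) : ℕ := (Nat.exists_infinite_primes ((n + 1) * (2 * md n + 1))).choose

theorem le_qq (n : ℕ) : (n + 1) * (2 * md n + 1) ≤ qq n :=
  (Nat.exists_infinite_primes ((n + 1) * (2 * md n + 1))).choose_spec.1

instance fact_qq (n : ℕ) : Fact (qq n).Prime :=
  ⟨(Nat.exists_infinite_primes ((n + 1) * (2 * md n + 1))).choose_spec.2⟩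

/-- The field. -/
abbrev Fq (n : ℕ) : Type := ZMod (qq n)

/-- The vector space. -/
abbrev Vs (n : ℕ) : Type := Fin (md n) → Fq n

variable {n : ℕ}

/-- Truncation to the first `j` coordinates. -/
noncomputable def trunc (j : ℕ) (w : Vs n) : Vs n := fun i => if i.1 < j then w i else 0

theorem trunc_add (j : ℕ) (v w : Vs n) : trunc j (v + w) = trunc j v + trunc j w := by
  funext i
  simp only [trunc, Pi.add_apply]
  split_ifs <;> simp

theorem trunc_smul (j : ℕ) (c : Fq n) (w : Vs n) : trunc j (c • w) = c • trunc j w := by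
  funext i
  simp only [trunc, Pi.smul_apply]
  split_ifs <;> simp

theorem trunc_zero (w : Vs n) : trunc 0 w = 0 := by
  funext i
  simp [trunc]

theorem trunc_top (w : Vs n) : trunc (md n) w = w := by
  funext i
  simp [trunc]

theorem trunc_succ {j : ℕ} (hj : j < md n) (w : Vs n) :
    trunc (j + 1) w - trunc j w = Pi.single ⟨j, hj⟩ (w ⟨j, hj⟩) := by
  funext i
  simp only [trunc, Pi.sub_apply, Pi.single_apply, Fin.ext_iff]
  by_cases h : i.1 = j
  · have : i = ⟨j, hj⟩ := Fin.ext h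
    subst this
    simp
  · by_cases h' : i.1 < j
    · simp [h, h', Nat.lt_succ_of_lt h']
    · have : ¬ i.1 < j + 1 := by omega
      simp [h, h', this]

variable (n) in
/-- The generating cone. -/
noncomputable def Sg : Finset (Vs n) :=
  (Finset.univ.image fun z : Fin (md n + 1) × Fq n × Fq n => z.2.2 • trunc z.1 (mom (md n) z.2.1)) ∪
    Finset.univ.image fun z : Fin (md n) × Fq n => Pi.single z.1 z.2

theorem mom_mem (j : Fin (md n + 1)) (x y : Fq n) : y • trunc j (mom (md n) x) ∈ Sg n :=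
  Finset.mem_union_left _ (Finset.mem_image.2 ⟨(j, x, y), Finset.mem_univ _, rfl⟩)

theorem single_mem (i : Fin (md n)) (y : Fq n) : Pi.single i y ∈ Sg n :=
  Finset.mem_union_right _ (Finset.mem_image.2 ⟨(i, y), Finset.mem_univ _, rfl⟩)

theorem zero_mem_Sg : (0 : Vs n) ∈ Sg n := by
  simpa using mom_mem (n := n) 0 0 0

theorem smul_mem_Sg (c : Fq n) {s : Vs n} (hs : s ∈ Sg n) : c • s ∈ Sg n := by
  rcases Finset.mem_union.1 hs with h | h
  · obtain ⟨⟨j, x, y⟩, -, rfl⟩ := Finset.mem_image.1 h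
    rw [smul_smul]
    exact mom_mem _ _ _
  · obtain ⟨⟨i, y⟩, -, rfl⟩ := Finset.mem_image.1 h
    rw [← Pi.single_smul]
    exact single_mem _ _

theorem card_Sg : (Sg n).card ≤ qq n ^ 3 := by
  refine (Finset.card_union_le _ _).trans ((add_le_add Finset.card_image_le
    Finset.card_image_le).trans ?_)
  simp only [Finset.card_univ, Fintype.card_prod, Fintype.card_fin, ZMod.card]
  have h1 : 2 * md n + 1 ≤ qq n := le_trans (Nat.le_mul_of_pos_left _ n.succ_pos) (le_qq n)
  have h2 : qq n ≤ qq n * qq n := Nat.le_mul_self _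
  calc _ ≤ (md n + 1) * (qq n * qq n) + md n * (qq n * qq n) := by gcongr
    _ = (2 * md n + 1) * (qq n * qq n) := by ring
    _ ≤ qq n * (qq n * qq n) := by gcongr
    _ = _ := by ring

theorem add_mem_ball {k l : ℕ} {v w : Vs n} (hv : v ∈ k • Sg n) (hw : w ∈ l • Sg n) :
    v + w ∈ (k + l) • Sg n := by
  rw [add_nsmul]
  exact Finset.add_mem_add hv hw

theorem ball_mono {k l : ℕ} (h : k ≤ l) {v : Vs n} (hv : v ∈ k • Sg n) : v ∈ l • Sg n :=
  Finset.nsmul_subset_nsmul_right zero_mem_Sg h hv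

theorem smul_mem_ball (c : Fq n) {k : ℕ} {v : Vs n} (hv : v ∈ k • Sg n) : c • v ∈ k • Sg n := by
  induction k generalizing v with
  | zero =>
    rw [zero_nsmul, Finset.mem_zero] at hv ⊢
    rw [hv, smul_zero]
  | succ k ih =>
    rw [succ_nsmul] at hv ⊢
    obtain ⟨a, ha, b, hb, rfl⟩ := Finset.mem_add.1 hv
    rw [smul_add]
    exact Finset.add_mem_add (ih ha) (smul_mem_Sg c hb)

theorem mem_ball_md (v : Vs n) : v ∈ md n • Sg n := by
  have h : ∀ s : Finset (Fin (md n)), ∑ i ∈ s, Pi.single i (v i) ∈ s.card • Sg n := fun s => by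
    induction s using Finset.induction_on with
    | empty => simp
    | insert a s ha ih =>
      rw [Finset.sum_insert ha, Finset.card_insert_of_notMem ha, add_comm s.card]
      exact add_mem_ball (by simpa using single_mem a (v a)) ih
  simpa [Finset.univ_sum_single] using h Finset.univ

theorem exists_far (n : ℕ) : ∃ g : Vs n, g ∉ n • Sg n := by
  by_contra hc
  push Not at hc
  have h1 : Fintype.card (Vs n) ≤ (n • Sg n).card := Finset.card_le_card fun g _ => hc g
  have h2 : (n • Sg n).card ≤ (qq n ^ 3) ^ n :=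
    Finset.card_nsmul_le.trans (Nat.pow_le_pow_left card_Sg n)
  simp only [Fintype.card_pi, ZMod.card, Finset.prod_const, Finset.card_univ,
    Fintype.card_fin] at h1
  rw [← pow_mul] at h2
  have := (Nat.pow_le_pow_iff_right (fact_qq n).out.one_lt).1 (h1.trans h2)
  unfold md at this
  omega

/-- The long generator. -/
noncomputable def gg (n : ℕ) : Vs n := (exists_far n).choose

theorem gg_far (n : ℕ) : gg n ∉ n • Sg n := (exists_far n).choose_spec

/-- Representation of word length at most `k`. -/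
def Rep (k : ℕ) (v : Vs n) : Prop := ∃ j : ℤ, |j| ≤ k ∧ v - (j : Fq n) • gg n ∈ k • Sg n

theorem Rep.mono {k l : ℕ} (h : k ≤ l) {v : Vs n} (hv : Rep k v) : Rep l v :=
  let ⟨j, h1, h2⟩ := hv
  ⟨j, h1.trans (by exact_mod_cast h), ball_mono h h2⟩

theorem rep_md (v : Vs n) : Rep (md n) v := ⟨0, by simp, by simpa using mem_ball_md v⟩

/-- The word length. -/
noncomputable def len (v : Vs n) : ℕ := sInf {k | Rep k v}

theorem rep_len (v : Vs n) : Rep (len v) v := Nat.sInf_mem (s := {k | Rep k v}) ⟨_, rep_md v⟩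

theorem len_le {k : ℕ} {v : Vs n} (h : Rep k v) : len v ≤ k := Nat.sInf_le h

theorem len_le_md (v : Vs n) : len v ≤ md n := len_le (rep_md v)

theorem len_zero : len (0 : Vs n) = 0 := Nat.le_zero.1 (len_le ⟨0, by simp, by simp⟩)

theorem eq_zero_of_len {v : Vs n} (h : len v = 0) : v = 0 := by
  obtain ⟨j, h1, h2⟩ := rep_len v
  rw [h] at h1 h2
  have : j = 0 := by simpa using h1
  simpa [this] using h2

theorem len_add_le (v w : Vs n) : len (v + w) ≤ len v + len w := by
  obtain ⟨j, h1, h2⟩ := rep_len v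
  obtain ⟨j', h3, h4⟩ := rep_len w
  refine len_le ⟨j + j', (abs_add_le _ _).trans (by push_cast; omega), ?_⟩
  convert add_mem_ball h2 h4 using 1
  push_cast
  module

theorem len_neg_le (v : Vs n) : len (-v) ≤ len v := by
  obtain ⟨j, h1, h2⟩ := rep_len v
  refine len_le ⟨-j, by rwa [abs_neg], ?_⟩
  convert smul_mem_ball (-1) h2 using 1
  push_cast
  module

theorem len_sub_comm (v w : Vs n) : len (v - w) = len (w - v) :=
  le_antisymm (neg_sub w v ▸ len_neg_le _) (neg_sub v w ▸ len_neg_le _)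

theorem len_of_mem {s : Vs n} (hs : s ∈ Sg n) : len s ≤ 1 := len_le ⟨0, by simp, by simpa using hs⟩

theorem len_gg : len (gg n) ≤ 1 := len_le ⟨1, by simp, by simpa using zero_mem_Sg⟩

/-- The points of the space. -/
structure Pt where
  /-- The component. -/
  n : ℕ
  /-- The vector. -/
  v : Vs n

/-- The coordinate in the component `n`. -/
noncomputable def proj (n : ℕ) (x : Pt) : Vs n := if h : x.n = n then h ▸ x.v else 0

theorem proj_mk (v : Vs n) : proj n ⟨n, v⟩ = v := by simp [proj]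

/-- The distance. -/
noncomputable def dX (x y : Pt) : ℕ :=
  if x.n = y.n then len (x.v - proj x.n y) else md x.n + md y.n

theorem dX_same (v w : Vs n) : dX ⟨n, v⟩ ⟨n, w⟩ = len (v - w) := by simp [dX, proj_mk]

theorem dX_ne {x y : Pt} (h : x.n ≠ y.n) : dX x y = md x.n + md y.n := if_neg h

noncomputable instance : MetricSpace Pt where
  dist x y := dX x y
  dist_self x := by
    obtain ⟨n, v⟩ := x
    simp [dX_same, len_zero]
  dist_comm x y := by
    obtain ⟨n, v⟩ := x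
    obtain ⟨n', w⟩ := y
    by_cases h : n = n'
    · subst h
      rw [dX_same, dX_same, len_sub_comm]
    · rw [dX_ne h, dX_ne (Ne.symm h), add_comm]
  dist_triangle x y z := by
    obtain ⟨n, v⟩ := x
    obtain ⟨n', w⟩ := y
    obtain ⟨n'', u⟩ := z
    norm_cast
    by_cases h : n = n'
    · subst h
      by_cases h' : n = n''
      · subst h'
        rw [dX_same, dX_same, dX_same, ← sub_add_sub_cancel v w u]
        exact len_add_le _ _
      · rw [dX_ne (x := ⟨n, v⟩) h', dX_ne (x := ⟨n, w⟩) h']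
        exact le_add_self
    · by_cases h' : n' = n''
      · subst h'
        rw [dX_ne (y := ⟨n', u⟩) h, dX_ne (y := ⟨n', w⟩) h]
        exact le_self_add
      · rw [dX_ne (y := ⟨n', w⟩) h, dX_ne (x := ⟨n', w⟩) h']
        by_cases h'' : n = n''
        · subst h''
          rw [dX_same]
          have := len_le_md (v - u)
          simp only
          omega
        · rw [dX_ne h'']
          simp only
          omega
  eq_of_dist_eq_zero {x y} h := by
    obtain ⟨n, v⟩ := x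
    obtain ⟨n', w⟩ := y
    have h0 : dX ⟨n, v⟩ ⟨n', w⟩ = 0 := by exact_mod_cast h
    by_cases h : n = n'
    · subst h
      rw [dX_same] at h0
      rw [sub_eq_zero.1 (eq_zero_of_len h0)]
    · rw [dX_ne h] at h0
      simp [md] at h0

theorem dist_same (v w : Vs n) : dist (⟨n, v⟩ : Pt) ⟨n, w⟩ = len (v - w) :=
  congrArg Nat.cast (dX_same v w)

theorem dist_ne {x y : Pt} (h : x.n ≠ y.n) : dist x y = md x.n + md y.n := by
  change (dX x y : ℝ) = _
  rw [dX_ne h, Nat.cast_add]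

theorem finite_comp (n : ℕ) : {x : Pt | x.n = n}.Finite :=
  (Set.finite_range fun v : Vs n => (⟨n, v⟩ : Pt)).subset (by
    rintro ⟨n', v⟩ rfl
    exact ⟨v, rfl⟩)

theorem finite_ball (x : Pt) (r : ℝ) : (Metric.closedBall x r).Finite := by
  refine ((Set.finite_Iic (max x.n ⌈r⌉₊)).biUnion fun n _ => finite_comp n).subset fun y hy => ?_
  refine Set.mem_iUnion₂.2 ⟨y.n, ?_, rfl⟩
  by_cases h : y.n = x.n
  · exact h.le.trans (le_max_left _ _)
  · rw [Metric.mem_closedBall, dist_ne h] at hy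
    refine le_trans ?_ (le_max_right x.n ⌈r⌉₊)
    have h1 : (y.n : ℝ) ≤ md y.n := by
      unfold md
      push_cast
      linarith only [Nat.cast_nonneg (α := ℝ) y.n]
    exact_mod_cast (h1.trans (le_trans (le_add_of_nonneg_right (Nat.cast_nonneg _)) hy)).trans
      (Nat.le_ceil r)

instance : ProperSpace Pt := ⟨fun x r => (finite_ball x r).isCompact⟩

theorem finite_of_bounded {B : Set Pt} (h : Bornology.IsBounded B) : B.Finite := by
  obtain ⟨r, hr⟩ := h.subset_closedBall ⟨0, 0⟩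
  exact (finite_ball _ r).subset hr

instance : Countable Pt := by
  have : Function.Surjective fun z : Σ n, Vs n => (⟨z.1, z.2⟩ : Pt) := fun x => ⟨⟨x.n, x.v⟩, rfl⟩
  exact this.countable

open Classical in
/-- The local cocycle counting steps in the direction of the long generator. -/
noncomputable def cc (K : ℕ) (v : Vs n) : ℤ := if h : Rep (2 * K) v then h.choose else 0

theorem abs_cc_le (K : ℕ) (v : Vs n) : |cc K v| ≤ 2 * K := by
  unfold cc
  split_ifs with h
  · exact_mod_cast h.choose_spec.1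
  · simp

theorem cc_eq {K : ℕ} (hK : 4 * K ≤ n) {v : Vs n} {j : ℤ} (h1 : |j| ≤ 2 * K)
    (h2 : v - (j : Fq n) • gg n ∈ (2 * K) • Sg n) : cc K v = j := by
  have h : Rep (2 * K) v := ⟨j, by exact_mod_cast h1, h2⟩
  rw [cc, dif_pos h]
  obtain ⟨h3, h4⟩ := h.choose_spec
  generalize h.choose = j' at h3 h4
  by_contra hc
  have h5 : ((j - j' : ℤ) : Fq n) ≠ 0 := by
    rw [Ne, ZMod.intCast_zmod_eq_zero_iff_dvd]
    intro hd
    have h6 := Int.le_of_dvd (abs_pos.2 (sub_ne_zero.2 (Ne.symm hc))) ((dvd_abs _ _).2 hd)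
    have h7 : n + 1 ≤ qq n := le_trans (Nat.le_mul_of_pos_right _ (Nat.succ_pos _)) (le_qq n)
    have h8 := abs_sub j j'
    push_cast at h3
    omega
  refine gg_far n (ball_mono (k := 2 * K + 2 * K) (by omega) ?_)
  convert smul_mem_ball ((j - j' : ℤ) : Fq n)⁻¹ (add_mem_ball h4 (smul_mem_ball (-1) h2)) using 1
  rw [eq_inv_smul_iff₀ h5]
  push_cast
  module

theorem cc_add {K : ℕ} (hK : 4 * K ≤ n) {v w : Vs n} (hv : len v ≤ K) (hw : len w ≤ K) :
    cc K (v + w) = cc K v + cc K w := by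
  obtain ⟨j, h1, h2⟩ := (rep_len v).mono hv
  obtain ⟨j', h3, h4⟩ := (rep_len w).mono hw
  rw [cc_eq hK (j := j) (by omega) (ball_mono (by omega) h2),
    cc_eq hK (j := j') (by omega) (ball_mono (by omega) h4)]
  refine cc_eq hK ((abs_add_le _ _).trans (by omega)) ?_
  rw [two_mul]
  convert add_mem_ball h2 h4 using 1
  push_cast
  module

theorem exists_cocycle (K : ℕ) (hK : 1 ≤ K) : ∃ (n : ℕ) (c : Pt → Pt → ℤ),
    (∀ x y, |c x y| ≤ 2 * K) ∧ (∀ x y : Pt, x.n = n → dist x y ≤ K → y.n = n) ∧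
    (∀ x y z : Pt, y.n = n → dist x y ≤ K → dist y z ≤ K → c x z = c x y + c y z) ∧
    ∀ v, c ⟨n, v + gg n⟩ ⟨n, v⟩ = 1 := by
  have hsep : ∀ x y : Pt, x.n = 4 * K → dist x y ≤ K → y.n = 4 * K := fun x y hx h => by
    by_contra hy
    rw [dist_ne (hx ▸ Ne.symm hy), hx] at h
    have : md (4 * K) + md y.n ≤ K := by exact_mod_cast h
    unfold md at this
    omega
  refine ⟨4 * K, fun x y => cc K (proj (4 * K) x - proj (4 * K) y), fun _ _ => abs_cc_le _ _, hsep, ?_, ?_⟩
  · rintro ⟨n, u⟩ ⟨n', v⟩ ⟨n'', w⟩ h0 h1 h2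
    obtain rfl : n' = 4 * K := h0
    obtain rfl : n = 4 * K := hsep ⟨_, v⟩ ⟨n, u⟩ rfl (by rwa [dist_comm])
    obtain rfl : n'' = 4 * K := hsep ⟨_, v⟩ ⟨n'', w⟩ rfl h2
    rw [dist_same] at h1 h2
    simp only [proj_mk]
    rw [← cc_add le_rfl (by exact_mod_cast h1) (by exact_mod_cast h2), sub_add_sub_cancel]
  · intro v
    simp only [proj_mk, add_sub_cancel_left]
    exact cc_eq le_rfl (by simp; omega) (by simpa using ball_mono (k := 0) zero_le (by simp))

end Pool.Agent.Work.MP_9ec65e_al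
end

-- merged part: Pool.Agent.Work.MP_9ec65e_al.Coarse
section
-- merged part: Pool.Agent.Work.MP_9ec65e_al.Fiber
section
/-! Averaging along the fibers of a map, and null-homotopies of invertibles. -/

set_option linter.unusedSectionVars false
set_option backward.isDefEq.respectTransparency false

namespace Pool.Agent.Work.MP_9ec65e_al

open scoped NNReal ENNReal Topology
open Filter

section Rot

variable {B : Type} [NormedRing B] [NormedAlgebra ℂ B]

/-- A path from `1` to an involution. -/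
noncomputable def rot (a : B) (s : ℝ) : B :=
  1 + (Complex.exp ((Real.pi * s : ℝ) * Complex.I) - 1) • ((1 / 2 : ℂ) • (1 - a))

theorem rot_zero (a : B) : rot a 0 = 1 := by simp [rot]

theorem rot_one (a : B) : rot a 1 = a := by
  simp only [rot, mul_one, Complex.exp_pi_mul_I, smul_smul]
  norm_num

theorem rot_mul {a : B} (ha : a * a = 1) (s t : ℝ) : rot a s * rot a t = rot a (s + t) := by
  have he : ((1 / 2 : ℂ) • (1 - a)) * ((1 / 2 : ℂ) • (1 - a)) = (1 / 2 : ℂ) • (1 - a) := by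
    have : (1 - a) * (1 - a) = (2 : ℂ) • (1 - a) := by
      rw [two_smul, sub_mul, mul_sub, mul_sub, ha]
      simp only [mul_one, one_mul]
      abel
    rw [smul_mul_smul_comm, this, smul_smul]
    norm_num
  simp only [rot]
  generalize (1 / 2 : ℂ) • (1 - a) = e at he ⊢
  rw [mul_add (Real.pi), Complex.ofReal_add, add_mul, add_mul, Complex.exp_add]
  simp only [mul_add, one_mul, mul_one, smul_mul_smul_comm, he, add_assoc, ← add_smul]
  congr 2
  ring

theorem rot_mul_neg {a : B} (ha : a * a = 1) (s : ℝ) : rot a s * rot a (-s) = 1 := by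
  rw [rot_mul ha, add_neg_cancel, rot_zero]

theorem rot_neg_mul {a : B} (ha : a * a = 1) (s : ℝ) : rot a (-s) * rot a s = 1 := by
  rw [rot_mul ha, neg_add_cancel, rot_zero]

theorem continuous_rot (a : B) : Continuous (rot a) := by
  unfold rot
  fun_prop

end Rot

section Nul

variable {B B' : Type} [NormedRing B] [NormedAlgebra ℂ B] [NormedRing B'] [NormedAlgebra ℂ B']
  (Θ : B →ₙ+* B') (A : NonUnitalSubalgebra ℂ B')

/-- Invertibles that are carried into `A` with their inverses. -/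
def Adm : Set B := {a | Θ a ∈ A ∧ ∃ b, Θ b ∈ A ∧ a * b = 1 ∧ b * a = 1}

/-- Null-homotopic invertibles. -/
def Nul (a : B) : Prop := JoinedIn (Adm Θ A) 1 a

variable {Θ A}

theorem Adm.mul {a b : B} (ha : a ∈ Adm Θ A) (hb : b ∈ Adm Θ A) : a * b ∈ Adm Θ A := by
  obtain ⟨h1, a', h2, h3, h4⟩ := ha
  obtain ⟨h5, b', h6, h7, h8⟩ := hb
  refine ⟨by rw [map_mul]; exact mul_mem h1 h5, b' * a', by rw [map_mul]; exact mul_mem h6 h2, ?_, ?_⟩
  · rw [mul_assoc, ← mul_assoc b, h7, one_mul, h3]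
  · rw [mul_assoc, ← mul_assoc a', h4, one_mul, h8]

theorem Nul.mul {a b : B} (ha : Nul Θ A a) (hb : Nul Θ A b) : Nul Θ A (a * b) := by
  refine JoinedIn.trans hb ?_
  have := (JoinedIn.map ha (f := fun x => x * b) (by fun_prop)).mono (V := Adm Θ A) (by
    rintro _ ⟨x, hx, rfl⟩
    exact Adm.mul hx hb.target_mem)
  simpa using this

theorem Nul.conj {a u u' : B} (ha : Nul Θ A a) (hu : u ∈ Adm Θ A) (hu' : u' ∈ Adm Θ A)
    (h : u * u' = 1) : Nul Θ A (u * a * u') := by
  have := (JoinedIn.map ha (f := fun x => u * x * u') (by fun_prop)).mono (V := Adm Θ A) (by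
    rintro _ ⟨x, hx, rfl⟩
    exact Adm.mul (Adm.mul hu hx) hu')
  simpa [Nul, h] using this

theorem Nul.invol (hΘ : ∀ (c : ℂ) a, Θ (c • a) = c • Θ a) (h1 : Θ 1 ∈ A) {a : B} (ha : Θ a ∈ A)
    (haa : a * a = 1) : Nul Θ A a := by
  have hr : ∀ s, Θ (rot a s) ∈ A := fun s => by
    rw [rot, map_add, hΘ, hΘ, map_sub]
    exact add_mem h1 (SMulMemClass.smul_mem _ (SMulMemClass.smul_mem _ (sub_mem h1 ha)))
  refine JoinedIn.ofLine (f := rot a) (continuous_rot a).continuousOn (rot_zero a) (rot_one a) ?_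
  rintro _ ⟨s, -, rfl⟩
  exact ⟨hr s, rot a (-s), hr _, rot_mul_neg haa s, rot_neg_mul haa s⟩

theorem Nul.joined (hc : Continuous Θ) (h1 : Θ 1 ∈ A) {a : B} (ha : Nul Θ A a) :
    ∃ h : Θ (a - 1) ∈ A, JoinedIn {x : A | IsQuasiregular x} ⟨Θ (a - 1), h⟩ 0 := by
  have hm : ∀ b, Θ b ∈ A → Θ (b - 1) ∈ A := fun b hb => by
    rw [map_sub]
    exact sub_mem hb h1
  obtain ⟨γ, hγ⟩ := ha.symm
  refine ⟨hm a ha.target_mem.1, ⟨⟨fun s => ⟨Θ (γ s - 1), hm _ (hγ s).1⟩, ?_⟩, ?_, ?_⟩, fun s => ?_⟩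
  · exact (hc.comp (γ.continuous.sub continuous_const)).subtype_mk _
  · simp
  · ext
    simp
  · obtain ⟨h2, b, h3, h4, h5⟩ := hγ s
    refine isQuasiregular_iff.2 ⟨⟨Θ (b - 1), hm b h3⟩, Subtype.ext ?_, Subtype.ext ?_⟩
    · change Θ (b - 1) + Θ (γ s - 1) + Θ (γ s - 1) * Θ (b - 1) = 0
      rw [← map_mul, ← map_add, ← map_add, ← map_zero Θ, ← sub_eq_zero.2 h4]
      congr 1
      noncomm_ring
    · change Θ (γ s - 1) + Θ (b - 1) + Θ (b - 1) * Θ (γ s - 1) = 0
      rw [← map_mul, ← map_add, ← map_add, ← map_zero Θ, ← sub_eq_zero.2 h5]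
      congr 1
      noncomm_ring

end Nul

variable {p : ℝ≥0} [hp : Fact (1 ≤ (p : ℝ≥0∞))] {I I' : Type}

theorem block_bound {B : Type} {β : I → B} {β' : I' → B} {fib : B → Finset I}
    {fib' : B → Finset I'} (hfib : ∀ b i, i ∈ fib b ↔ β i = b) (hfib' : ∀ b i, i ∈ fib' b ↔ β' i = b)
    (Φ : (I → ℂ) →ₗ[ℂ] (I' → ℂ)) (C : ℝ≥0)
    (h : ∀ (f : I → ℂ) b, ∑ i ∈ fib' b, ‖Φ f i‖ ^ (p : ℝ) ≤
      (C : ℝ) ^ (p : ℝ) * ∑ i ∈ fib b, ‖f i‖ ^ (p : ℝ)) (f : Ell p I) (s : Finset I') :
    ∑ i ∈ s, ‖Φ f i‖ ^ (p : ℝ) ≤ ((C : ℝ) * ‖f‖) ^ (p : ℝ) := by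
  classical
  have hd : ∀ {J : Type} {γ : J → B} {fb : B → Finset J}, (∀ b i, i ∈ fb b ↔ γ i = b) →
      ∀ t : Finset B, Set.PairwiseDisjoint (t : Set B) fb := fun h t b _ b' _ hbb =>
    Finset.disjoint_left.2 fun i h1 h2 => hbb (((h _ _).1 h1).symm.trans ((h _ _).1 h2))
  rw [Real.mul_rpow C.coe_nonneg (norm_nonneg f)]
  calc _ ≤ ∑ i ∈ (s.image β').biUnion fib', ‖Φ f i‖ ^ (p : ℝ) :=
        Finset.sum_le_sum_of_subset_of_nonneg (fun i hi => Finset.mem_biUnion.2
          ⟨β' i, Finset.mem_image_of_mem _ hi, (hfib' _ _).2 rfl⟩) fun _ _ _ => by positivity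
    _ = ∑ b ∈ s.image β', ∑ i ∈ fib' b, ‖Φ f i‖ ^ (p : ℝ) := Finset.sum_biUnion (hd hfib' _)
    _ ≤ ∑ b ∈ s.image β', (C : ℝ) ^ (p : ℝ) * ∑ i ∈ fib b, ‖f i‖ ^ (p : ℝ) :=
        Finset.sum_le_sum fun b _ => h f b
    _ = (C : ℝ) ^ (p : ℝ) * ∑ i ∈ (s.image β').biUnion fib, ‖f i‖ ^ (p : ℝ) := by
        rw [← Finset.mul_sum, Finset.sum_biUnion (hd hfib _)]
    _ ≤ _ := mul_le_mul_of_nonneg_left (sum_le_norm f _) (by positivity)

/-- A map with finite nonempty fibers. -/
structure Fib (pr : I → I') where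
  /-- The fibers. -/
  fib : I' → Finset I
  mem : ∀ b i, i ∈ fib b ↔ pr i = b
  ne : ∀ b, (fib b).Nonempty

namespace Fib

variable {pr : I → I'} (φ : Fib pr)

theorem card_pos (b : I') : (0 : ℝ) < (φ.fib b).card := by exact_mod_cast (φ.ne b).card_pos

variable (p) in
/-- Normalised pullback. -/
noncomputable def RL : (I' → ℂ) →ₗ[ℂ] (I → ℂ) where
  toFun h i := (((φ.fib (pr i)).card : ℝ) ^ (-(1 / p : ℝ)) : ℝ) * h (pr i)
  map_add' _ _ := funext fun _ => mul_add _ _ _
  map_smul' _ _ := funext fun _ => mul_left_comm _ _ _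

variable (p) in
/-- Normalised pushforward. -/
noncomputable def LL : (I → ℂ) →ₗ[ℂ] (I' → ℂ) where
  toFun f b := (((φ.fib b).card : ℝ) ^ ((1 / p : ℝ) - 1) : ℝ) * ∑ i ∈ φ.fib b, f i
  map_add' _ _ := funext fun _ => by simp [Finset.sum_add_distrib, mul_add]
  map_smul' _ _ := funext fun _ => by simp [Finset.mul_sum, mul_left_comm]

variable (p) in
/-- Normalised pullback. -/
noncomputable def R : Ell p I' →L[ℂ] Ell p I :=
  mkOp (φ.RL p) 1 (block_bound (β := id) (fib := fun b => {b}) (by simp [eq_comm]) φ.mem _ _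
    fun f b => by
      have h1 : ∀ i ∈ φ.fib b, ‖φ.RL p f i‖ ^ (p : ℝ) = ((φ.fib b).card : ℝ)⁻¹ * ‖f b‖ ^ (p : ℝ) := by
        intro i hi
        have hb := φ.card_pos b
        change ‖(((φ.fib (pr i)).card : ℝ) ^ (-(1 / p : ℝ)) : ℝ) * f (pr i)‖ ^ (p : ℝ) = _
        rw [(φ.mem _ _).1 hi, norm_mul, Complex.norm_real, Real.norm_of_nonneg (by positivity),
          Real.mul_rpow (by positivity) (norm_nonneg _), ← Real.rpow_mul hb.le, neg_mul,
          one_div_mul_cancel p_pos.ne', Real.rpow_neg_one]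
      rw [Finset.sum_congr rfl h1, Finset.sum_const, nsmul_eq_mul, ← mul_assoc,
        mul_inv_cancel₀ (φ.card_pos b).ne']
      simp)

variable (p) in
/-- Normalised pushforward. -/
noncomputable def L : Ell p I →L[ℂ] Ell p I' :=
  mkOp (φ.LL p) 1 (block_bound (β' := id) (fib' := fun b => {b}) φ.mem (by simp [eq_comm]) _ _
    fun f b => by
      have hb := φ.card_pos b
      rw [Finset.sum_singleton, NNReal.coe_one, Real.one_rpow, one_mul]
      change ‖(((φ.fib b).card : ℝ) ^ ((1 / p : ℝ) - 1) : ℝ) * ∑ i ∈ φ.fib b, f i‖ ^ (p : ℝ) ≤ _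
      rw [norm_mul, Complex.norm_real, Real.norm_of_nonneg (by positivity),
        Real.mul_rpow (by positivity) (norm_nonneg _), ← Real.rpow_mul hb.le, sub_mul,
        one_div_mul_cancel p_pos.ne', one_mul]
      have h1 := (Real.rpow_le_rpow (norm_nonneg _) (norm_sum_le (φ.fib b) f) (p_pos (p := p)).le).trans
        (Real.rpow_sum_le_const_mul_sum_rpow_of_nonneg (φ.fib b) one_le_p fun i _ => norm_nonneg (f i))
      refine (mul_le_mul_of_nonneg_left h1 (by positivity)).trans (le_of_eq ?_)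
      rw [← mul_assoc, ← Real.rpow_add hb]
      simp)

theorem R_apply (h : Ell p I') (i : I) :
    φ.R p h i = (((φ.fib (pr i)).card : ℝ) ^ (-(1 / p : ℝ)) : ℝ) * h (pr i) := rfl

theorem L_apply (f : Ell p I) (b : I') :
    φ.L p f b = (((φ.fib b).card : ℝ) ^ ((1 / p : ℝ) - 1) : ℝ) * ∑ i ∈ φ.fib b, f i := rfl

theorem coef_mul (b : I') : (((φ.fib b).card : ℝ) ^ (-(1 / p : ℝ)) : ℝ) *
    ((((φ.fib b).card : ℝ) ^ ((1 / p : ℝ) - 1) : ℝ) : ℂ) = ((φ.fib b).card : ℂ)⁻¹ := by
  rw [← Complex.ofReal_mul, ← Real.rpow_add (φ.card_pos b), neg_add_eq_sub, sub_sub_cancel_left,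
    Real.rpow_neg_one]
  simp

theorem L_R (h : Ell p I') : φ.L p (φ.R p h) = h := by
  refine lp.ext (funext fun b => ?_)
  rw [L_apply, Finset.sum_congr rfl fun i hi => by rw [R_apply, (φ.mem _ _).1 hi],
    Finset.sum_const, nsmul_eq_mul]
  have h1 := φ.coef_mul (p := p) b
  have h2 : ((φ.fib b).card : ℂ) ≠ 0 := by exact_mod_cast (φ.card_pos b).ne'
  linear_combination ((φ.fib b).card : ℂ) * h b * h1 + h b * mul_inv_cancel₀ h2

variable (p) in
/-- The homomorphism `a ↦ R a L`. -/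
noncomputable def theta : Op p I' →ₙ+* Op p I where
  toFun a := (φ.R p).comp (a.comp (φ.L p))
  map_zero' := by simp
  map_add' S T := by simp [ContinuousLinearMap.add_comp, ContinuousLinearMap.comp_add]
  map_mul' S T := ContinuousLinearMap.ext fun f => by simp [L_R]

theorem theta_apply (a : Op p I') : φ.theta p a = (φ.R p).comp (a.comp (φ.L p)) := rfl

theorem theta_smul (c : ℂ) (a : Op p I') : φ.theta p (c • a) = c • φ.theta p a := by
  simp [theta_apply]

theorem continuous_theta : Continuous (φ.theta p) :=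
  continuous_const.clm_comp (continuous_id.clm_comp continuous_const)

theorem theta_one_apply (f : Ell p I) (i : I) :
    φ.theta p 1 f i = ((φ.fib (pr i)).card : ℂ)⁻¹ * ∑ j ∈ φ.fib (pr i), f j := by
  change φ.R p (φ.L p f) i = _
  rw [R_apply, L_apply, ← mul_assoc, coef_mul]

theorem L_delta (j : I) : φ.L p (delta p j) =
    ((((φ.fib (pr j)).card : ℝ) ^ ((1 / p : ℝ) - 1) : ℝ) : ℂ) • delta p (pr j) := by
  classical
  refine lp.ext (funext fun b => ?_)
  rw [L_apply, lp.coeFn_smul, Pi.smul_apply, smul_eq_mul]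
  simp only [delta_apply, Finset.sum_ite_eq', φ.mem]
  by_cases h : pr j = b
  · subst h
    rfl
  · rw [if_neg h, if_neg (Ne.symm h), mul_zero, mul_zero]

theorem entry_theta (a : Op p I') (i j : I) : entry (φ.theta p a) i j =
    (((φ.fib (pr i)).card : ℝ) ^ (-(1 / p : ℝ)) : ℝ) *
      ((((φ.fib (pr j)).card : ℝ) ^ ((1 / p : ℝ) - 1) : ℝ) * entry a (pr i) (pr j)) := by
  change φ.R p (a (φ.L p (delta p j))) i = _
  rw [R_apply, L_delta, map_smul]
  rfl

theorem entry_theta_ne_zero {a : Op p I'} {i j : I} (h : entry (φ.theta p a) i j ≠ 0) :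
    entry a (pr i) (pr j) ≠ 0 := fun h0 => h (by rw [entry_theta, h0, mul_zero, mul_zero])

theorem theta_perm {T : Equiv.Perm I} {π : Equiv.Perm I'} (h : ∀ i, pr (T i) = π (pr i)) :
    φ.theta p (perm p π) = perm p T * φ.theta p 1 := by
  refine clm_ext fun f i => ?_
  change φ.R p (perm p π (φ.L p f)) i = perm p T (φ.R p (φ.L p f)) i
  have h1 : pr (T⁻¹ i) = π⁻¹ (pr i) := by
    rw [Equiv.Perm.eq_inv_iff_eq, ← h]
    simp
  have h2 : (φ.fib (π⁻¹ (pr i))).card = (φ.fib (pr i)).card :=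
    Finset.card_equiv T fun j => by
      rw [φ.mem, φ.mem, h, Equiv.Perm.eq_inv_iff_eq]
  rw [perm_apply, R_apply, R_apply, perm_apply, h1, h2]

end Fib

end Pool.Agent.Work.MP_9ec65e_al
end

-- merged part: Pool.Agent.Work.MP_9ec65e_al.Coarse
section
/-! The coarse model: the averaging idempotent lies in the Roe algebra. -/

set_option linter.unusedSectionVars false
set_option backward.isDefEq.respectTransparency false

namespace Pool.Agent.Work.MP_9ec65e_al

open scoped NNReal ENNReal Topology BigOperators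
open Filter

instance fact_four : Fact (1 ≤ ((4 : ℝ≥0) : ℝ≥0∞)) := ⟨by norm_num⟩

section General

variable {p : ℝ≥0} [hp : Fact (1 ≤ (p : ℝ≥0∞))] {I I' Y : Type} [PseudoEMetricSpace Y] {ι : I → Y}

theorem mem_Roe_of_finite (h : ∀ K, IsCompact K → (ι ⁻¹' K).Finite) {T : Op p I}
    (hT : prop ι T < ∞) : T ∈ Roe p ι :=
  (roeAlg p ι).le_topologicalClosure ⟨fun K hK => ⟨compact_mul_right (isCompact_chi (h K hK)) T,
    compact_mul_left (isCompact_chi (h K hK)) T⟩, hT⟩

theorem prop_perm_le {σ : Equiv.Perm I} {δ : ℝ≥0∞} (h : ∀ i, edist (ι (σ i)) (ι i) ≤ δ) :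
    prop ι (perm p σ) ≤ δ := by
  classical
  refine prop_le_iff.2 fun i j hij => ?_
  rw [entry_perm] at hij
  by_cases h0 : i = σ j
  · rw [h0]
    exact h j
  · simp [h0] at hij

theorem perm_sub_one_eq_ad (e : I ↪ I') (σ₀ : Equiv.Perm I) (σ : Equiv.Perm I')
    (h1 : ∀ i, σ (e i) = e (σ₀ i)) (h2 : ∀ i, (¬ ∃ j, e j = i) → σ i = i) :
    perm p σ - 1 = ad p e (perm p σ₀ - 1) := by
  refine clm_ext fun f i => ?_
  change perm p σ f i - f i = ext p e (perm p σ₀ (res p e f) - res p e f) i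
  rw [perm_apply]
  by_cases hi : ∃ j, e j = i
  · obtain ⟨j, rfl⟩ := hi
    have : σ⁻¹ (e j) = e (σ₀⁻¹ j) := by
      rw [Equiv.Perm.inv_eq_iff_eq, h1]
      simp
    rw [ext_apply, this, lp.coeFn_sub, Pi.sub_apply, perm_apply]
    rfl
  · rw [ext_apply_not _ _ hi, Equiv.Perm.inv_eq_iff_eq.2 (h2 i hi).symm, sub_self]

end General

/-- The index set of the coarse model. -/
abbrev Ic : Type := Σ n, Fq n × Option (Fin (md n + 1) × Vs n)

/-- The set of fibers. -/
abbrev Il : Type := Σ n, Fq n × Option (Fin (md n + 1))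

/-- The projection. -/
def pr : Ic → Il := fun i => ⟨i.1, i.2.1, i.2.2.map Prod.fst⟩

/-- The fiber inclusion. -/
def inc {n : ℕ} (a : Fq n) (j : Fin (md n + 1)) : Vs n ↪ Ic :=
  ⟨fun w => ⟨n, a, some (j, w)⟩, fun w w' h => by simpa using h⟩

/-- The fibers. -/
noncomputable def fibs : Il → Finset Ic
  | ⟨n, a, none⟩ => {⟨n, a, none⟩}
  | ⟨_, a, some j⟩ => Finset.univ.map (inc a j)

/-- The fibering. -/
noncomputable def fb : Fib pr where
  fib := fibs
  mem := by
    rintro ⟨n, a, _ | j⟩ ⟨n', a', o⟩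
    · simp only [fibs, Finset.mem_singleton, pr]
      constructor
      · intro h
        cases h
        rfl
      · intro h
        obtain rfl : n' = n := congrArg Sigma.fst h
        simp only [Sigma.mk.injEq, heq_eq_eq, true_and, Prod.mk.injEq, Option.map_eq_none_iff] at h
        rw [h.1, h.2]
    · simp only [fibs, Finset.mem_map, Finset.mem_univ, true_and, pr]
      constructor
      · rintro ⟨w, h⟩
        cases h
        rfl
      · intro h
        obtain rfl : n' = n := congrArg Sigma.fst h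
        simp only [Sigma.mk.injEq, heq_eq_eq, true_and, Prod.mk.injEq, Option.map_eq_some_iff] at h
        obtain ⟨rfl, ⟨j', w⟩, rfl, rfl⟩ := h
        exact ⟨w, rfl⟩
  ne := by
    rintro ⟨n, a, _ | j⟩
    · simp [fibs]
    · simp [fibs]

/-- The offset. -/
noncomputable def off {n : ℕ} : Option (Fin (md n + 1) × Vs n) → Vs n
  | none => 0
  | some z => trunc z.1 z.2

/-- The point of the space under an index. -/
noncomputable def pt (i : Ic) : Pt := ⟨i.1, i.2.1 • gg i.1 + off i.2.2⟩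

theorem Q_none (f : Ell 4 Ic) (n : ℕ) (a : Fq n) :
    fb.theta 4 1 f ⟨n, a, none⟩ = f ⟨n, a, none⟩ := by
  rw [Fib.theta_one_apply]
  simp [fb, pr, fibs]

theorem Q_some (f : Ell 4 Ic) (n : ℕ) (a : Fq n) (j : Fin (md n + 1)) (w : Vs n) :
    fb.theta 4 1 f ⟨n, a, some (j, w)⟩ = 𝔼 v, f (inc a j v) := by
  rw [Fib.theta_one_apply, Fintype.expect_eq_sum_div_card, div_eq_inv_mul]
  simp [fb, pr, fibs]

/-- The generating family of the cone over the moment curve. -/
noncomputable def sm (n : ℕ) : Fq n × Fq n → Vs n := fun k => k.2 • mom (md n) k.1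

/-- The deviation function. -/
noncomputable def devF (N : ℕ) (f : Ic → ℂ) : Ic → ℂ
  | ⟨_, _, none⟩ => 0
  | ⟨n, a, some z⟩ => if N ≤ n then dev (sm n) (fun v => f (inc a z.1 v)) z.2 else 0

/-- The deviation operator. -/
noncomputable def devL (N : ℕ) : (Ic → ℂ) →ₗ[ℂ] (Ic → ℂ) where
  toFun := devF N
  map_add' f g := by
    funext ⟨n, a, o⟩
    cases o with
    | none => simp [devF]
    | some z =>
      simp only [devF, Pi.add_apply, dev, Finset.expect_add_distrib]
      split_ifs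
      · ring
      · simp
  map_smul' c f := by
    funext ⟨n, a, o⟩
    cases o with
    | none => simp [devF]
    | some z =>
      simp only [devF, Pi.smul_apply, dev, smul_eq_mul, ← Finset.mul_expect, RingHom.id_apply]
      split_ifs
      · ring
      · simp

theorem dev_bound (N : ℕ) (η : ℝ≥0) (hη : 352 * (1 / (N + 1 : ℝ)) ≤ η ^ 4) (f : Ic → ℂ) (b : Il) :
    ∑ i ∈ fb.fib b, ‖devL N f i‖ ^ ((4 : ℝ≥0) : ℝ) ≤
      (η : ℝ) ^ ((4 : ℝ≥0) : ℝ) * ∑ i ∈ fb.fib b, ‖f i‖ ^ ((4 : ℝ≥0) : ℝ) := by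
  simp only [NNReal.coe_ofNat, Real.rpow_ofNat]
  obtain ⟨n, a, _ | j⟩ := b
  · simp only [fb, fibs, Finset.sum_singleton, devL, devF, LinearMap.coe_mk, AddHom.coe_mk,
      norm_zero]
    rw [zero_pow four_ne_zero]
    positivity
  · simp only [fb, fibs, Finset.sum_map]
    change ∑ w, ‖if N ≤ n then dev (sm n) (fun v => f (inc a j v)) w else 0‖ ^ 4 ≤ _
    split_ifs with h
    · refine (gap_mom (ε := 1 / (N + 1 : ℝ)) (by positivity) ?_ ?_ _).trans ?_
      · rw [div_le_one (by positivity)]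
        simp
      · rw [ZMod.card, div_le_div_iff₀ (by exact_mod_cast (fact_qq n).out.pos) (by positivity)]
        have h1 := le_qq n
        have h2 : md n * (N + 1) ≤ (n + 1) * (2 * md n + 1) := by nlinarith only [h]
        exact_mod_cast (by omega : md n * (N + 1) ≤ 1 * qq n)
      · gcongr
    · simp only [norm_zero]
      rw [zero_pow four_ne_zero, Finset.sum_const_zero]
      positivity

theorem trunc_single_mem {n : ℕ} (j : ℕ) (i : Fin (md n)) (y : Fq n) :
    trunc j (Pi.single i y : Vs n) ∈ Sg n := by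
  by_cases h : i.1 < j
  · convert single_mem i y
    funext k
    simp only [trunc, Pi.single_apply]
    split_ifs with h1 h2 h3
    · rfl
    · rfl
    · exact (h1 (h3 ▸ h)).elim
    · rfl
  · convert zero_mem_Sg
    funext k
    simp only [trunc, Pi.single_apply, Pi.zero_apply]
    split_ifs with h1 h2
    · exact (h (h2 ▸ h1)).elim
    · rfl
    · rfl

theorem dist_inc {n : ℕ} (a : Fq n) (j : Fin (md n + 1)) (w u : Vs n) (h : trunc j u ∈ Sg n) :
    dist (pt (inc a j (w + u))) (pt (inc a j w)) ≤ 1 := by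
  change dist (⟨n, a • gg n + trunc j (w + u)⟩ : Pt) ⟨n, a • gg n + trunc j w⟩ ≤ 1
  rw [dist_same, trunc_add, add_sub_add_left_eq_sub, add_sub_cancel_left]
  exact_mod_cast len_of_mem h

variable {Y : Type} [PseudoEMetricSpace Y] {ι : Ic → Y} {c : ℝ≥0}
  (H1 : ∀ i j, dist (pt i) (pt j) ≤ 1 → edist (ι i) (ι j) ≤ c)
  (H2 : ∀ K, IsCompact K → (ι ⁻¹' K).Finite)

include H1 in
theorem edist_inc {n : ℕ} (a : Fq n) (j : Fin (md n + 1)) (w w' : Vs n) :
    edist (ι (inc a j w')) (ι (inc a j w)) ≤ md n * c := by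
  have h : ∀ s : Finset (Fin (md n)),
      edist (ι (inc a j (w + ∑ i ∈ s, Pi.single i ((w' - w) i)))) (ι (inc a j w)) ≤ s.card * c := by
    intro s
    induction s using Finset.induction_on with
    | empty => simp
    | insert i s hi ih =>
      rw [Finset.sum_insert hi, Finset.card_insert_of_notMem hi, add_comm (Pi.single _ _),
        ← add_assoc, Nat.cast_succ, add_mul, one_mul, add_comm _ (c : ℝ≥0∞)]
      exact (edist_triangle _ _ _).trans
        (add_le_add (H1 _ _ (dist_inc a j _ _ (trunc_single_mem _ _ _))) ih)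
  have h2 := h Finset.univ
  rwa [Finset.univ_sum_single, add_sub_cancel, Finset.card_univ, Fintype.card_fin] at h2

include H1 H2 in
theorem Q_mem : fb.theta 4 1 ∈ Roe 4 ι := by
  classical
  refine (roeAlg 4 ι).isClosed_topologicalClosure.closure_subset
    (Metric.mem_closure_iff.2 fun ε hε => ?_)
  lift ε to ℝ≥0 using hε.le
  obtain ⟨N, hN⟩ : ∃ N : ℕ, 352 * (1 / (N + 1 : ℝ)) ≤ ((ε / 2 : ℝ≥0) : ℝ) ^ 4 := by
    have := (tendsto_one_div_add_atTop_nhds_zero_nat (𝕜 := ℝ)).const_mul 352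
    rw [mul_zero] at this
    exact (this.eventually_le_const (by push_cast; positivity)).exists
  set D : Op 4 Ic := mkOp (devL N) (ε / 2) (block_bound fb.mem fb.mem _ _ (dev_bound N _ hN))
  refine ⟨fb.theta 4 1 + D, mem_Roe_of_finite H2 (lt_of_le_of_lt (b := (md N : ℝ≥0∞) * c + c)
    (prop_le_iff.2 fun i i' h => ?_) (by finiteness)), ?_⟩
  · change fb.theta 4 1 (delta 4 i') i + devF N (delta 4 i') i ≠ 0 at h
    obtain ⟨n, a, _ | ⟨j, w⟩⟩ := i
    · rw [Q_none, devF, add_zero, delta_apply] at h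
      obtain rfl : (⟨n, a, none⟩ : Ic) = i' := by simpa using h
      simp
    · rw [Q_some, devF] at h
      split_ifs at h with hn
      · rw [dev, add_sub_cancel] at h
        obtain ⟨k, -, hk⟩ := Finset.exists_ne_zero_of_expect_ne_zero h
        rw [delta_apply] at hk
        obtain rfl : inc a j (w + sm n k) = i' := by simpa using hk
        rw [edist_comm]
        refine le_add_left (H1 _ _ (dist_inc a j _ _ ?_))
        rw [sm, trunc_smul]
        exact mom_mem _ _ _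
      · rw [add_zero] at h
        obtain ⟨k, -, hk⟩ := Finset.exists_ne_zero_of_expect_ne_zero h
        rw [delta_apply] at hk
        obtain rfl : inc a j k = i' := by simpa using hk
        refine le_add_right ((edist_inc H1 a j k w).trans ?_)
        gcongr
        unfold md
        omega
  · rw [dist_eq_norm, sub_add_cancel_left, norm_neg]
    refine (norm_mkOp_le _ _ _).trans_lt ?_
    push_cast
    exact half_lt_self hε

end Pool.Agent.Work.MP_9ec65e_al
end
end
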