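import Pool.Agent.Work.MP_9ec65e_al.DataDefs
import Pool.Agent.Work.MP_9ec65e_al.StBridge

/-! Existence of an anti-Cech system with all the choices. -/

namespace Pool.Agent.Work.MP_9ec65e_al

open scoped NNReal ENNReal Topology
open Filter

/-- The cover by balls of radius `2 ^ k`. -/
def balls (k : ℕ) : Set (Set Pt) := Set.range fun x : Pt => Metric.closedBall x (2 ^ k)

/-- The map of covers. -/
noncomputable def ballMap (k : ℕ) (U : balls k) : balls (k + 1) :=
  ⟨Metric.closedBall U.2.choose (2 ^ (k + 1)), U.2.choose, rfl⟩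

theorem subset_ballMap (k : ℕ) (U : balls k) : (U : Set Pt) ⊆ ballMap k U := by
  intro x hx
  rw [← U.2.choose_spec] at hx
  exact Metric.closedBall_subset_closedBall (pow_le_pow_right₀ one_le_two k.le_succ) hx

theorem exists_dense (k : ℕ) : ∃ s : Set (Nerve (balls k)), s.Countable ∧ Dense s := by
  have : Countable (balls k) := (Set.countable_range _).to_subtype
  have h : TopologicalSpace.IsSeparable (Set.univ : Set (Nerve (balls k))) :=
    (TopologicalSpace.IsSeparable.iUnion fun F : Finset (balls k) =>
      (Nerve.isCompact_supp_subset F).isSeparable).mono fun y _ =>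
        Set.mem_iUnion.2 ⟨y.t.support, Finset.Subset.refl _⟩
  have := TopologicalSpace.isSeparable_univ_iff.1 h
  exact TopologicalSpace.exists_countable_dense _

/-- Compatible countable dense sets. -/
def dns : ∀ k, Set (Nerve (balls k))
  | 0 => (exists_dense 0).choose
  | k + 1 => (exists_dense (k + 1)).choose ∪ Nerve.map (ballMap k) (subset_ballMap k) '' dns k

theorem countable_dns : ∀ k, (dns k).Countable
  | 0 => (exists_dense 0).choose_spec.1
  | k + 1 => (exists_dense (k + 1)).choose_spec.1.union ((countable_dns k).image _)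

theorem dense_dns : ∀ k, Dense (dns k)
  | 0 => (exists_dense 0).choose_spec.2
  | k + 1 => (exists_dense (k + 1)).choose_spec.2.mono Set.subset_union_left

theorem nonempty_antiCech : Nonempty (AntiCech Pt) := by
  have hc : ∀ k, ∃ e : dns k × ℕ → ℕ, Function.Injective e := fun k => by
    have := (countable_dns k).to_subtype
    exact exists_injective_nat _
  choose e he using hc
  refine ⟨{
    C := balls
    R := fun k => 2 ^ (k + 1)
    covers := fun k x => ⟨_, ⟨x, rfl⟩, Metric.mem_closedBall_self (by positivity)⟩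
    locFin := fun k x => ⟨Metric.closedBall x 1, Metric.closedBall_mem_nhds x one_pos, ?_⟩
    diam_le := ?_
    lebesgue := fun k A ⟨a, ha⟩ h => ⟨_, ⟨a, rfl⟩, fun x hx => h x hx a ha⟩
    tendsto_R := (tendsto_pow_atTop_atTop_of_one_lt one_lt_two).comp (tendsto_add_atTop_nat 1)
    s := ballMap
    subset_s := subset_ballMap
    Z := dns
    countable_Z := countable_dns
    dense_Z := dense_dns
    J := fun k => ⟨fun a => (⟨Nerve.map (ballMap k) (subset_ballMap k) a.1,
      Or.inr ⟨_, a.1.2, rfl⟩⟩, e k a), fun a b h => he k (congrArg Prod.snd h)⟩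
    J_over := fun _ _ => rfl }⟩
  · refine ((finite_ball x (2 ^ k + 1)).image
      fun y => (⟨Metric.closedBall y (2 ^ k), y, rfl⟩ : balls k)).subset ?_
    rintro ⟨_, y, rfl⟩ ⟨w, h1, h2⟩
    refine ⟨y, ?_, rfl⟩
    have := dist_triangle_left y x w
    rw [Metric.mem_closedBall] at h1 h2 ⊢
    linarith
  · rintro k _ ⟨y, rfl⟩ x hx x' hx'
    have := dist_triangle_right x x' y
    rw [Metric.mem_closedBall] at hx hx'
    rw [pow_succ]
    linarith

end Pool.Agent.Work.MP_9ec65e_al
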