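import Pool.Agent.Work.MP_9ec65e_al.NerveDefs

/-! Anti-Cech systems. -/

namespace Pool.Agent.Work.MP_9ec65e_al

open Filter

/-- The choices that enter the definition of the `L^p` coarse assembly map of `X`: an anti-Cech
system `(C k, R k)`, maps of covers `s k` with `U ⊆ s k U`, countable dense sets `Z k` of the nerves,
and injections `J k : Z k × ℕ → Z (k + 1) × ℕ` lying over the simplicial maps of nerves; these give
the isometries `ℓ^p(Z k × ℕ) → ℓ^p(Z (k + 1) × ℕ)` that cover the simplicial maps. -/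
structure AntiCech (X : Type) [MetricSpace X] where
  /-- The covers. -/
  C : ℕ → Set (Set X)
  /-- The diameter bounds. -/
  R : ℕ → ℝ
  covers : ∀ k x, ∃ U ∈ C k, x ∈ U
  locFin : ∀ k, LocallyFinite fun U : C k => (U : Set X)
  diam_le : ∀ k, ∀ U ∈ C k, ∀ x ∈ U, ∀ x' ∈ U, dist x x' ≤ R k
  lebesgue : ∀ k, ∀ A : Set X, A.Nonempty → (∀ x ∈ A, ∀ x' ∈ A, dist x x' ≤ R k) →
    ∃ U ∈ C (k + 1), A ⊆ U
  tendsto_R : Tendsto R atTop atTop
  /-- The maps of covers. -/
  s : ∀ k, C k → C (k + 1)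
  subset_s : ∀ k (U : C k), (U : Set X) ⊆ s k U
  /-- The countable dense subsets of the nerves. -/
  Z : ∀ k, Set (Nerve (C k))
  countable_Z : ∀ k, (Z k).Countable
  dense_Z : ∀ k, Dense (Z k)
  /-- The injections of index sets over the simplicial maps. -/
  J : ∀ k, Z k × ℕ ↪ Z (k + 1) × ℕ
  J_over : ∀ k a, ((J k a).1 : Nerve (C (k + 1))) = Nerve.map (s k) (subset_s k) a.1

namespace AntiCech

variable {X : Type} [MetricSpace X] (D : AntiCech X)

/-- The position map `Z k × ℕ → N_{C k}`; the module is `ℓ^p(Z k × ℕ) = ℓ^p(Z k, ℓ^p(ℕ))`. -/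
def pos (k : ℕ) : D.Z k × ℕ → Nerve (D.C k) := fun a => a.1

end AntiCech

end Pool.Agent.Work.MP_9ec65e_al
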