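import Mathlib

/-! The nerve of a cover with the `ℓ^1` path metric. -/

namespace Pool.Agent.Work.MP_9ec65e_al

open scoped NNReal ENNReal

variable {X : Type}

/-- The nerve of a family `C` of subsets of `X`: formal convex combinations `∑ t_U U` of finitely
many members of `C` that have a common point. -/
@[ext] structure Nerve (C : Set (Set X)) where
  /-- Barycentric coordinates. -/
  t : C →₀ ℝ
  nonneg : ∀ U, 0 ≤ t U
  sum_one : (t.sum fun _ a => a) = 1
  meet : ∃ x, ∀ U ∈ t.support, x ∈ (U : Set X)

namespace Nerve

variable {C C' : Set (Set X)}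

open Classical in
/-- The `ℓ^1` distance `∑ |t_U - s_U|` for two points of one simplex, and `∞` otherwise. -/
noncomputable def d0 (y z : Nerve C) : ℝ≥0∞ :=
  if ∃ x, (∀ U ∈ y.t.support, x ∈ (U : Set X)) ∧ ∀ U ∈ z.t.support, x ∈ (U : Set X) then
    ENNReal.ofReal ((y.t - z.t).sum fun _ a => |a|) else ∞

/-- The length of a chain of points from `y` to `z`. -/
noncomputable def chain : Nerve C → List (Nerve C) → Nerve C → ℝ≥0∞
  | y, [], z => d0 y z
  | y, w :: l, z => d0 y w + chain w l z

theorem d0_self (y : Nerve C) : d0 y y = 0 := by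
  obtain ⟨x, hx⟩ := y.meet
  rw [d0, if_pos ⟨x, hx, hx⟩]
  simp

theorem d0_comm (y z : Nerve C) : d0 y z = d0 z y := by
  classical
  have h : ((y.t - z.t).sum fun _ a => |a|) = (z.t - y.t).sum fun _ a => |a| := by
    rw [← neg_sub, Finsupp.sum_neg_index (fun _ => abs_zero)]
    simp
  rw [d0, d0, h]
  exact if_congr (exists_congr fun _ => and_comm) rfl rfl

theorem chain_append (y : Nerve C) (l : List (Nerve C)) (w : Nerve C) (l' : List (Nerve C))
    (z : Nerve C) : chain y (l ++ w :: l') z = chain y l w + chain w l' z := by
  induction l generalizing y with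
  | nil => rfl
  | cons a l ih => simp only [List.cons_append, chain, ih, add_assoc]

theorem chain_reverse (y : Nerve C) (l : List (Nerve C)) (z : Nerve C) :
    chain z l.reverse y = chain y l z := by
  induction l generalizing y with
  | nil => exact d0_comm _ _
  | cons a l ih => rw [List.reverse_cons, chain_append, ih, chain, chain, d0_comm, add_comm]

/-- The `ℓ^1` path metric: the infimum of the lengths of chains (`∞` between components). -/
noncomputable instance : PseudoEMetricSpace (Nerve C) where
  edist y z := ⨅ l, chain y l z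
  edist_self y := le_antisymm (iInf_le_of_le [] (d0_self y).le) zero_le
  edist_comm y z := le_antisymm
    (le_iInf fun l => iInf_le_of_le l.reverse (chain_reverse _ _ _).le)
    (le_iInf fun l => iInf_le_of_le l.reverse (chain_reverse _ _ _).le)
  edist_triangle y w z := ENNReal.le_iInf_add_iInf fun l l' =>
    iInf_le_of_le (l ++ w :: l') (chain_append _ _ _ _ _).le

/-- The simplicial map of nerves given by a map `s` of covers with `U ⊆ s U`. -/
noncomputable def map (s : C → C') (hs : ∀ U : C, (U : Set X) ⊆ s U) (y : Nerve C) : Nerve C' where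
  t := y.t.mapDomain s
  nonneg U := Finsupp.mapDomain_nonneg (fun V => y.nonneg V) U
  sum_one := by
    rw [Finsupp.sum_mapDomain_index (fun _ => rfl) (fun _ _ _ => rfl), y.sum_one]
  meet := by
    classical
    obtain ⟨x, hx⟩ := y.meet
    refine ⟨x, fun U hU => ?_⟩
    obtain ⟨V, hV, rfl⟩ := Finset.mem_image.1 (Finsupp.mapDomain_support hU)
    exact hs V (hx V hV)

end Nerve

end Pool.Agent.Work.MP_9ec65e_al
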