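import Pool.Agent.Work.MP_9ec65e_al.RoeDefs
import Pool.Agent.Work.MP_9ec65e_al.StBridge

-- merged part: Pool.Agent.Work.MP_9ec65e_al.Wind
section
/-! A winding number obstruction. -/

set_option linter.unusedSectionVars false
set_option backward.isDefEq.respectTransparency false

namespace Pool.Agent.Work.MP_9ec65e_al

open scoped NNReal ENNReal Topology BoundedContinuousFunction
open Filter

theorem const_of_exp {g : ℝ → ℂ} (hg : Continuous g) (h : ∀ x, Complex.exp (g x) = 1) (a b : ℝ) :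
    g a = g b :=
  Complex.isCoveringMap_exp.const_of_comp hg (fun a b => Subtype.ext ((h a).trans (h b).symm)) a b

theorem monodromy {H : ℝ × ℝ → ℂ} (hc : Continuous H) (h0 : ∀ z, H z ≠ 0) (h1 : ∀ s, H (s, 0) = 1)
    (h2 : ∀ s, H (s, 1) = 1) (h3 : ∀ θ, H (1, θ) = 1) {L : ℝ → ℂ} (hL : Continuous L)
    (hLe : ∀ θ, Complex.exp (L θ) = H (0, θ)) : L 1 = L 0 := by
  obtain ⟨G, ⟨-, hG⟩, -⟩ := Complex.isCoveringMapOn_exp.existsUnique_continuousMap_lifts
    ⟨H, hc⟩ (a₀ := (0, 0)) (e₀ := 0) (by simp [h1]) h0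
  have hG' : ∀ z, Complex.exp (G z) = H z := fun z => congrFun hG z
  have e1 := const_of_exp (g := fun s => G (s, 0)) (by fun_prop) (fun s => by rw [hG', h1]) 0 1
  have e2 := const_of_exp (g := fun s => G (s, 1)) (by fun_prop) (fun s => by rw [hG', h2]) 0 1
  have e3 := const_of_exp (g := fun s => G (1, s)) (by fun_prop) (fun s => by rw [hG', h3]) 0 1
  have e4 := const_of_exp (g := fun s => L s - G (0, s)) (by fun_prop)
    (fun s => by rw [Complex.exp_sub, hG', hLe, div_self (h0 _)]) 0 1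
  linear_combination e2 - e1 - e3 - e4

section Blk

variable {R : Type} [Ring R]

/-- Block diagonal element. -/
def blk (e a b : R) : R := (1 - e) * a + e * b

theorem blk_mul {e a b : R} (he : e * e = e) (ha : e * a = a * e) (hb : e * b = b * e) (c d : R) :
    blk e a b * blk e c d = blk e (a * c) (b * d) := by
  have h1 : ∀ y, e * (e * y) = e * y := fun y => by rw [← mul_assoc, he]
  have h2 : ∀ y, a * (e * y) = e * (a * y) := fun y => by rw [← mul_assoc, ← ha, mul_assoc]
  have h3 : ∀ y, b * (e * y) = e * (b * y) := fun y => by rw [← mul_assoc, ← hb, mul_assoc]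
  simp only [blk, mul_add, add_mul, sub_mul, mul_sub, one_mul, mul_assoc, h1, h2, h3]
  abel

theorem blk_self (e a : R) : blk e a a = a := by
  rw [blk, ← add_mul, sub_add_cancel, one_mul]

theorem comm_inv {e u u' : R} (h : e * u = u * e) (h1 : u * u' = 1) (h2 : u' * u = 1) :
    e * u' = u' * e := by
  calc e * u' = u' * u * e * u' := by rw [h2, one_mul]
    _ = u' * (e * u) * u' := by rw [h, mul_assoc u']
    _ = u' * e * (u * u') := by simp only [mul_assoc]
    _ = u' * e := by rw [h1, mul_one]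

theorem inverse_eq {u u' : R} (h1 : u * u' = 1) (h2 : u' * u = 1) : Ring.inverse u = u' :=
  Ring.inverse_unit ⟨u, u', h1, h2⟩

end Blk

/-- The open set of invertibles that almost commute with `M`. -/
def Good {B : Type} [NormedRing B] (M M' : B) : Set B :=
  {v | IsUnit v ∧ ‖v * M * Ring.inverse v * M' - 1‖ < 1}

theorem isOpen_good {B : Type} [NormedRing B] [CompleteSpace B] (M M' : B) : IsOpen (Good M M') := by
  refine isOpen_iff_mem_nhds.2 fun v hv => ?_
  obtain ⟨⟨u, rfl⟩, hv⟩ := hv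
  have h1 := NormedRing.inverse_continuousAt u
  have h2 : ContinuousAt (fun v : B => ‖v * M * Ring.inverse v * M' - 1‖) u := by fun_prop
  filter_upwards [Units.isOpen.mem_nhds u.isUnit, h2.eventually_lt continuousAt_const hv] with v a b
  exact ⟨a, b⟩

theorem continuous_inverse {B S : Type} [NormedRing B] [CompleteSpace B] [TopologicalSpace S]
    {v : S → B} (hv : Continuous v) (hu : ∀ s, IsUnit (v s)) :
    Continuous fun s => Ring.inverse (v s) := by
  refine continuous_iff_continuousAt.2 fun s => ?_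
  obtain ⟨u, hu⟩ := hu s
  exact ContinuousAt.comp (g := Ring.inverse) (hu ▸ NormedRing.inverse_continuousAt u)
    hv.continuousAt

variable {p : ℝ≥0} [hp : Fact (1 ≤ (p : ℝ≥0∞))] {I : Type}

theorem norm_entry_le (T : Op p I) (i j : I) : ‖entry T i j‖ ≤ ‖T‖ := by
  refine (lp.norm_apply_le_norm (lt_of_lt_of_le one_pos hp.out).ne' _ i).trans ?_
  simpa [norm_delta] using T.le_opNorm (delta p j)

theorem norm_chi_mul_le (S : Set I) (T : Op p I) : ‖chi p S * T‖ ≤ ‖T‖ :=
  (norm_mul_le _ _).trans (mul_le_of_le_one_left (norm_nonneg T) (norm_chi_le S))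

/-- Compression to a finite set of coordinates. -/
noncomputable def cmp (F : Finset I) (T : Op p I) : Matrix F F ℂ := Matrix.of fun i j => entry T i j

/-- The span of `F` is invariant. -/
def Invt (F : Finset I) (T : Op p I) : Prop := ∀ j ∈ F, ∀ k ∉ F, entry T k j = 0

theorem cmp_mul {F : Finset I} (a : Op p I) {b : Op p I} (hb : Invt F b) :
    cmp F (a * b) = cmp F a * cmp F b := by
  ext i j
  rw [Matrix.mul_apply]
  simp only [cmp, Matrix.of_apply]
  rw [Finset.sum_coe_sort F (fun k => entry a i k * entry b k j)]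
  exact apply_eq_sum a (b (delta p j)) i F (hb j j.2)

theorem cmp_mulOp [DecidableEq I] (F : Finset I) {φ : I → ℂ} (h : Bdd φ) :
    cmp F (mulOp p φ) = Matrix.diagonal fun i : F => φ i := by
  ext i j
  simp only [cmp, Matrix.of_apply, entry_mulOp h, Matrix.diagonal_apply, Subtype.ext_iff]

theorem cmp_one [DecidableEq I] (F : Finset I) : cmp F (1 : Op p I) = 1 := by
  ext i j
  simp only [cmp, Matrix.of_apply, entry_one, Matrix.one_apply, Subtype.ext_iff]

theorem continuous_cmp (F : Finset I) : Continuous (cmp F : Op p I → Matrix F F ℂ) :=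
  continuous_matrix fun _ _ => continuous_entry _ _

theorem invt_mulOp (F : Finset I) {φ : I → ℂ} (h : Bdd φ) : Invt F (mulOp p φ) := by
  classical
  intro j hj k hk
  rw [entry_mulOp h, if_neg]
  rintro rfl
  exact hk hj

theorem invt_of_form {F : Finset I} {d : Op p I} (h : (1 - chi p F) * d = 1 - chi p F) :
    Invt F d := by
  classical
  intro j hj k hk
  have e : d = 1 + chi p F * (d - 1) := by
    rw [mul_sub, mul_one, ← sub_eq_zero, ← sub_eq_zero.2 h]
    noncomm_ring
  rw [e, entry_add, entry_chi_mul, entry_one, if_neg (fun hh => hk (Finset.mem_coe.1 hh)), if_neg,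
    add_zero]
  rintro rfl
  exact hk hj

theorem form_inv {R : Type} [Ring R] {N c d : R} (h : N * c = N) (hcd : c * d = 1) : N * d = N := by
  rw [← h, mul_assoc, hcd, mul_one, h]

theorem det_cmp_mul [DecidableEq I] {F : Finset I} {c d : Op p I} (hcd : c * d = 1) (hd : Invt F d) :
    (cmp F c).det * (cmp F d).det = 1 := by
  rw [← Matrix.det_mul, ← cmp_mul c hd, hcd, cmp_one, Matrix.det_one]

theorem chi_mul_mulOp (S : Set I) {φ : I → ℂ} (h : Bdd φ) :
    chi p S * mulOp p φ = mulOp p φ * chi p S := by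
  refine clm_ext fun f i => ?_
  simp only [ContinuousLinearMap.mul_apply, mulOp_apply h]
  by_cases hi : i ∈ S
  · rw [chi_apply_mem _ hi, chi_apply_mem _ hi, mulOp_apply h]
  · rw [chi_apply_not _ hi, chi_apply_not _ hi, mul_zero]

theorem bdd_unit {f : I → ℂ} (hf : ∀ i, ‖f i‖ = 1) : Bdd f := bdd_of_le fun i => (hf i).le

theorem bdd_unit_inv {f : I → ℂ} (hf : ∀ i, ‖f i‖ = 1) : Bdd f⁻¹ :=
  bdd_unit fun i => by simp [hf i]

theorem mulOp_mul_inv {f : I → ℂ} (hf : ∀ i, ‖f i‖ = 1) : mulOp p f * mulOp p f⁻¹ = 1 := by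
  rw [mulOp_mul (bdd_unit hf) (bdd_unit_inv hf), ← mulOp_one]
  congr 1
  funext i
  exact mul_inv_cancel₀ (norm_ne_zero_iff.1 (by simp [hf i]))

theorem wind_fin (F : Finset I) {f : I → ℂ} (hf : ∀ i, ‖f i‖ = 1) {v : ℝ → Op p I}
    (hv : Continuous v) (hg : ∀ s, v s ∈ Good (mulOp p f) (mulOp p f⁻¹))
    (hF : ∀ s, (1 - chi p F) * v s = 1 - chi p F) (h1 : v 1 = 1) {a : I → ℝ}
    (ha : ∀ i, |a i| < Real.pi)
    (h0 : v 0 * mulOp p f = mulOp p (fun i => f i * Complex.exp (a i * Complex.I)) * v 0) :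
    ∑ i ∈ F, a i = 0 := by
  classical
  let M := mulOp p f
  let M' := mulOp p f⁻¹
  have hMM : M * M' = 1 := mulOp_mul_inv hf
  let N : Op p I := 1 - chi p F
  have hNM : N * M = M * N := by
    simp only [N, sub_mul, mul_sub, one_mul, mul_one, M, chi_mul_mulOp _ (bdd_unit hf)]
  let c : ℝ → Op p I := fun s => v s * M * Ring.inverse (v s) * M'
  have hvi : ∀ s, v s * Ring.inverse (v s) = 1 := fun s => Ring.mul_inverse_cancel _ (hg s).1
  have hNc : ∀ s, N * c s = N := fun s => by
    simp only [c, ← mul_assoc]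
    rw [hF, hNM, mul_assoc M, form_inv (hF s) (hvi s), ← hNM, mul_assoc, hMM, mul_one]
  have hcc : Continuous c := by
    have := continuous_inverse hv fun s => (hg s).1
    fun_prop
  let cl : ℝ → ℝ := fun θ => (Set.projIcc (0 : ℝ) 1 zero_le_one θ : ℝ)
  have hcl : Continuous cl := continuous_subtype_val.comp continuous_projIcc
  have hcl1 : ∀ θ, ‖(cl θ : ℂ)‖ ≤ 1 := fun θ => by
    rw [Complex.norm_real, Real.norm_eq_abs, abs_of_nonneg (Set.projIcc _ _ _ θ).2.1]
    exact (Set.projIcc _ _ _ θ).2.2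
  have hcl0 : cl 0 = 0 := by simp [cl]
  have hcl1' : cl 1 = 1 := by simp [cl]
  let e : I → ℂ := fun i => Complex.exp (a i * Complex.I)
  have he : ∀ i, ‖e i‖ = 1 := fun i => Complex.norm_exp_ofReal_mul_I _
  have hc0 : c 0 = mulOp p e := by
    have hb : Bdd fun i => f i * Complex.exp (a i * Complex.I) := (bdd_unit hf).mul (bdd_unit he)
    simp only [c]
    rw [h0, mul_assoc _ (v 0), hvi, mul_one, mulOp_mul hb (bdd_unit_inv hf)]
    congr 1
    funext i
    have : f i ≠ 0 := norm_ne_zero_iff.1 (by simp [hf i])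
    simp only [Pi.mul_apply, Pi.inv_apply, e]
    field_simp
  have he1 : ∀ i, ‖e i - 1‖ < 1 := fun i => by
    have h2 := (norm_entry_le (c 0 - 1) i i).trans_lt (hg 0).2
    rwa [hc0, entry_sub, entry_mulOp (bdd_unit he), entry_one, if_pos rfl, if_pos rfl] at h2
  have hsl : ∀ θ i, 1 + (cl θ : ℂ) * (e i - 1) ∈ Complex.slitPlane := fun θ i =>
    Complex.mem_slitPlane_of_norm_lt_one (by
      rw [norm_mul]
      exact mul_lt_one_of_nonneg_of_lt_one_right (hcl1 θ) (norm_nonneg _) (he1 i))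
  have key := monodromy (H := fun z => (cmp F (1 + (cl z.2 : ℂ) • (c z.1 - 1))).det)
    (L := fun θ => ∑ i ∈ F, Complex.log (1 + (cl θ : ℂ) * (e i - 1)))
    (((continuous_cmp F).comp (by fun_prop)).matrix_det) (fun z => ?_) (fun s => ?_) (fun s => ?_)
    (fun θ => ?_) (continuous_finsetSum _ fun i _ => Continuous.clog (by fun_prop) fun θ => hsl θ i)
    (fun θ => ?_)
  · simp only [hcl0, hcl1', Complex.ofReal_one, one_mul, add_sub_cancel, Complex.ofReal_zero,
      zero_mul, add_zero, Complex.log_one, Finset.sum_const_zero, e] at key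
    rw [Finset.sum_congr rfl fun i _ => Complex.log_exp (x := a i * Complex.I)
      (by simpa using (abs_lt.1 (ha i)).1) (by simpa using (abs_lt.1 (ha i)).2.le),
      ← Finset.sum_mul] at key
    exact_mod_cast (mul_eq_zero.1 key).resolve_right Complex.I_ne_zero
  · have hn : ‖-((cl z.2 : ℂ) • (c z.1 - 1))‖ < 1 := by
      rw [norm_neg, norm_smul]
      exact mul_lt_one_of_nonneg_of_lt_one_right (hcl1 _) (norm_nonneg _) (hg z.1).2
    have hu := (Units.oneSub _ hn).mul_inv
    rw [Units.val_oneSub, sub_neg_eq_add] at hu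
    have hN : N * (1 + (cl z.2 : ℂ) • (c z.1 - 1)) = N := by
      rw [mul_add, mul_smul_comm, mul_sub, hNc]
      simp
    exact left_ne_zero_of_mul_eq_one (det_cmp_mul hu (invt_of_form (form_inv hN hu)))
  · simp [hcl0, cmp_one]
  · simp only [hcl1', Complex.ofReal_one, one_smul, add_sub_cancel, c]
    have i1 : Invt F M := invt_mulOp F (bdd_unit hf)
    have i2 : Invt F M' := invt_mulOp F (bdd_unit_inv hf)
    have i3 : Invt F (Ring.inverse (v s)) := invt_of_form (form_inv (hF s) (hvi s))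
    rw [cmp_mul _ i2, cmp_mul _ i3, cmp_mul _ i1, Matrix.det_mul, Matrix.det_mul, Matrix.det_mul]
    linear_combination (cmp F M).det * (cmp F M').det * det_cmp_mul (hvi s) i3 + det_cmp_mul hMM i2
  · simp [c, h1, hMM, cmp_one]
  · have hb : Bdd fun i => 1 + (cl θ : ℂ) * (e i - 1) := bdd_of_le (C := 2) fun i => by
      refine (norm_add_le _ _).trans ?_
      rw [norm_mul, norm_one]
      nlinarith [hcl1 θ, he1 i, norm_nonneg (e i - 1), norm_nonneg (cl θ : ℂ)]
    have e2 : 1 + (cl θ : ℂ) • (c 0 - 1) = mulOp p fun i => 1 + (cl θ : ℂ) * (e i - 1) := by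
      refine op_ext fun i j => ?_
      simp only [hc0, entry_add, entry_smul, entry_sub, entry_one, entry_mulOp hb,
        entry_mulOp (bdd_unit he)]
      split_ifs <;> simp
    simp only [e2, cmp_mulOp F hb, Matrix.det_diagonal, Complex.exp_sum]
    rw [Finset.prod_coe_sort F (fun i => 1 + (cl θ : ℂ) * (e i - 1))]
    exact Finset.prod_congr rfl fun i _ => Complex.exp_log (Complex.slitPlane_ne_zero (hsl θ i))

theorem wind_compact (D : Finset I) {f : I → ℂ} (hf : ∀ i, ‖f i‖ = 1) {k : unitInterval → Op p I}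
    (hk : Continuous k) (hkc : ∀ s, IsCompactOperator (k s))
    (hg : ∀ s, 1 + k s ∈ Good (mulOp p f) (mulOp p f⁻¹)) (h1 : k 1 = 0) (hD : chi p D * k 0 = k 0)
    {a : I → ℝ} (ha : ∀ i, |a i| < Real.pi) (haD : ∀ i ∉ D, a i = 0)
    (h0 : (1 + k 0) * mulOp p f =
      mulOp p (fun i => f i * Complex.exp (a i * Complex.I)) * (1 + k 0)) :
    ∑ i ∈ D, a i = 0 := by
  have h2 : {z : Finset I × unitInterval | 1 + chi p z.1 * k z.2 ∈ Good (mulOp p f) (mulOp p f⁻¹)}
      ∈ atTop ×ˢ 𝓝ˢ Set.univ := by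
    refine isCompact_univ.mem_prod_nhdsSet_of_forall fun s _ => ?_
    have h3 : Tendsto (fun z : Finset I × unitInterval => chi p z.1 * (k z.2 - k s))
        (atTop ×ˢ 𝓝 s) (𝓝 0) := by
      refine squeeze_zero_norm (a := fun z => ‖k z.2 - k s‖) 
        (fun z => norm_chi_mul_le (z.1 : Set I) (k z.2 - k s)) ?_
      have h6 : Continuous fun t => ‖k t - k s‖ := (hk.sub continuous_const).norm
      have h7 := (h6.tendsto s).comp (tendsto_snd (f := (atTop : Filter (Finset I))))
      rw [sub_self, norm_zero] at h7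
      exact h7
    have h4 := ((tendsto_chi_mul (hkc s)).comp (tendsto_fst (g := 𝓝 s))).add h3
    have h5 : Tendsto (fun z : Finset I × unitInterval => 1 + chi p z.1 * k z.2)
        (atTop ×ˢ 𝓝 s) (𝓝 (1 + k s)) := by
      refine tendsto_const_nhds.add ?_
      rw [add_zero] at h4
      refine h4.congr fun z => ?_
      change chi p z.1 * k s + chi p z.1 * (k z.2 - k s) = _
      rw [← mul_add, add_sub_cancel]
    exact h5 ((isOpen_good _ _).mem_nhds (hg s))
  obtain ⟨F, hF, hDF⟩ := ((Filter.Eventually.curry h2).and (eventually_ge_atTop D)).exists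
  have hF' : ∀ s, 1 + chi p F * k s ∈ Good (mulOp p f) (mulOp p f⁻¹) := fun s =>
    hF.self_of_nhdsSet s trivial
  have hk0 : chi p F * k 0 = k 0 := by
    rw [← hD, ← mul_assoc, chi_mul_chi, Set.inter_eq_right.2 (Finset.coe_subset.2 hDF)]
  have := wind_fin F hf (v := fun s => 1 + chi p F * k (Set.projIcc 0 1 zero_le_one s))
    (by have := continuous_projIcc (a := (0 : ℝ)) (b := 1) (h := zero_le_one); fun_prop)
    (fun s => hF' _) (fun s => by
      rw [mul_add, mul_one, ← mul_assoc, sub_mul, chi_mul_chi]; simp) (by simp [h1]) ha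
    (by simpa [hk0] using h0)
  rw [← this]
  exact Finset.sum_subset hDF fun i _ hi => haD i hi

private theorem wind_loc_ring {R : Type} [Ring R] {e x u M M' : R} (he : e * e = e)
    (hW : e * x = x * e) (hU1 : (1 + x) * u = 1) (hU2 : u * (1 + x) = 1) (heM : e * M = M * e)
    (hMM : M * M' = 1) : IsUnit (1 + e * x) ∧
      (1 + e * x) * M * Ring.inverse (1 + e * x) * M' - 1 = e * ((1 + x) * M * u * M' - 1) := by
  have heu : e * (1 + x) = (1 + x) * e := by rw [mul_add, add_mul, hW, mul_one, one_mul]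
  have heu' := comm_inv heu hU1 hU2
  have he1 : e * 1 = 1 * e := by rw [mul_one, one_mul]
  have e1 : 1 + e * x = blk e 1 (1 + x) := by
    simp only [blk]
    noncomm_ring
  have i1 : blk e 1 (1 + x) * blk e 1 u = 1 := by
    rw [blk_mul he he1 heu, hU1, mul_one, blk_self]
  have i2 : blk e 1 u * blk e 1 (1 + x) = 1 := by
    rw [blk_mul he he1 heu', hU2, mul_one, blk_self]
  rw [e1]
  refine ⟨⟨⟨_, _, i1, i2⟩, rfl⟩, ?_⟩
  rw [inverse_eq i1 i2]
  have h7 : e * ((1 + x) * M) = (1 + x) * M * e := by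
    rw [← mul_assoc, heu, mul_assoc, heM, mul_assoc]
  have h8 : e * ((1 + x) * M * u) = (1 + x) * M * u * e := by
    rw [← mul_assoc, h7, mul_assoc, heu', ← mul_assoc]
  nth_rw 1 [← blk_self e M, ← blk_self e M']
  rw [blk_mul he he1 heu, one_mul, blk_mul he heM h7, mul_one, blk_mul he heM h8, hMM]
  simp only [blk]
  noncomm_ring

private theorem wind_loc_ring2 {R : Type} [Ring R] {x u M M' : R} (hU1 : (1 + x) * u = 1)
    (hMM : M * M' = 1) : (1 + x) * M * u * M' - 1 = -(M * x - x * M) * u * M' := by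
  have e0 : M * ((1 + x) * u) * M' = 1 := by rw [hU1, mul_one, hMM]
  calc _ = (1 + x) * M * u * M' - M * ((1 + x) * u) * M' := by rw [e0]
    _ = _ := by noncomm_ring

theorem wind_loc (W : Set I) {f : I → ℂ} (hf : ∀ i, ‖f i‖ = 1) {x : unitInterval → Fn (Op p I)}
    (hx : Continuous x) (hu : ∀ s, IsUnit (1 + x s)) (h1 : x 1 = 0)
    (hW : ∀ s t, chi p W * x s t = x s t * chi p W)
    (hc : ∀ s t, IsCompactOperator (chi p W * x s t))
    (hM : ∀ s, Tendsto (fun t => mulOp p f * x s t - x s t * mulOp p f) atTop (𝓝 0)) :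
    ∀ᶠ t in atTop, ∀ (D : Finset I) (a : I → ℝ), chi p D * (chi p W * x 0 t) = chi p W * x 0 t →
      (∀ i, |a i| < Real.pi) → (∀ i ∉ D, a i = 0) → (1 + chi p W * x 0 t) * mulOp p f =
        mulOp p (fun i => f i * Complex.exp (a i * Complex.I)) * (1 + chi p W * x 0 t) →
      ∑ i ∈ D, a i = 0 := by
  let M := mulOp p f
  let M' := mulOp p f⁻¹
  have hMM : M * M' = 1 := mulOp_mul_inv hf
  let cM : Fn (Op p I) := BoundedContinuousFunction.const ℝ≥0 M
  let cM' : Fn (Op p I) := BoundedContinuousFunction.const ℝ≥0 M'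
  let U' : unitInterval → Fn (Op p I) := fun s => Ring.inverse (1 + x s)
  have hU1 : ∀ s t, (1 + x s t) * U' s t = 1 := fun s t =>
    congrArg (fun g : Fn (Op p I) => g t) (Ring.mul_inverse_cancel _ (hu s))
  have hU2 : ∀ s t, U' s t * (1 + x s t) = 1 := fun s t =>
    congrArg (fun g : Fn (Op p I) => g t) (Ring.inverse_mul_cancel _ (hu s))
  let C : unitInterval → Fn (Op p I) := fun s => (1 + x s) * cM * U' s * cM' - 1
  have hCt : ∀ s t, C s t = (1 + x s t) * M * U' s t * M' - 1 := fun _ _ => rfl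
  have hCc : Continuous C := by
    have : Continuous U' := continuous_inverse (by fun_prop) hu
    fun_prop
  have hC0 : ∀ s, Tendsto (C s) atTop (𝓝 0) := fun s => by
    have e : ∀ t, C s t = -(M * x s t - x s t * M) * U' s t * M' := fun t =>
      (hCt s t).trans (wind_loc_ring2 (hU1 s t) hMM)
    refine squeeze_zero_norm (a := fun t => ‖M * x s t - x s t * M‖ * ‖U' s‖ * ‖M'‖) (fun t => ?_) ?_
    · rw [e]
      refine (norm_mul_le _ _).trans (mul_le_mul_of_nonneg_right ((norm_mul_le _ _).trans ?_)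
        (norm_nonneg _))
      rw [norm_neg]
      exact mul_le_mul_of_nonneg_left ((U' s).norm_coe_le_norm t) (norm_nonneg _)
    · simpa using ((hM s).norm.mul_const ‖U' s‖).mul_const ‖M'‖
  have h2 : {z : ℝ≥0 × unitInterval | ‖C z.2 z.1‖ < 1} ∈ atTop ×ˢ 𝓝ˢ Set.univ := by
    refine isCompact_univ.mem_prod_nhdsSet_of_forall fun s _ => ?_
    filter_upwards [prod_mem_prod (Metric.tendsto_nhds.1 (hC0 s) (1 / 2) (by norm_num))
      (Metric.tendsto_nhds.1 (hCc.tendsto s) (1 / 2) (by norm_num))] with z hz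
    have h3 := BoundedContinuousFunction.dist_coe_le_dist (f := C z.2) (g := C s) z.1
    have h4 := dist_triangle (C z.2 z.1) (C s z.1) 0
    have h5 : dist (C s z.1) 0 < 1 / 2 := hz.1
    have h6 : dist (C z.2) (C s) < 1 / 2 := hz.2
    rw [← dist_zero_right]
    linarith
  filter_upwards [Filter.Eventually.curry h2] with t ht D a hD ha haD h0
  have ht' : ∀ s, ‖C s t‖ < 1 := fun s => ht.self_of_nhdsSet s trivial
  refine wind_compact D hf (k := fun s => chi p W * x s t) (by fun_prop) (fun s => hc s t)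
    (fun s => ?_) (by simp [h1]) hD ha haD h0
  obtain ⟨i1, e2⟩ := wind_loc_ring (e := chi p W) (by rw [chi_mul_chi, Set.inter_self]) (hW s t)
    (hU1 s t) (hU2 s t) (chi_mul_mulOp W (bdd_unit hf)) hMM
  refine ⟨i1, ?_⟩
  exact (congrArg norm e2).trans_lt (lt_of_le_of_lt (norm_chi_mul_le _ _) (ht' s))

end Pool.Agent.Work.MP_9ec65e_al
end

-- merged part: Pool.Agent.Work.MP_9ec65e_al.NonTriv
section
/-! A criterion for a class in `K_1` of a localization algebra to be nonzero. -/

set_option linter.unusedSectionVars false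
set_option backward.isDefEq.respectTransparency false

namespace Pool.Agent.Work.MP_9ec65e_al

open scoped NNReal ENNReal Topology BoundedContinuousFunction
open Filter

variable {p : ℝ≥0} [hp : Fact (1 ≤ (p : ℝ≥0∞))] {I I' : Type}

/-- Winding data of an operator. -/
def Wdata (W : Set I) (f : I → ℂ) (T : Op p I) : Prop :=
  ∃ (D : Finset I) (a : I → ℝ), chi p D * (chi p W * T) = chi p W * T ∧
    (∀ i, |a i| < Real.pi) ∧ (∀ i ∉ D, a i = 0) ∧ (1 + chi p W * T) * mulOp p f =
      mulOp p (fun i => f i * Complex.exp (a i * Complex.I)) * (1 + chi p W * T) ∧ ∑ i ∈ D, a i ≠ 0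

theorem Wdata.ad (J : I ↪ I') {W : Set I'} {f : I' → ℂ} (hf : ∀ i, ‖f i‖ = 1) {T : Op p I}
    (h : Wdata (J ⁻¹' W) (f ∘ J) T) : Wdata W f (ad p J T) := by
  classical
  obtain ⟨D, a, h1, h2, h3, h4, h5⟩ := h
  have hb : ∀ {K : Type} {g : K → ℂ} (b : K → ℝ), (∀ i, ‖g i‖ = 1) →
      Bdd fun i => g i * Complex.exp (b i * Complex.I) := fun b hg =>
    bdd_unit fun i => by rw [norm_mul, hg, Complex.norm_exp_ofReal_mul_I, one_mul]
  have hf' : ∀ i, ‖(f ∘ J) i‖ = 1 := fun i => hf _
  have hout : ∀ i, (¬ ∃ j, J j = i) → Function.extend J a 0 i = 0 := fun i hi =>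
    Function.extend_apply' _ _ _ hi
  refine ⟨D.map J, Function.extend J a 0, ?_, fun i => ?_, fun i hi => ?_, ?_, ?_⟩
  · rw [chi_mul_ad, chi_mul_ad, Finset.coe_map, Set.preimage_image_eq _ J.injective, h1]
  · by_cases hi : ∃ j, J j = i
    · obtain ⟨j, rfl⟩ := hi
      rw [J.injective.extend_apply]
      exact h2 j
    · rw [hout i hi, abs_zero]
      exact Real.pi_pos
  · by_cases hi' : ∃ j, J j = i
    · obtain ⟨j, rfl⟩ := hi'
      rw [J.injective.extend_apply]
      exact h3 j fun hj => hi (Finset.mem_map_of_mem J hj)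
    · exact hout i hi'
  · rw [chi_mul_ad]
    refine op_ext fun i j => ?_
    rw [entry_mul_mulOp (bdd_unit hf), entry_mulOp_mul (hb _ hf), entry_add, entry_one]
    by_cases hi : ∃ k, J k = i
    · obtain ⟨i, rfl⟩ := hi
      by_cases hj : ∃ k, J k = j
      · obtain ⟨j, rfl⟩ := hj
        have := congrArg (fun S => entry S i j) h4
        simp only [entry_mul_mulOp (bdd_unit hf'), entry_mulOp_mul (hb _ hf'), entry_add,
          entry_one] at this
        rw [entry_ad, J.injective.extend_apply]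
        simpa using this
      · rw [entry_ad_right _ _ _ hj, if_neg fun hh => hj ⟨i, hh⟩]
        simp
    · rw [entry_ad_left _ _ _ hi, hout i hi]
      by_cases hij : i = j
      · simp [hij]
      · simp [hij]
  · rw [Finset.sum_map]
    simpa only [J.injective.extend_apply] using h5

variable {N : ℕ}

/-- The `k`-th copy. -/
def emb (k : Fin N) : I ↪ Fin N × I := ⟨fun i => (k, i), fun _ _ h => (Prod.ext_iff.1 h).2⟩

variable (p) in
/-- An operator placed in the block `(k, l)`. -/
noncomputable def bo (k l : Fin N) : Op p I →+ Op p (Fin N × I) where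
  toFun T := (ext p (emb k)).comp (T.comp (res p (emb l)))
  map_zero' := by simp
  map_add' S T := by simp [ContinuousLinearMap.add_comp, ContinuousLinearMap.comp_add]

theorem bo_apply (k l : Fin N) (T : Op p I) :
    bo p k l T = (ext p (emb k)).comp (T.comp (res p (emb l))) := rfl

theorem norm_bo_le (k l : Fin N) (T : Op p I) : ‖bo p k l T‖ ≤ ‖T‖ := by
  rw [bo_apply]
  have h1 := (ext p (emb k)).opNorm_comp_le (T.comp (res p (emb l)))
  have h2 := T.opNorm_comp_le (res p (emb l))
  have h3 := norm_ext_le (p := p) (emb k : I ↪ Fin N × I)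
  have h4 := norm_res_le (p := p) (emb l : I ↪ Fin N × I)
  have h5 : ‖T.comp (res p (emb l))‖ ≤ ‖T‖ := h2.trans (mul_le_of_le_one_right (norm_nonneg _) h4)
  exact h1.trans ((mul_le_of_le_one_left (norm_nonneg _) h3).trans h5)

theorem lipschitz_bo (k l : Fin N) : LipschitzWith 1 (bo p k l : Op p I → Op p (Fin N × I)) :=
  LipschitzWith.of_dist_le_mul fun S T => by
    rw [dist_eq_norm, dist_eq_norm, ← map_sub, NNReal.coe_one, one_mul]
    exact norm_bo_le k l _

theorem res_ext_ne {k l : Fin N} (h : k ≠ l) (f : Ell p I) :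
    res p (emb k) (ext p (emb l) f) = 0 := by
  refine lp.ext (funext fun i => ?_)
  rw [res_apply, ext_apply_not]
  · rfl
  · rintro ⟨j, hj⟩
    exact h (Prod.ext_iff.1 hj).1.symm

theorem bo_mul (k l l' m : Fin N) (S T : Op p I) :
    bo p k l S * bo p l' m T = if l = l' then bo p k m (S * T) else 0 := by
  refine ContinuousLinearMap.ext fun f => ?_
  split_ifs with h
  · subst h
    simp [bo_apply, res_ext_apply]
  · simp [bo_apply, res_ext_ne h]

theorem chi_mul_bo (k l : Fin N) (W : Set I) (T : Op p I) :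
    chi p (Prod.snd ⁻¹' W) * bo p k l T = bo p k l (chi p W * T) := by
  change (chi p (Prod.snd ⁻¹' W)).comp ((ext p (emb k)).comp (T.comp (res p (emb l)))) =
    (ext p (emb k)).comp (((chi p W).comp T).comp (res p (emb l)))
  rw [← ContinuousLinearMap.comp_assoc, chi_ext]
  rfl

theorem bo_mul_chi (k l : Fin N) (W : Set I) (T : Op p I) :
    bo p k l T * chi p (Prod.snd ⁻¹' W) = bo p k l (T * chi p W) := by
  change ((ext p (emb k)).comp (T.comp (res p (emb l)))).comp (chi p (Prod.snd ⁻¹' W)) =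
    (ext p (emb k)).comp ((T.comp (chi p W)).comp (res p (emb l)))
  rw [ContinuousLinearMap.comp_assoc, ContinuousLinearMap.comp_assoc, res_chi]
  rfl

theorem mulOp_mul_bo (k l : Fin N) {f : I → ℂ} (hf : Bdd f) (T : Op p I) :
    mulOp p (f ∘ Prod.snd) * bo p k l T = bo p k l (mulOp p f * T) := by
  obtain ⟨C, hC⟩ := id hf
  refine clm_ext fun g i => ?_
  rw [ContinuousLinearMap.mul_apply, mulOp_apply (φ := f ∘ Prod.snd) ⟨C, fun i => hC _⟩]
  simp only [bo_apply, ContinuousLinearMap.comp_apply, ContinuousLinearMap.mul_apply]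
  by_cases hi : ∃ j, emb k j = i
  · obtain ⟨j, rfl⟩ := hi
    rw [ext_apply, ext_apply, mulOp_apply hf]
    rfl
  · rw [ext_apply_not _ _ hi, ext_apply_not _ _ hi, mul_zero]

theorem bo_mul_mulOp (k l : Fin N) {f : I → ℂ} (hf : Bdd f) (T : Op p I) :
    bo p k l T * mulOp p (f ∘ Prod.snd) = bo p k l (T * mulOp p f) := by
  obtain ⟨C, hC⟩ := id hf
  refine ContinuousLinearMap.ext fun g => ?_
  simp only [bo_apply, ContinuousLinearMap.comp_apply, ContinuousLinearMap.mul_apply]
  congr 2
  refine lp.ext (funext fun i => ?_)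
  rw [res_apply, mulOp_apply (φ := f ∘ Prod.snd) ⟨C, fun i => hC _⟩, mulOp_apply hf]
  rfl

theorem compact_bo (k l : Fin N) {T : Op p I} (h : IsCompactOperator T) :
    IsCompactOperator (bo p k l T) := (h.comp_clm (res p (emb l))).clm_comp (ext p (emb k))

variable {Y : Type} [PseudoEMetricSpace Y] {ι : I → Y}

/-- A matrix over the localization algebra as a path of operators. -/
noncomputable def psi (x : Matrix (Fin N) (Fin N) (Loc p ι)) : Fn (Op p (Fin N × I)) :=
  ∑ k, ∑ l, (x k l).1.comp (bo p k l) (lipschitz_bo k l)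

theorem psi_apply (x : Matrix (Fin N) (Fin N) (Loc p ι)) (t : ℝ≥0) :
    psi x t = ∑ k, ∑ l, bo p k l ((x k l).1 t) := by
  simp only [psi, BoundedContinuousFunction.coe_sum, Finset.sum_apply]
  rfl

theorem psi_zero : psi (0 : Matrix (Fin N) (Fin N) (Loc p ι)) = 0 := by
  ext1 t
  simp [psi_apply]

theorem psi_add (x y : Matrix (Fin N) (Fin N) (Loc p ι)) : psi (x + y) = psi x + psi y := by
  ext1 t
  simp [psi_apply, Finset.sum_add_distrib]

theorem psi_mul (x y : Matrix (Fin N) (Fin N) (Loc p ι)) : psi (x * y) = psi x * psi y := by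
  ext1 t
  rw [BoundedContinuousFunction.mul_apply, psi_apply, psi_apply, psi_apply, Finset.sum_mul]
  refine Finset.sum_congr rfl fun k _ => ?_
  simp only [Finset.sum_mul, Finset.mul_sum, bo_mul]
  have e : ∀ m, (((x * y) k m).1 t) = ∑ l, (x k l).1 t * (y l m).1 t := fun m => by
    rw [Matrix.mul_apply, AddSubmonoidClass.coe_finsetSum, BoundedContinuousFunction.coe_sum,
      Finset.sum_apply]
    rfl
  simp only [e, map_sum]
  rw [Finset.sum_comm]
  refine Finset.sum_congr rfl fun l _ => ?_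
  rw [Finset.sum_comm]
  simp

theorem continuous_psi : Continuous (psi : Matrix (Fin N) (Fin N) (Loc p ι) → _) :=
  continuous_finsetSum _ fun k _ => continuous_finsetSum _ fun l _ =>
    (BoundedContinuousFunction.continuous_comp (lipschitz_bo k l)).comp
      (continuous_subtype_val.comp (continuous_apply_apply k l))

theorem isUnit_psi {x : Matrix (Fin N) (Fin N) (Loc p ι)} (hx : x ∈ GLset (Loc p ι) N) :
    IsUnit (1 + psi x) := by
  obtain ⟨y, h1, h2⟩ := isQuasiregular_iff.1 hx
  refine (isQuasiregular_iff.2 ⟨psi y, ?_, ?_⟩).isUnit_one_add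
  · rw [← psi_mul, ← psi_add, ← psi_add, h1, psi_zero]
  · rw [← psi_mul, ← psi_add, ← psi_add, h2, psi_zero]

theorem psi_pad (hN : 1 ≤ N) (α : Loc p ι) (t : ℝ≥0) :
    psi (pad N (sc α)) t = ad p (emb (⟨0, hN⟩ : Fin N)) (α.1 t) := by
  rw [psi_apply, Finset.sum_eq_single ⟨0, hN⟩, Finset.sum_eq_single ⟨0, hN⟩]
  · rfl
  · intro l _ hl
    have : ¬ l.1 = 0 := fun h => hl (Fin.ext h)
    simp [pad, this]
  · simp
  · intro k _ hk
    have : ¬ k.1 = 0 := fun h => hk (Fin.ext h)
    simp [pad, this]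
  · simp

theorem cls_ne_zero {W K : Set Y} (hK : IsCompact K) (hWK : W ⊆ K)
    (hW : ∀ y ∈ W, ∀ y' ∉ W, edist y y' = ∞) {g : Y → ℂ} (hg : ∀ y, ‖g y‖ = 1) {L : ℝ≥0}
    (hL : LipschitzWith L g) {α : Loc p ι} (hα : IsQuasiregular α)
    (h : ∃ᶠ t in atTop, Wdata (ι ⁻¹' W) (g ∘ ι) (α.1 t)) : cls α hα ≠ cls 0 qr_zero := by
  intro hc
  obtain ⟨N, hN, γ, hγ⟩ := joined_of_cls_eq hc
  have hb : Bdd (g ∘ ι) := bdd_unit fun i => hg _
  have key := wind_loc (p := p) (Prod.snd ⁻¹' (ι ⁻¹' W) : Set (Fin N × I))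
    (f := (g ∘ ι) ∘ Prod.snd) (fun i => hg _) (x := fun s => psi (γ s))
    (continuous_psi.comp γ.continuous) (fun s => isUnit_psi (hγ s))
    (by simp only [γ.target, psi_zero]) (fun s t => ?_) (fun s t => ?_) (fun s => ?_)
  · obtain ⟨t, h1, h2⟩ := (h.and_eventually key).exists
    simp only [γ.source, psi_pad hN] at h2
    obtain ⟨D, a, h3, h4, h5, h6, h7⟩ := Wdata.ad (emb (⟨0, hN⟩ : Fin N))
      (W := Prod.snd ⁻¹' (ι ⁻¹' W)) (f := (g ∘ ι) ∘ Prod.snd) (fun i => hg _) h1
    exact h7 (h2 D a h3 h4 h5 h6)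
  · simp only [psi_apply, Finset.mul_sum, Finset.sum_mul, chi_mul_bo, bo_mul_chi]
    refine Finset.sum_congr rfl fun k _ => Finset.sum_congr rfl fun l _ => ?_
    rw [Roe.chi_comm hW (Loc.apply_mem (γ s k l).2 t)]
  · simp only [psi_apply, Finset.mul_sum, chi_mul_bo]
    refine (compactOperator (RingHom.id ℂ) (Ell p _) (Ell p _)).sum_mem fun k _ =>
      (compactOperator (RingHom.id ℂ) (Ell p _) (Ell p _)).sum_mem fun l _ => ?_
    exact compact_bo k l (Roe.chi_compact hK hWK (Loc.apply_mem (γ s k l).2 t))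
  · simp only [psi_apply, Finset.mul_sum, Finset.sum_mul, mulOp_mul_bo _ _ hb, bo_mul_mulOp _ _ hb,
      ← Finset.sum_sub_distrib, ← map_sub]
    have : (0 : Op p (Fin N × I)) = ∑ k : Fin N, ∑ l : Fin N, bo p k l (0 : Op p I) := by simp
    rw [this]
    exact tendsto_finsetSum _ fun k _ => tendsto_finsetSum _ fun l _ =>
      ((lipschitz_bo k l).continuous.tendsto 0).comp (Loc.tendsto_comm hL hb (γ s k l).2)

end Pool.Agent.Work.MP_9ec65e_al
end
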