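import Pool.Agent.Work.MP_9ec65e_al.StBridge
import Pool.Agent.Work.MP_9ec65e_al.NerveDefs
import Pool.Agent.Work.MP_9ec65e_al.RoeDefs
import Pool.Agent.Work.MP_9ec65e_al.AntiDefs
import Pool.Agent.Work.MP_9ec65e_al.NonTriv

-- merged part: Pool.Agent.Work.MP_9ec65e_al.Vanish
section
/-! The shift along the loops is null-homotopic in the Roe algebra of the coarse model. -/

set_option linter.unusedSectionVars false
set_option backward.isDefEq.respectTransparency false

namespace Pool.Agent.Work.MP_9ec65e_al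

open scoped NNReal ENNReal Topology BigOperators
open Filter

section Perms

variable {β : ℕ → Type}

/-- Shift of the loop coordinate by an amount depending on the level. -/
noncomputable def sh (c : ∀ n, β n → Fq n) : Equiv.Perm (Σ n, Fq n × β n) where
  toFun i := ⟨i.1, i.2.1 + c i.1 i.2.2, i.2.2⟩
  invFun i := ⟨i.1, i.2.1 - c i.1 i.2.2, i.2.2⟩
  left_inv i := by simp
  right_inv i := by simp

theorem sh_apply (c : ∀ n, β n → Fq n) (n : ℕ) (a : Fq n) (o : β n) :
    sh c ⟨n, a, o⟩ = ⟨n, a + c n o, o⟩ := rfl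

theorem sh_mul_neg (c : ∀ n, β n → Fq n) : sh c * sh (-c) = 1 := by
  refine Equiv.ext fun ⟨n, a, o⟩ => ?_
  simp [sh_apply]

theorem sh_neg_mul (c : ∀ n, β n → Fq n) : sh (-c) * sh c = 1 := by
  refine Equiv.ext fun ⟨n, a, o⟩ => ?_
  simp [sh_apply]

/-- A componentwise involution. -/
def iv (τ : ∀ n, Fq n × β n → Fq n × β n) (h : ∀ n, Function.Involutive (τ n)) :
    Equiv.Perm (Σ n, Fq n × β n) :=
  Function.Involutive.toPerm (fun i => ⟨i.1, τ i.1 i.2⟩) fun i => by simp [h i.1 i.2]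

theorem iv_apply (τ : ∀ n, Fq n × β n → Fq n × β n) (h) (n : ℕ) (z : Fq n × β n) :
    iv τ h ⟨n, z⟩ = ⟨n, τ n z⟩ := rfl

theorem iv_mul_self (τ : ∀ n, Fq n × β n → Fq n × β n) (h) : iv τ h * iv τ h = 1 := by
  refine Equiv.ext fun ⟨n, z⟩ => ?_
  simp [iv_apply, h n z]

end Perms

/-- First level involution. -/
def ta {n : ℕ} (j : Fin (md n + 1)) : Fin (md n + 1) :=
  ⟨if j.1 = 0 then 0 else if j.1 % 2 = 1 then j.1 + 1 else j.1 - 1, by
    have := j.2
    unfold md at *
    split_ifs <;> omega⟩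

/-- Second level involution. -/
def tb {n : ℕ} (j : Fin (md n + 1)) : Fin (md n + 1) :=
  ⟨if j.1 % 2 = 0 then (if j.1 < md n then j.1 + 1 else j.1) else j.1 - 1, by
    have := j.2
    split_ifs <;> omega⟩

theorem ta_ta {n : ℕ} (j : Fin (md n + 1)) : ta (ta j) = j := by
  refine Fin.ext ?_
  simp only [ta]
  split_ifs <;> first | omega | simp_all

theorem tb_tb {n : ℕ} (j : Fin (md n + 1)) : tb (tb j) = j := by
  refine Fin.ext ?_
  have := j.2
  simp only [tb]
  unfold md at *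
  split_ifs <;> omega

theorem ta_near {n : ℕ} (j : Fin (md n + 1)) :
    (ta j).1 = j.1 ∨ (ta j).1 = j.1 + 1 ∨ (ta j).1 + 1 = j.1 := by
  simp only [ta]
  split_ifs <;> omega

theorem tb_near {n : ℕ} (j : Fin (md n + 1)) :
    (tb j).1 = j.1 ∨ (tb j).1 = j.1 + 1 ∨ (tb j).1 + 1 = j.1 := by
  simp only [tb]
  split_ifs <;> omega

/-- A level involution on the set of fibers. -/
def lvL (t : ∀ n, Fin (md n + 1) → Fin (md n + 1)) (h : ∀ n j, t n (t n j) = j) : Equiv.Perm Il :=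
  iv (fun n z => (z.1, z.2.map (t n))) fun n => by rintro ⟨a, _ | j⟩ <;> simp [h]

/-- A level involution on the index set. -/
def lvC (t : ∀ n, Fin (md n + 1) → Fin (md n + 1)) (h : ∀ n j, t n (t n j) = j) : Equiv.Perm Ic :=
  iv (fun n z => (z.1, z.2.map fun y => (t n y.1, y.2))) fun n => by
    rintro ⟨a, _ | j⟩ <;> simp [h]

/-- The exchange of the base level and the first level. -/
def tsL : Equiv.Perm Il :=
  iv (fun _ z => (z.1, Equiv.swap none (some 0) z.2)) fun n z => by simp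

/-- Reflection at the top level. -/
noncomputable def rfL (e : ℕ) : Equiv.Perm Il :=
  iv (fun n z => (if z.2 = some (Fin.last _) then (e : Fq n) - z.1 else z.1, z.2)) fun n z => by
    by_cases h : z.2 = some (Fin.last _) <;> simp [h]
    rw [← h]

/-- Reflection at the top level, on the index set. -/
noncomputable def rfF (e n : ℕ) :
    Fq n × Option (Fin (md n + 1) × Vs n) → Fq n × Option (Fin (md n + 1) × Vs n)
  | (a, none) => (a, none)
  | (a, some y) => if y.1 = Fin.last _ then (e - a, some (y.1, y.2 + (a - (e - a)) • gg n))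
      else (a, some y)

/-- Reflection at the top level, on the index set. -/
noncomputable def rfC (e : ℕ) : Equiv.Perm Ic :=
  iv (rfF e) fun n => by
    rintro ⟨a, _ | ⟨j, w⟩⟩
    · rfl
    · by_cases h : j = Fin.last _
      · simp only [rfF, h, if_true, sub_sub_cancel, Prod.mk.injEq, Option.some.injEq, true_and]
        module
      · simp only [rfF, h, if_false]

/-- The indicator of the even levels. -/
noncomputable def cEv (n : ℕ) : Option (Fin (md n + 1)) → Fq n
  | none => 0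
  | some j => if j.1 % 2 = 0 then 1 else 0

/-- The indicator of the base level. -/
noncomputable def cBase {γ : ℕ → Type} (n : ℕ) : Option (γ n) → Fq n
  | none => 1
  | some _ => 0

theorem factor : (sh cBase : Equiv.Perm Il) =
    tsL * lvL (fun _ => ta) (fun _ => ta_ta) * (sh cEv * (lvL (fun _ => ta) (fun _ => ta_ta) * tsL *
      lvL (fun _ => tb) (fun _ => tb_tb)) * sh (-cEv)) * lvL (fun _ => tb) (fun _ => tb_tb) *
      (rfL 1 * rfL 0) := by
  refine Equiv.ext fun ⟨n, a, o⟩ => ?_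
  have h0 : ta (0 : Fin (md n + 1)) = 0 := rfl
  simp only [Equiv.Perm.mul_apply, tsL, lvL, rfL, iv_apply, sh_apply, Option.map_map,
    Function.comp_def, tb_tb, ta_ta, Option.map_id', Equiv.swap_apply_self]
  congr 2
  rcases o with _ | j
  · simp [cBase, cEv, h0]
  · by_cases hj : j = 0
    · subst hj
      have h1 : (0 : Fin (md n + 1)) ≠ Fin.last _ := by simp [Fin.ext_iff, md]
      have h2 : 0 < md n := by simp [md]
      simp [cBase, cEv, h1, tb, h2, Nat.mod_eq_of_lt (Nat.succ_lt_succ h2)]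
    · rw [Equiv.swap_apply_of_ne_of_ne (by simp) (by simpa using hj)]
      have h1 : j.1 ≠ 0 := fun h => hj (Fin.ext h)
      have h2 := j.2
      by_cases h3 : j = Fin.last _
      · subst h3
        have h4 : md n % 2 = 0 := by unfold md; omega
        have h5 : (md n - 1) % 2 = 1 := by unfold md; omega
        have h6 : md n ≠ 0 := by unfold md; omega
        simp [cBase, cEv, ta, tb, h4, h5, h6]
      · have h4 : j.1 < md n := lt_of_le_of_ne (Nat.lt_succ_iff.1 h2) fun h => h3 (Fin.ext h)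
        simp only [cBase, cEv, ta, tb, h1, h3, h4, Option.map_some, Pi.neg_apply, if_true, if_false,
          Option.some.injEq]
        split_ifs <;> first | omega | simp

variable {Y : Type} [PseudoEMetricSpace Y] {ι : Ic → Y} {c : ℝ≥0}
  (H1 : ∀ i j, dist (pt i) (pt j) ≤ 1 → edist (ι i) (ι j) ≤ c)
  (H2 : ∀ K, IsCompact K → (ι ⁻¹' K).Finite)
include H1 H2

theorem theta_perm_mem {T : Equiv.Perm Ic} {π : Equiv.Perm Il} (h : ∀ i, pr (T i) = π (pr i))
    (hd : ∀ i, dist (pt (T i)) (pt i) ≤ 1) : fb.theta 4 (perm 4 π) ∈ Roe 4 ι := by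
  rw [fb.theta_perm h]
  exact mul_mem (mem_Roe_of_finite H2 ((prop_perm_le fun i => H1 _ _ (hd i)).trans_lt
    ENNReal.coe_lt_top)) (Q_mem H1 H2)

theorem nul_of {π : Equiv.Perm Il} (hπ : π * π = 1) (h : fb.theta 4 (perm 4 π) ∈ Roe 4 ι) :
    Nul (fb.theta 4) (Roe 4 ι) (perm 4 π) :=
  Nul.invol fb.theta_smul (Q_mem H1 H2) h (by rw [← perm_mul, hπ, perm_one])

theorem nul_lv {t : ∀ n, Fin (md n + 1) → Fin (md n + 1)} (h : ∀ n j, t n (t n j) = j)
    (ht : ∀ n j, (t n j).1 = j.1 ∨ (t n j).1 = j.1 + 1 ∨ (t n j).1 + 1 = j.1) :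
    Nul (fb.theta 4) (Roe 4 ι) (perm 4 (lvL t h)) := by
  refine nul_of H1 H2 (iv_mul_self _ _) (theta_perm_mem H1 H2 (T := lvC t h) ?_ ?_)
  · rintro ⟨n, a, _ | j⟩ <;> rfl
  · rintro ⟨n, a, _ | ⟨j, w⟩⟩
    · simp [lvC, iv_apply]
    · change dist (⟨n, a • gg n + trunc (t n j) w⟩ : Pt) ⟨n, a • gg n + trunc j w⟩ ≤ 1
      rw [dist_same, add_sub_add_left_eq_sub]
      norm_cast
      rcases ht n j with h1 | h1 | h1
      · simp [h1, len_zero]
      · rw [h1, trunc_succ (by have := (t n j).2; omega)]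
        exact len_of_mem (single_mem _ _)
      · rw [len_sub_comm, ← h1, trunc_succ (by have := j.2; omega)]
        exact len_of_mem (single_mem _ _)

theorem nul_rf (e : ℕ) : Nul (fb.theta 4) (Roe 4 ι) (perm 4 (rfL e)) := by
  refine nul_of H1 H2 (iv_mul_self _ _) (theta_perm_mem H1 H2 (T := rfC e) ?_ ?_)
  · rintro ⟨n, a, _ | ⟨j, w⟩⟩
    · rfl
    · by_cases h : j = Fin.last _ <;> simp [rfC, rfL, iv_apply, rfF, pr, h]
  · rintro ⟨n, a, _ | ⟨j, w⟩⟩
    · simp [rfC, iv_apply, rfF]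
    · by_cases h : j = Fin.last _
      · subst h
        simp only [rfC, iv_apply, rfF, if_true, pt, off, Fin.val_last, trunc_top, dist_same]
        have : ((e : Fq n) - a) • gg n + (w + (a - (e - a)) • gg n) - (a • gg n + w) = 0 := by
          module
        simp [this, len_zero]
      · simp [rfC, iv_apply, rfF, h]

theorem nul_ts : Nul (fb.theta 4) (Roe 4 ι) (perm 4 tsL) := by
  refine nul_of H1 H2 (iv_mul_self _ _) ?_
  rw [← sub_add_cancel (perm 4 tsL) 1, map_add]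
  refine add_mem (mem_Roe_of_finite H2 (lt_of_le_of_lt (b := (c : ℝ≥0∞))
    (prop_le_iff.2 fun i j h => H1 _ _ ?_) ENNReal.coe_lt_top)) (Q_mem H1 H2)
  obtain ⟨h1, h2, h3⟩ := entry_perm_sub_one (fb.entry_theta_ne_zero h)
  have key : ∀ i : Ic, tsL (pr i) ≠ pr i → pt i = ⟨i.1, i.2.1 • gg i.1⟩ := by
    rintro ⟨n, a, _ | ⟨j, w⟩⟩ hi
    · simp [pt, off]
    · by_cases hj : j = 0
      · simp [pt, off, hj, trunc_zero]
      · refine (hi ?_).elim
        simp only [tsL, pr, iv_apply, Option.map_some]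
        rw [Equiv.swap_apply_of_ne_of_ne (by simp) (by simpa using hj)]
  rw [key i h2, key j h1]
  obtain ⟨n, a, o⟩ := i
  obtain ⟨n', a', o'⟩ := j
  rcases h3 with h3 | h3 <;>
  · obtain rfl : n = n' := congrArg Sigma.fst h3
    simp only [tsL, pr, iv_apply, Sigma.mk.injEq, heq_eq_eq, true_and, Prod.mk.injEq] at h3
    simp [h3.1]

theorem theta_sh_mem {s : ∀ n, Option (Fin (md n + 1)) → Fq n}
    (hs : ∀ n o, len (s n o • gg n) ≤ 1) : fb.theta 4 (perm 4 (sh s)) ∈ Roe 4 ι := by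
  refine theta_perm_mem H1 H2 (T := sh fun n o => s n (o.map Prod.fst)) (fun _ => rfl) ?_
  rintro ⟨n, a, o⟩
  simp only [sh_apply, pt, dist_same, add_sub_add_right_eq_sub, add_smul, add_sub_cancel_left]
  exact_mod_cast hs n _

theorem nul_base : Nul (fb.theta 4) (Roe 4 ι) (perm 4 (sh cBase)) := by
  have h1 : ∀ n o, len (cEv n o • gg n) ≤ 1 := by
    rintro n (_ | j)
    · simp [cEv, len_zero]
    · simp only [cEv]
      split_ifs
      · simpa using len_gg
      · simp [len_zero]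
  have h2 := theta_sh_mem H1 H2 h1
  have h3 := theta_sh_mem H1 H2 (s := -cEv) fun n o => by
    simpa using (len_neg_le _).trans (h1 n o)
  have h4 : perm 4 (sh cEv) * perm 4 (sh (-cEv)) = 1 := by rw [← perm_mul, sh_mul_neg, perm_one]
  have h5 : perm 4 (sh (-cEv)) * perm 4 (sh cEv) = 1 := by rw [← perm_mul, sh_neg_mul, perm_one]
  have ha := nul_lv H1 H2 (fun _ => ta_ta) fun _ => ta_near
  have hb := nul_lv H1 H2 (fun _ => tb_tb) fun _ => tb_near
  have hs := nul_ts H1 H2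
  rw [factor]
  simp only [perm_mul]
  exact (((hs.mul ha).mul (((ha.mul hs).mul hb).conj ⟨h2, _, h3, h4, h5⟩ ⟨h3, _, h2, h5, h4⟩
    h4)).mul hb).mul ((nul_rf H1 H2 1).mul (nul_rf H1 H2 0))

omit H1 H2 in
theorem theta_base : fb.theta 4 (perm 4 (sh cBase) - 1) = perm 4 (sh cBase : Equiv.Perm Ic) - 1 := by
  rw [map_sub, fb.theta_perm (T := sh cBase) (by rintro ⟨n, a, _ | j⟩ <;> rfl)]
  refine clm_ext fun f i => ?_
  change perm 4 (sh cBase) (fb.theta 4 1 f) i - fb.theta 4 1 f i = perm 4 (sh cBase) f i - f i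
  rw [perm_apply, perm_apply]
  obtain ⟨n, a, _ | j⟩ := i
  · change fb.theta 4 1 f ⟨n, a - 1, none⟩ - _ = f ⟨n, a - 1, none⟩ - _
    rw [Q_none, Q_none]
  · have : (sh cBase : Equiv.Perm Ic)⁻¹ ⟨n, a, some j⟩ = ⟨n, a, some j⟩ := by
      rw [Equiv.Perm.inv_eq_iff_eq]
      simp [sh_apply, cBase]
    rw [this, sub_self, sub_self]

theorem joined_base : ∃ h : perm 4 (sh cBase : Equiv.Perm Ic) - 1 ∈ Roe 4 ι,
    JoinedIn {x : Roe 4 ι | IsQuasiregular x} ⟨perm 4 (sh cBase : Equiv.Perm Ic) - 1, h⟩ 0 := by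
  rw [← theta_base]
  exact (nul_base H1 H2).joined fb.continuous_theta (Q_mem H1 H2)

end Pool.Agent.Work.MP_9ec65e_al
end

-- merged part: Pool.Agent.Work.MP_9ec65e_al.DataDefs
section
-- merged part: Pool.Agent.Work.MP_9ec65e_al.NerveLem
section
/-! Facts on nerves. -/

namespace Pool.Agent.Work.MP_9ec65e_al

open scoped NNReal ENNReal Topology
open Filter

section L1

variable {α β : Type}

/-- The `ℓ^1` norm of a finitely supported function. -/
noncomputable def l1 (v : α →₀ ℝ) : ℝ := v.sum fun _ a => |a|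

theorem l1_eq_sum (v : α →₀ ℝ) {F : Finset α} (h : v.support ⊆ F) : l1 v = ∑ a ∈ F, |v a| :=
  Finsupp.sum_of_support_subset v h _ fun _ _ => abs_zero

theorem l1_nonneg (v : α →₀ ℝ) : 0 ≤ l1 v := Finset.sum_nonneg fun _ _ => abs_nonneg _

theorem l1_add_le (v w : α →₀ ℝ) : l1 (v + w) ≤ l1 v + l1 w := by
  classical
  rw [l1_eq_sum (v + w) Finsupp.support_add, l1_eq_sum v Finset.subset_union_left,
    l1_eq_sum w Finset.subset_union_right, ← Finset.sum_add_distrib]
  exact Finset.sum_le_sum fun a _ => abs_add_le _ _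

theorem l1_neg (v : α →₀ ℝ) : l1 (-v) = l1 v := by
  rw [l1, Finsupp.sum_neg_index (fun _ => abs_zero)]
  simp [l1]

theorem l1_sub_le (v w : α →₀ ℝ) : l1 (v - w) ≤ l1 v + l1 w := by
  rw [sub_eq_add_neg, ← l1_neg w]
  exact l1_add_le _ _

theorem l1_single (a : α) (r : ℝ) : l1 (Finsupp.single a r) = |r| :=
  Finsupp.sum_single_index abs_zero

theorem l1_sum_le {ι : Type} (s : Finset ι) (v : ι → α →₀ ℝ) :
    l1 (∑ i ∈ s, v i) ≤ ∑ i ∈ s, l1 (v i) :=
  Finset.le_sum_of_subadditive l1 (by simp [l1]) l1_add_le s v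

theorem l1_mapDomain_le (f : α → β) (v : α →₀ ℝ) : l1 (v.mapDomain f) ≤ l1 v := by
  refine (l1_sum_le _ _).trans (le_of_eq ?_)
  simp only [l1_single]
  rfl

theorem abs_sum_le (v : α →₀ ℝ) (c : α → ℝ) {K : ℝ} (hc : ∀ a, |c a| ≤ K) :
    |v.sum fun a r => r * c a| ≤ K * l1 v := by
  rw [l1, Finsupp.sum, Finsupp.sum, Finset.mul_sum]
  refine (Finset.abs_sum_le_sum_abs _ _).trans (Finset.sum_le_sum fun a _ => ?_)
  rw [abs_mul, mul_comm]
  exact mul_le_mul_of_nonneg_right (hc a) (abs_nonneg _)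

end L1

namespace Nerve

variable {X : Type} {C C' : Set (Set X)}

theorem edist_le_d0 (y z : Nerve C) : edist y z ≤ d0 y z := iInf_le_of_le [] le_rfl

theorem le_edist (φ : Nerve C → Nerve C → ℝ≥0∞) (htri : ∀ a b c, φ a c ≤ φ a b + φ b c)
    (hd : ∀ (a b : Nerve C) (x : X), (∀ U ∈ a.t.support, x ∈ (U : Set X)) →
      (∀ U ∈ b.t.support, x ∈ (U : Set X)) → φ a b ≤ ENNReal.ofReal (l1 (a.t - b.t)))
    (y z : Nerve C) : φ y z ≤ edist y z := by
  have h0 : ∀ a b, φ a b ≤ d0 a b := fun a b => by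
    unfold d0
    split_ifs with h
    · obtain ⟨x, h1, h2⟩ := h
      exact hd a b x h1 h2
    · exact le_top
  refine le_iInf fun l => ?_
  induction l generalizing y with
  | nil => exact h0 y z
  | cons a l ih => exact (htri y a z).trans (add_le_add (h0 y a) (ih a))

theorem edist_le_l1 {y z : Nerve C} {x : X} (hy : ∀ U ∈ y.t.support, x ∈ (U : Set X))
    (hz : ∀ U ∈ z.t.support, x ∈ (U : Set X)) : edist y z ≤ ENNReal.ofReal (l1 (y.t - z.t)) := by
  refine (edist_le_d0 y z).trans (le_of_eq ?_)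
  rw [d0, if_pos ⟨x, hy, hz⟩]
  rfl

theorem l1_le_edist (y z : Nerve C) : ENNReal.ofReal (l1 (y.t - z.t)) ≤ edist y z := by
  refine le_edist (fun a b => ENNReal.ofReal (l1 (a.t - b.t))) (fun a b c => ?_)
    (fun _ _ _ _ _ => le_rfl) y z
  rw [← ENNReal.ofReal_add (l1_nonneg _) (l1_nonneg _)]
  refine ENNReal.ofReal_le_ofReal ?_
  rw [← sub_add_sub_cancel a.t b.t c.t]
  exact l1_add_le _ _

theorem l1_self (y : Nerve C) : l1 y.t = 1 := by
  rw [← y.sum_one]
  exact Finsupp.sum_congr fun U _ => abs_of_nonneg (y.nonneg U)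

theorem edist_le_two {y z : Nerve C} {x : X} (hy : ∀ U ∈ y.t.support, x ∈ (U : Set X))
    (hz : ∀ U ∈ z.t.support, x ∈ (U : Set X)) : edist y z ≤ 2 := by
  refine (edist_le_l1 hy hz).trans ?_
  have := l1_sub_le y.t z.t
  rw [l1_self, l1_self] at this
  calc _ ≤ ENNReal.ofReal 2 := ENNReal.ofReal_le_ofReal (by linarith)
    _ = 2 := by simp

theorem sum_const (y : Nerve C) (c : C → ℝ) (r : ℝ) (h : ∀ U ∈ y.t.support, c U = r) :
    (y.t.sum fun U a => a * c U) = r := by
  rw [Finsupp.sum_congr (g2 := fun _ a => a * r) fun U hU => by rw [h U hU], ← Finsupp.sum_mul,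
    y.sum_one, one_mul]

theorem exists_common {y z : Nerve C} (h : edist y z < 2) :
    ∃ U, U ∈ y.t.support ∧ U ∈ z.t.support := by
  classical
  by_contra hc
  push Not at hc
  have h1 := abs_sum_le (y.t - z.t) (fun U => if U ∈ y.t.support then 1 else -1) (K := 1)
    (fun U => by split_ifs <;> simp)
  rw [Finsupp.sum_sub_index (fun _ _ _ => sub_mul _ _ _), sum_const y _ 1 fun U hU => if_pos hU,
    sum_const z _ (-1) fun U hU => if_neg fun hh => hc U hh hU] at h1
  have h2 := (l1_le_edist y z).trans_lt h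
  have h3 : l1 (y.t - z.t) < 2 := by
    rw [← ENNReal.ofReal_lt_ofReal_iff two_pos]
    simpa using h2
  norm_num at h1
  linarith

/-- A common point of the members in the support. -/
noncomputable def bp (y : Nerve C) : X := y.meet.choose

theorem bp_mem (y : Nerve C) : ∀ U ∈ y.t.support, y.bp ∈ (U : Set X) := y.meet.choose_spec

theorem support_nonempty (y : Nerve C) : y.t.support.Nonempty := by
  rw [Finsupp.support_nonempty_iff]
  intro h
  have := y.sum_one
  simp [h] at this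

theorem edist_map_le (s : C → C') (hs : ∀ U : C, (U : Set X) ⊆ s U) (y z : Nerve C) :
    edist (map s hs y) (map s hs z) ≤ edist y z := by
  classical
  refine le_edist (fun a b => edist (map s hs a) (map s hs b)) (fun a b c => edist_triangle _ _ _)
    (fun a b x ha hb => ?_) y z
  have h : ∀ a : Nerve C, (∀ U ∈ a.t.support, x ∈ (U : Set X)) →
      ∀ U ∈ (map s hs a).t.support, x ∈ (U : Set X) := fun a ha U hU => by
    obtain ⟨V, hV, rfl⟩ := Finset.mem_image.1 (Finsupp.mapDomain_support hU)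
    exact hs V (ha V hV)
  refine (edist_le_l1 (h a ha) (h b hb)).trans (ENNReal.ofReal_le_ofReal ?_)
  change l1 (a.t.mapDomain s - b.t.mapDomain s) ≤ _
  rw [← Finsupp.mapDomain_sub]
  exact l1_mapDomain_le _ _

theorem mem_support_map (s : C → C') (hs : ∀ U : C, (U : Set X) ⊆ s U) (y : Nerve C) {U : C}
    (hU : U ∈ y.t.support) : s U ∈ (map s hs y).t.support := by
  classical
  rw [Finsupp.mem_support_iff] at hU ⊢
  refine ne_of_gt (lt_of_lt_of_le (lt_of_le_of_ne (y.nonneg U) hU.symm) ?_)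
  change y.t U ≤ (y.t.mapDomain s) (s U)
  rw [Finsupp.mapDomain, Finsupp.sum_apply, Finsupp.sum]
  refine le_trans (le_of_eq ?_) (Finset.single_le_sum
    (f := fun a => (Finsupp.single (s a) (y.t a)) (s U)) (fun a _ => ?_)
    (Finsupp.mem_support_iff.2 hU))
  · simp
  · exact Finsupp.single_nonneg.2 (y.nonneg a) _

theorem isCompact_simplex (σ : Finset C) (x : X) (hx : ∀ U ∈ σ, x ∈ (U : Set X)) :
    IsCompact {y : Nerve C | y.t.support ⊆ σ} := by
  classical
  let e : stdSimplex ℝ σ → (C →₀ ℝ) := fun t =>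
    Finsupp.onFinset σ (fun U => if h : U ∈ σ then t.1 ⟨U, h⟩ else 0) fun U h => by
      by_contra hh
      exact h (dif_neg hh)
  have he : ∀ t U, e t U = if h : U ∈ σ then t.1 ⟨U, h⟩ else 0 := fun _ _ => rfl
  have hsupp : ∀ t, (e t).support ⊆ σ := fun t => Finsupp.support_onFinset_subset
  let φ : stdSimplex ℝ σ → Nerve C := fun t =>
    { t := e t
      nonneg := fun U => by
        rw [he]
        split_ifs
        · exact t.2.1 _
        · exact le_rfl
      sum_one := by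
        rw [Finsupp.sum_of_support_subset _ (hsupp t) _ (fun _ _ => rfl), ← t.2.2,
          ← Finset.sum_coe_sort σ]
        exact Finset.sum_congr rfl fun U _ => by rw [he, dif_pos U.2]
      meet := ⟨x, fun U hU => hx U (hsupp t hU)⟩ }
  have hφ : Continuous φ := by
    refine continuous_iff_continuousAt.2 fun t => ?_
    rw [ContinuousAt, tendsto_iff_edist_tendsto_0]
    have h1 : ∀ s, edist (φ s) (φ t) ≤ ENNReal.ofReal (∑ U : σ, |s.1 U - t.1 U|) := fun s => by
      refine (edist_le_l1 (x := x) (fun U hU => hx U (hsupp s hU))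
        (fun U hU => hx U (hsupp t hU))).trans (le_of_eq ?_)
      congr 1
      rw [l1_eq_sum _ (F := σ) (Finsupp.support_sub.trans (Finset.union_subset (hsupp s) (hsupp t))),
        ← Finset.sum_coe_sort σ]
      refine Finset.sum_congr rfl fun U _ => ?_
      change |e s U - e t U| = _
      rw [he, he, dif_pos U.2, dif_pos U.2]
    refine tendsto_of_tendsto_of_tendsto_of_le_of_le tendsto_const_nhds ?_ (fun _ => zero_le) h1
    have h2 : Continuous fun s : stdSimplex ℝ σ => ENNReal.ofReal (∑ U : σ, |s.1 U - t.1 U|) :=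
      ENNReal.continuous_ofReal.comp (continuous_finsetSum _ fun U _ =>
        (((continuous_apply U).comp continuous_subtype_val).sub continuous_const).abs)
    simpa using h2.tendsto t
  have : {y : Nerve C | y.t.support ⊆ σ} = Set.range φ := by
    ext y
    constructor
    · intro hy
      refine ⟨⟨fun U => y.t U, fun U => y.nonneg U, ?_⟩, ?_⟩
      · rw [Finset.sum_coe_sort σ (fun U => y.t U), ← y.sum_one,
          Finsupp.sum_of_support_subset _ hy _ (fun _ _ => rfl)]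
      · ext U
        change e _ U = _
        rw [he]
        split_ifs with h
        · rfl
        · exact (Finsupp.notMem_support_iff.1 fun hh => h (hy hh)).symm
    · rintro ⟨t, rfl⟩
      exact hsupp t
  rw [this]
  exact isCompact_range hφ

theorem isCompact_supp_subset (F : Finset C) : IsCompact {y : Nerve C | y.t.support ⊆ F} := by
  classical
  have : {y : Nerve C | y.t.support ⊆ F} =
      ⋃ σ ∈ F.powerset.filter (fun σ : Finset C => ∃ x, ∀ U : C, U ∈ σ → x ∈ (U : Set X)),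
        {y : Nerve C | y.t.support ⊆ σ} := by
    ext y
    simp only [Set.mem_setOf_eq, Finset.mem_filter, Finset.mem_powerset, Set.mem_iUnion]
    exact ⟨fun h => ⟨y.t.support, ⟨h, y.meet⟩, subset_rfl⟩, fun ⟨σ, h1, h2⟩ => h2.trans h1.1⟩
  rw [this]
  refine Finset.isCompact_biUnion _ fun σ hσ => ?_
  obtain ⟨x, hx⟩ := (Finset.mem_filter.1 hσ).2
  exact isCompact_simplex σ x hx

/-- A point of the edge from `U` to `V`. -/
noncomputable def seg (U V : C) (h : ∃ x, x ∈ (U : Set X) ∧ x ∈ (V : Set X)) (θ : unitInterval) :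
    Nerve C where
  t := Finsupp.single U (1 - θ.1) + Finsupp.single V θ.1
  nonneg W := add_nonneg (Finsupp.single_nonneg.2 (sub_nonneg.2 θ.2.2) W)
    (Finsupp.single_nonneg.2 θ.2.1 W)
  sum_one := by
    rw [Finsupp.sum_add_index' (fun _ => rfl) (fun _ _ _ => rfl), Finsupp.sum_single_index rfl,
      Finsupp.sum_single_index rfl, sub_add_cancel]
  meet := by
    classical
    obtain ⟨x, h1, h2⟩ := h
    refine ⟨x, fun W hW => ?_⟩
    rcases Finset.mem_union.1 (Finsupp.support_add hW) with hW | hW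
    · rwa [Finset.mem_singleton.1 (Finsupp.support_single_subset hW)]
    · rwa [Finset.mem_singleton.1 (Finsupp.support_single_subset hW)]

theorem seg_supp {U V : C} {h} {θ : unitInterval} {W : C} (hW : W ∈ (seg U V h θ).t.support) :
    W = U ∨ W = V := by
  classical
  rcases Finset.mem_union.1 (Finsupp.support_add hW) with hW | hW
  · exact Or.inl (Finset.mem_singleton.1 (Finsupp.support_single_subset hW))
  · exact Or.inr (Finset.mem_singleton.1 (Finsupp.support_single_subset hW))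

theorem seg_mem {U V : C} {h} (θ : unitInterval) {x : X} (hU : x ∈ (U : Set X))
    (hV : x ∈ (V : Set X)) : ∀ W ∈ (seg U V h θ).t.support, x ∈ (W : Set X) := fun W hW => by
  rcases seg_supp hW with rfl | rfl
  · exact hU
  · exact hV

theorem seg_one_eq {U V W : C} {h h'} : seg U V h 1 = seg V W h' 0 := by
  ext1
  simp [seg]

theorem seg_zero_supp {U V : C} {h} {W : C} (hW : W ∈ (seg U V h 0).t.support) : W = U := by
  simp only [seg, Set.Icc.coe_zero, sub_zero, Finsupp.single_zero, add_zero] at hW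
  exact Finset.mem_singleton.1 (Finsupp.support_single_subset hW)

theorem edist_seg_le {U V : C} {h} (θ θ' : unitInterval) :
    edist (seg U V h θ) (seg U V h θ') ≤ ENNReal.ofReal (2 * |θ.1 - θ'.1|) := by
  obtain ⟨x, h1, h2⟩ := id h
  refine (edist_le_l1 (seg_mem θ h1 h2) (seg_mem θ' h1 h2)).trans (ENNReal.ofReal_le_ofReal ?_)
  have e : (seg U V h θ).t - (seg U V h θ').t =
      Finsupp.single V (θ.1 - θ'.1) - Finsupp.single U (θ.1 - θ'.1) := by
    simp only [seg, Finsupp.single_sub]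
    abel
  rw [e]
  refine (l1_sub_le _ _).trans (le_of_eq ?_)
  rw [l1_single, l1_single, two_mul]

variable [PseudoMetricSpace X]

theorem dist_bp_le {R : ℝ} (hR : ∀ U ∈ C, ∀ x ∈ U, ∀ x' ∈ U, dist x x' ≤ R) {y z : Nerve C}
    (h : edist y z < 2) : dist y.bp z.bp ≤ R := by
  obtain ⟨U, h1, h2⟩ := exists_common h
  exact hR U U.2 _ (y.bp_mem U h1) _ (z.bp_mem U h2)

theorem dist_bp_of_mem {R : ℝ} (hR : ∀ U ∈ C, ∀ x ∈ U, ∀ x' ∈ U, dist x x' ≤ R) {y : Nerve C}
    {x : X} (hx : ∀ U ∈ y.t.support, x ∈ (U : Set X)) : dist y.bp x ≤ R := by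
  obtain ⟨U, hU⟩ := y.support_nonempty
  exact hR U U.2 _ (y.bp_mem U hU) _ (hx U hU)

theorem dist_bp_map {R : ℝ} (hR : ∀ U ∈ C', ∀ x ∈ U, ∀ x' ∈ U, dist x x' ≤ R) (s : C → C')
    (hs : ∀ U : C, (U : Set X) ⊆ s U) (y : Nerve C) : dist (map s hs y).bp y.bp ≤ R := by
  obtain ⟨U, hU⟩ := y.support_nonempty
  exact hR (s U) (s U).2 _ ((map s hs y).bp_mem _ (mem_support_map s hs y hU)) _
    (hs U (y.bp_mem U hU))

theorem isBounded_bp {R : ℝ} (hR : ∀ U ∈ C, ∀ x ∈ U, ∀ x' ∈ U, dist x x' ≤ R) {K : Set (Nerve C)}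
    (hK : IsCompact K) : Bornology.IsBounded (bp '' K) := by
  obtain ⟨t, -, htf, ht⟩ := EMetric.totallyBounded_iff'.1 hK.totallyBounded 2 two_pos
  refine ((Bornology.isBounded_biUnion htf).2 fun y _ =>
    (Metric.isBounded_closedBall (x := y.bp) (r := R))).subset ?_
  rintro _ ⟨z, hz, rfl⟩
  obtain ⟨y, hy, hzy⟩ := Set.mem_iUnion₂.1 (ht hz)
  exact Set.mem_iUnion₂.2 ⟨y, hy, dist_bp_le hR hzy⟩

theorem exists_compact [ProperSpace X] (hlf : LocallyFinite fun U : C => (U : Set X)) {B : Set X}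
    (hB : Bornology.IsBounded B) :
    ∃ K : Set (Nerve C), IsCompact K ∧ ∀ y : Nerve C, y.bp ∈ B → y ∈ K := by
  have h := hlf.finite_nonempty_inter_compact hB.isCompact_closure
  refine ⟨_, isCompact_supp_subset h.toFinset, fun y hy U hU => ?_⟩
  rw [Set.Finite.mem_toFinset]
  exact ⟨y.bp, y.bp_mem U hU, subset_closure hy⟩

end Nerve

end Pool.Agent.Work.MP_9ec65e_al
end

-- merged part: Pool.Agent.Work.MP_9ec65e_al.DataDefs
section
/-! Anti-Cech systems and the `L^p` coarse assembly map on `K_1`. -/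

namespace Pool.Agent.Work.MP_9ec65e_al

open scoped NNReal ENNReal
open Filter

namespace AntiCech

variable {X : Type} [MetricSpace X] (D : AntiCech X)

variable [ProperSpace X]

/-- The injection `J k` does not increase distances and is proper. -/
def cov (k : ℕ) : Cov (D.pos k) (D.pos (k + 1)) where
  J := D.J k
  lip a b := by
    simp only [pos, D.J_over]
    exact Nerve.edist_map_le _ _ _ _
  proper K' hK' := by
    obtain ⟨K, hK, h⟩ := Nerve.exists_compact (D.locFin k)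
      ((Nerve.isBounded_bp (D.diam_le (k + 1)) hK').cthickening (δ := D.R (k + 1)))
    refine ⟨K, hK, fun a ha => h _ (Metric.mem_cthickening_of_dist_le _ _ _ _ ⟨_, ha, rfl⟩ ?_)⟩
    simp only [pos, D.J_over]
    rw [dist_comm]
    exact Nerve.dist_bp_map (D.diam_le (k + 1)) _ _ _

variable (p : ℝ≥0) [Fact (1 ≤ (p : ℝ≥0∞))]

/-- The connecting map `K_1(B^p_L(N_{C k})) → K_1(B^p_L(N_{C (k+1)}))`. -/
noncomputable def locMap (k : ℕ) : K1 (Loc p (D.pos k)) → K1 (Loc p (D.pos (k + 1))) :=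
  K1.map ((D.cov k).loc p) ((D.cov k).continuous_loc p)

/-- The connecting map `K_1(B^p(N_{C k})) → K_1(B^p(N_{C (k+1)}))`. -/
noncomputable def roeMap (k : ℕ) : K1 (Roe p (D.pos k)) → K1 (Roe p (D.pos (k + 1))) :=
  K1.map ((D.cov k).roe p) ((D.cov k).continuous_roe p)

/-- The `L^p` coarse assembly map in degree one,
`lim_k K_1(B^p_L(N_{C k})) → lim_k K_1(B^p(N_{C k}))`, induced by evaluation at `0`. -/
noncomputable def mu : SeqLim (D.locMap p) → SeqLim (D.roeMap p) :=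
  SeqLim.map (fun k => K1.map (ev0 p (D.pos k)) (continuous_ev0 p (D.pos k)))
    (fun _ x => Quot.inductionOn x fun _ => rfl)

end AntiCech

end Pool.Agent.Work.MP_9ec65e_al
end

-- merged part: Pool.Agent.Work.MP_9ec65e_al.Fine
section
/-! The fine model: an invertible of the localization algebra made of finer and finer shifts. -/

set_option linter.unusedSectionVars false
set_option backward.isDefEq.respectTransparency false

namespace Pool.Agent.Work.MP_9ec65e_al

open scoped NNReal ENNReal Topology BigOperators BoundedContinuousFunction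
open Filter

section Glue

variable {B : Type} [NormedRing B] [NormedAlgebra ℂ B]

/-- Uniformly bounded and uniformly Lipschitz families of paths. -/
def BL (γ : ℕ → ℝ → B) : Prop :=
  ∃ M L : ℝ, 0 ≤ M ∧ 0 ≤ L ∧ ∀ r, (∀ s, ‖γ r s‖ ≤ M) ∧ ∀ s s', ‖γ r s - γ r s'‖ ≤ L * |s - s'|

theorem BL.mul {γ γ' : ℕ → ℝ → B} (h : BL γ) (h' : BL γ') : BL fun r s => γ r s * γ' r s := by
  obtain ⟨M, L, hM, hL, h⟩ := h
  obtain ⟨M', L', hM', hL', h'⟩ := h'
  refine ⟨M * M', L * M' + M * L', by positivity, by positivity, fun r => ⟨fun s =>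
    (norm_mul_le _ _).trans (mul_le_mul ((h r).1 s) ((h' r).1 s) (norm_nonneg _) hM),
    fun s s' => ?_⟩⟩
  have e : γ r s * γ' r s - γ r s' * γ' r s' =
      (γ r s - γ r s') * γ' r s + γ r s' * (γ' r s - γ' r s') := by noncomm_ring
  rw [e]
  refine (norm_add_le _ _).trans ((add_le_add ((norm_mul_le _ _).trans
    (mul_le_mul ((h r).2 s s') ((h' r).1 s) (norm_nonneg _) (by positivity)))
    ((norm_mul_le _ _).trans (mul_le_mul ((h r).1 s') ((h' r).2 s s') (norm_nonneg _) hM))).trans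
    (le_of_eq (by ring)))

theorem BL.const {a : ℕ → B} (h : ∀ r, ‖a r‖ ≤ 1) : BL fun r _ => a r :=
  ⟨1, 0, zero_le_one, le_rfl, fun r => ⟨fun _ => h r, fun _ _ => by simp⟩⟩

theorem BL.neg {γ : ℕ → ℝ → B} (h : BL γ) : BL fun r s => γ r (-s) := by
  obtain ⟨M, L, hM, hL, h⟩ := h
  refine ⟨M, L, hM, hL, fun r => ⟨fun s => (h r).1 _, fun s s' => ((h r).2 _ _).trans ?_⟩⟩
  rw [neg_sub_neg, abs_sub_comm]

theorem BL.rot {a : ℕ → B} (h : ∀ r, ‖a r‖ ≤ 1) : BL fun r s => rot (a r) s := by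
  have he : ∀ r, ‖(1 / 2 : ℂ) • (1 - a r)‖ ≤ ‖(1 : B)‖ + 1 := fun r => by
    rw [norm_smul]
    have := (norm_sub_le 1 (a r)).trans (add_le_add_right (h r) _)
    have h2 : ‖(1 / 2 : ℂ)‖ = 1 / 2 := by simp
    rw [h2]
    linarith [norm_nonneg (1 - a r)]
  refine ⟨‖(1 : B)‖ + 2 * (‖(1 : B)‖ + 1), Real.pi * (‖(1 : B)‖ + 1), by positivity, by positivity,
    fun r => ⟨fun s => ?_, fun s s' => ?_⟩⟩
  · refine (norm_add_le _ _).trans (add_le_add_right ?_ _)
    rw [norm_smul]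
    refine mul_le_mul ((norm_sub_le _ _).trans ?_) (he r) (norm_nonneg _) zero_le_two
    rw [Complex.norm_exp_ofReal_mul_I]
    norm_num
  · simp only [Pool.Agent.Work.MP_9ec65e_al.rot]
    rw [add_sub_add_left_eq_sub, ← sub_smul, sub_sub_sub_cancel_right, norm_smul,
      mul_right_comm]
    refine mul_le_mul ?_ (he r) (norm_nonneg _) (by positivity)
    have e : Complex.exp ((Real.pi * s : ℝ) * Complex.I) - Complex.exp ((Real.pi * s' : ℝ) *
        Complex.I) = Complex.exp ((Real.pi * s' : ℝ) * Complex.I) *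
          (Complex.exp (Complex.I * (Real.pi * (s - s') : ℝ)) - 1) := by
      rw [mul_sub, ← Complex.exp_add, mul_one]
      congr 2
      push_cast
      ring
    rw [e, norm_mul, Complex.norm_exp_ofReal_mul_I, one_mul]
    refine (Real.norm_exp_I_mul_ofReal_sub_one_le).trans (le_of_eq ?_)
    rw [Real.norm_eq_abs, abs_mul, abs_of_pos Real.pi_pos]

theorem exists_glue {γ : ℕ → ℝ → B} (h : BL γ) (h1 : ∀ r, γ r 1 = γ (r + 1) 0) :
    ∃ f : Fn B, UniformContinuous f ∧ ∀ t : ℝ≥0, f t = γ ⌊(t : ℝ)⌋₊ (t - ⌊(t : ℝ)⌋₊) := by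
  obtain ⟨M, L, hM, hL, h⟩ := h
  have key : ∀ s t : ℝ, 0 ≤ s → s ≤ t → t - s < 1 →
      ‖γ ⌊t⌋₊ (t - ⌊t⌋₊) - γ ⌊s⌋₊ (s - ⌊s⌋₊)‖ ≤ L * (t - s) := fun s t hs hst hd => by
    have a1 : ⌊s⌋₊ ≤ ⌊t⌋₊ := Nat.floor_mono hst
    have a2 : ⌊t⌋₊ ≤ ⌊s⌋₊ + 1 := by
      rw [← Nat.floor_add_one hs]
      exact Nat.floor_mono (by linarith)
    rcases a1.eq_or_lt with a3 | a3
    · rw [← a3]
      refine ((h _).2 _ _).trans (le_of_eq ?_)
      rw [sub_sub_sub_cancel_right, abs_of_nonneg (sub_nonneg.2 hst)]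
    · have a4 : ⌊t⌋₊ = ⌊s⌋₊ + 1 := by omega
      have a5 := Nat.floor_le (hs.trans hst)
      have a6 := Nat.lt_floor_add_one s
      rw [a4] at a5 ⊢
      push_cast at a5 ⊢
      rw [← sub_add_sub_cancel _ (γ (⌊s⌋₊ + 1) 0)]
      refine (norm_add_le _ _).trans ?_
      nth_rw 2 [← h1]
      refine (add_le_add ((h _).2 _ _) ((h _).2 _ _)).trans (le_of_eq ?_)
      rw [abs_of_nonneg (by linarith), abs_of_nonneg (by linarith)]
      ring
  have huc : UniformContinuous fun t : ℝ≥0 => γ ⌊(t : ℝ)⌋₊ (t - ⌊(t : ℝ)⌋₊) := by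
    refine Metric.uniformContinuous_iff.2 fun ε hε => ⟨min 1 (ε / (L + 1)), by positivity,
      fun {s t} hst => ?_⟩
    have hb : ∀ d : ℝ, 0 ≤ d → d < ε / (L + 1) → L * d < ε := fun d h0 hd => by
      rw [lt_div_iff₀ (by positivity)] at hd
      nlinarith
    rw [NNReal.dist_eq, lt_min_iff, abs_lt, abs_lt] at hst
    rcases le_total (s : ℝ) t with h2 | h2
    · rw [dist_comm, dist_eq_norm]
      exact (key s t s.2 h2 (by linarith [hst.1.1])).trans_lt
        (hb _ (sub_nonneg.2 h2) (by linarith [hst.2.1]))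
    · rw [dist_eq_norm]
      exact (key t s t.2 h2 hst.1.2).trans_lt (hb _ (sub_nonneg.2 h2) hst.2.2)
  exact ⟨BoundedContinuousFunction.ofNormedAddCommGroup _ huc.continuous M fun t => (h _).1 _,
    huc, fun _ => rfl⟩

end Glue

section One

variable {p : ℝ≥0} [hp : Fact (1 ≤ (p : ℝ≥0∞))] {I Y : Type} [PseudoEMetricSpace Y] {ι : I → Y}

/-- Locally compact perturbations of the identity with bounded propagation. -/
def One (ι : I → Y) (δ : ℝ≥0∞) (T : Op p I) : Prop := LocCompact ι (T - 1) ∧ prop ι T ≤ δ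

theorem One.mul {δ δ' : ℝ≥0∞} {S T : Op p I} (hS : One ι δ S) (hT : One ι δ' T) :
    One ι (δ + δ') (S * T) := by
  refine ⟨?_, (prop_mul_le _ _).trans (add_le_add hS.2 hT.2)⟩
  have e : S * T - 1 = (S - 1) * (T - 1) + (S - 1) + (T - 1) := by noncomm_ring
  rw [e]
  exact ((hS.1.mul hT.1).add hS.1).add hT.1

theorem One.rot {δ : ℝ≥0∞} {a : Op p I} (h : One ι δ a) (s : ℝ) : One ι δ (rot a s) := by
  unfold Pool.Agent.Work.MP_9ec65e_al.rot
  constructor
  · rw [add_sub_cancel_left, ← neg_sub a 1, ← neg_one_smul ℂ (a - 1)]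
    exact ((h.1.smul _).smul _).smul _
  · refine (prop_add_le _ _).trans ?_
    rw [prop_one, zero_add]
    refine (prop_smul_le _ _).trans ((prop_smul_le _ _).trans ((prop_sub_le _ _).trans ?_))
    rw [prop_one, zero_add]
    exact h.2

theorem One.prop_sub {δ : ℝ≥0∞} {T : Op p I} (h : One ι δ T) : prop ι (T - 1) ≤ δ := by
  refine (prop_sub_le _ _).trans ?_
  rw [prop_one, add_zero]
  exact h.2

theorem one_perm {σ : Equiv.Perm I} {δ : ℝ≥0∞} (h : ∀ i, edist (ι (σ i)) (ι i) ≤ δ)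
    (hf : ∀ K, IsCompact K → {i | σ i ≠ i ∧ ι i ∈ K}.Finite) : One ι δ (perm p σ) := by
  classical
  refine ⟨fun K hK => ⟨?_, ?_⟩, prop_perm_le h⟩
  · have e : chi p (ι ⁻¹' K) * (perm p σ - 1) =
        chi p {i | σ i ≠ i ∧ ι i ∈ K} * (chi p (ι ⁻¹' K) * (perm p σ - 1)) := by
      refine op_ext fun i j => ?_
      rw [entry_chi_mul {i | σ i ≠ i ∧ ι i ∈ K}]
      split_ifs with h1
      · rfl
      · rw [entry_chi_mul]
        split_ifs with h2
        · by_contra h3
          exact h1 ⟨(entry_perm_sub_one h3).2.1, h2⟩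
        · rfl
    rw [e]
    exact compact_mul_right (isCompact_chi (hf K hK)) _
  · have e : (perm p σ - 1) * chi p (ι ⁻¹' K) =
        (perm p σ - 1) * chi p (ι ⁻¹' K) * chi p {i | σ i ≠ i ∧ ι i ∈ K} := by
      refine op_ext fun i j => ?_
      rw [entry_mul_chi {i | σ i ≠ i ∧ ι i ∈ K}]
      split_ifs with h1
      · rfl
      · rw [entry_mul_chi]
        split_ifs with h2
        · by_contra h3
          exact h1 ⟨(entry_perm_sub_one h3).1, h2⟩
        · rfl
    rw [e]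
    exact compact_mul_left (isCompact_chi (hf K hK)) _

theorem one_perm_inv {σ : Equiv.Perm I} {δ : ℝ≥0∞} (h : ∀ i, edist (ι (σ i)) (ι i) ≤ δ)
    (hf : ∀ K, IsCompact K → {i | σ i ≠ i ∧ ι i ∈ K}.Finite) : One ι δ (perm p σ⁻¹) := by
  refine one_perm (fun i => ?_) fun K hK => (hf K hK).subset fun i hi => ⟨fun h0 => hi.1 ?_, hi.2⟩
  · rw [edist_comm]
    simpa using h (σ⁻¹ i)
  · exact Equiv.Perm.inv_eq_iff_eq.2 h0.symm

theorem exists_loc {γ : ℕ → ℝ → Op p I} (h : BL γ) (h1 : ∀ r, γ r 1 = γ (r + 1) 0) {δ : ℕ → ℝ≥0∞}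
    (hδ : Antitone δ) (h0 : δ 0 < ∞) (ht : Tendsto δ atTop (𝓝 0)) (ho : ∀ r s, One ι (δ r) (γ r s)) :
    ∃ α : Loc p ι, ∀ t : ℝ≥0, α.1 t = γ ⌊(t : ℝ)⌋₊ (t - ⌊(t : ℝ)⌋₊) - 1 := by
  obtain ⟨f, hf, hft⟩ := exists_glue h h1
  have hsub : ∀ t, (f - 1) t = f t - 1 := fun _ => rfl
  have hp : ∀ t, prop ι ((f - 1) t) ≤ δ ⌊(t : ℝ)⌋₊ := fun t => by
    rw [hsub, hft]
    exact (ho _ _).prop_sub
  refine ⟨⟨f - 1, (locAlg p ι).le_topologicalClosure ⟨fun t => (roeAlg p ι).le_topologicalClosure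
    ⟨?_, (hp t).trans_lt ((hδ zero_le).trans_lt h0)⟩, hf.sub uniformContinuous_const,
    lt_of_le_of_lt (iSup_le fun t => (hp t).trans (hδ zero_le)) h0, ?_⟩⟩, fun t => ?_⟩
  · rw [hsub, hft]
    exact (ho _ _).1
  · exact tendsto_of_tendsto_of_tendsto_of_le_of_le tendsto_const_nhds
      (ht.comp (tendsto_nat_floor_atTop.comp (NNReal.tendsto_coe_atTop.2 tendsto_id)))
      (fun _ => zero_le) hp
  · exact (hsub t).trans (by rw [hft])

end One

/-- The index set of the fine model. -/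
abbrev If : Type := Σ n, Fq n × (ℕ × ℕ)

/-- Exchange of the copy `r` with the even points of the copy `r + 1`. -/
def kf (r : ℕ) (z : ℕ × ℕ) : ℕ × ℕ :=
  if z.1 = r ∧ z.2 < 2 ^ r then (r + 1, 2 * z.2)
  else if z.1 = r + 1 ∧ z.2 % 2 = 0 ∧ z.2 < 2 * 2 ^ r then (r, z.2 / 2) else z

/-- Exchange of neighbours in the copy `r + 1`. -/
def sf (r : ℕ) (z : ℕ × ℕ) : ℕ × ℕ :=
  if z.1 = r + 1 ∧ z.2 < 2 * 2 ^ r then (z.1, if z.2 % 2 = 0 then z.2 + 1 else z.2 - 1) else z

theorem kf_kf (r : ℕ) (z : ℕ × ℕ) : kf r (kf r z) = z := by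
  obtain ⟨a, b⟩ := z
  unfold kf
  generalize 2 ^ r = M
  grind

theorem sf_sf (r : ℕ) (z : ℕ × ℕ) : sf r (sf r z) = z := by
  obtain ⟨a, b⟩ := z
  unfold sf
  generalize 2 ^ r = M
  grind

/-- The first involution. -/
def kap (r : ℕ) : Equiv.Perm If := iv (fun _ z => (z.1, kf r z.2)) fun _ z => by simp [kf_kf]

/-- The second involution. -/
def sig (r : ℕ) : Equiv.Perm If := iv (fun _ z => (z.1, sf r z.2)) fun _ z => by simp [sf_sf]

/-- The cyclic shift of the copy `r`. -/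
noncomputable def shf : ℕ → Equiv.Perm If
  | 0 => sh fun _ z => if z = (0, 0) then 1 else 0
  | r + 1 => kap r * shf r * kap r * sig r

/-- The second component of the cyclic shift. -/
def nx (r : ℕ) (z : ℕ × ℕ) : ℕ × ℕ :=
  if z.1 = r ∧ z.2 < 2 ^ r then (r, if z.2 + 1 < 2 ^ r then z.2 + 1 else 0) else z

/-- The carry. -/
def cy (r : ℕ) (z : ℕ × ℕ) : ℕ := if z.1 = r ∧ z.2 + 1 = 2 ^ r then 1 else 0

theorem shf_apply (r n : ℕ) (a : Fq n) (z : ℕ × ℕ) :
    shf r ⟨n, a, z⟩ = ⟨n, a + cy r z, nx r z⟩ := by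
  induction r generalizing a z with
  | zero =>
    obtain ⟨u, v⟩ := z
    simp only [shf, sh_apply, cy, nx, Prod.mk.injEq, pow_zero]
    congr 2
    · split_ifs <;> first | omega | simp
    · grind
  | succ r ih =>
    obtain ⟨u, v⟩ := z
    simp only [shf, Equiv.Perm.mul_apply, kap, sig, iv_apply, ih]
    have hM : 0 < 2 ^ r := by positivity
    congr 3
    · congr 1
      unfold cy kf sf
      rw [pow_succ']
      generalize 2 ^ r = M at *
      grind
    · unfold nx kf sf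
      rw [pow_succ']
      generalize 2 ^ r = M at *
      grind

end Pool.Agent.Work.MP_9ec65e_al
end

-- merged part: Pool.Agent.Work.MP_9ec65e_al.Alpha
section
/-! Construction of the invertible of the localization algebra. -/

set_option linter.unusedSectionVars false
set_option backward.isDefEq.respectTransparency false

namespace Pool.Agent.Work.MP_9ec65e_al

open scoped NNReal ENNReal Topology BigOperators BoundedContinuousFunction
open Filter

variable {p : ℝ≥0} [hp : Fact (1 ≤ (p : ℝ≥0∞))] {Y : Type} [PseudoEMetricSpace Y] {ι : If → Y}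
  {δ : ℕ → ℝ≥0∞}

/-- Hypotheses on the positions of the fine model. -/
structure FineOK (ι : If → Y) (δ : ℕ → ℝ≥0∞) : Prop where
  anti : Antitone δ
  fin : δ 0 < ∞
  lim : Tendsto δ atTop (𝓝 0)
  up : ∀ n a r j, j < 2 ^ r → edist (ι ⟨n, a, r + 1, 2 * j⟩) (ι ⟨n, a, r, j⟩) ≤ δ r
  step : ∀ n a r j, j + 1 < 2 ^ r → edist (ι ⟨n, a, r, j + 1⟩) (ι ⟨n, a, r, j⟩) ≤ δ r
  carry : ∀ n a r j, j + 1 = 2 ^ r → edist (ι ⟨n, a + 1, r, 0⟩) (ι ⟨n, a, r, j⟩) ≤ δ r
  lf : ∀ K, IsCompact K → {n | ∃ z, ι ⟨n, z⟩ ∈ K}.Finite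

namespace FineOK

variable (h : FineOK ι δ)
include h

theorem finite_moved {σ : Equiv.Perm If} (r : ℕ)
    (hσ : ∀ i, σ i ≠ i → i.2.2.1 ≤ r ∧ i.2.2.2 ≤ 2 ^ r) (K : Set Y) (hK : IsCompact K) :
    {i | σ i ≠ i ∧ ι i ∈ K}.Finite := by
  refine ((h.lf K hK).biUnion fun n _ => (((Set.finite_univ (α := Fq n)).prod
    ((Set.finite_Iic r).prod (Set.finite_Iic (2 ^ r)))).image
      fun z => (⟨n, z⟩ : If))).subset ?_
  rintro ⟨n, z⟩ ⟨h1, h2⟩
  exact Set.mem_iUnion₂.2 ⟨n, ⟨z, h2⟩, z, ⟨trivial, hσ _ h1⟩, rfl⟩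

theorem disp_kap (r : ℕ) (i : If) : edist (ι (kap r i)) (ι i) ≤ δ r := by
  obtain ⟨n, a, u, v⟩ := i
  simp only [kap, iv_apply, kf]
  split_ifs with h1 h2
  · obtain ⟨rfl, h1⟩ := h1
    exact h.up _ _ _ _ h1
  · obtain ⟨rfl, h2, h3⟩ := h2
    obtain ⟨w, rfl⟩ : ∃ w, v = 2 * w := ⟨v / 2, by omega⟩
    rw [edist_comm, Nat.mul_div_cancel_left _ two_pos]
    exact h.up _ _ _ _ (by omega)
  · simp

theorem disp_sig (r : ℕ) (i : If) : edist (ι (sig r i)) (ι i) ≤ δ r := by
  obtain ⟨n, a, u, v⟩ := i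
  simp only [sig, iv_apply, sf]
  split_ifs with h1 h2
  · obtain ⟨rfl, h1⟩ := h1
    exact (h.step _ _ _ _ (by rw [pow_succ']; omega)).trans (h.anti r.le_succ)
  · obtain ⟨rfl, h1⟩ := h1
    obtain ⟨w, rfl⟩ : ∃ w, v = w + 1 := ⟨v - 1, by omega⟩
    rw [edist_comm, Nat.add_sub_cancel]
    exact (h.step _ _ _ _ (by rw [pow_succ']; omega)).trans (h.anti r.le_succ)
  · simp

theorem disp_shf (r : ℕ) (i : If) : edist (ι (shf r i)) (ι i) ≤ δ r := by
  obtain ⟨n, a, u, v⟩ := i
  simp only [shf_apply, nx, cy]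
  by_cases h1 : u = r ∧ v < 2 ^ r
  · obtain ⟨rfl, h1⟩ := h1
    by_cases h2 : v + 1 < 2 ^ u
    · simpa [h1, h2, h2.ne] using h.step n a u v h2
    · have h3 : v + 1 = 2 ^ u := by omega
      simpa [h1, h3] using h.carry n a u v h3
  · rw [if_neg h1, if_neg fun hh => h1 ⟨hh.1, by omega⟩]
    simp

theorem one_kap (r : ℕ) : One ι (δ r) (perm p (kap r)) := by
  refine one_perm (h.disp_kap r) (h.finite_moved (r + 1) ?_)
  rintro ⟨n, a, u, v⟩ hi
  have : kf r (u, v) ≠ (u, v) := fun hh => hi (by simp only [kap, iv_apply, hh])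
  rw [pow_succ']
  unfold kf at this
  grind

theorem one_sig (r : ℕ) : One ι (δ r) (perm p (sig r)) := by
  refine one_perm (h.disp_sig r) (h.finite_moved (r + 1) ?_)
  rintro ⟨n, a, u, v⟩ hi
  have : sf r (u, v) ≠ (u, v) := fun hh => hi (by simp only [sig, iv_apply, hh])
  rw [pow_succ']
  unfold sf at this
  grind

omit h in
theorem moved_shf (r : ℕ) (i : If) (hi : shf r i ≠ i) : i.2.2.1 = r ∧ i.2.2.2 < 2 ^ r := by
  obtain ⟨n, a, u, v⟩ := i
  by_contra h1
  apply hi
  simp only [shf_apply, nx, cy]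
  rw [if_neg h1, if_neg fun hh => h1 ⟨hh.1, by have := hh.2; simp only; omega⟩]
  simp

theorem exists_alpha : ∃ α : Loc p ι, IsQuasiregular α ∧ ∀ r : ℕ, α.1 r = perm p (shf r) - 1 := by
  have hf := fun r => h.finite_moved r fun i hi => ⟨(moved_shf r i hi).1.le, (moved_shf r i hi).2.le⟩
  set K : ℕ → Op p If := fun r => perm p (kap r)
  set S : ℕ → Op p If := fun r => perm p (sig r)
  set P : ℕ → Op p If := fun r => perm p (shf r)
  set P' : ℕ → Op p If := fun r => perm p (shf r)⁻¹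
  have hK : ∀ r, K r * K r = 1 := fun r => by
    simp only [K, kap]
    rw [← perm_mul, iv_mul_self, perm_one]
  have hS : ∀ r, S r * S r = 1 := fun r => by
    simp only [S, sig]
    rw [← perm_mul, iv_mul_self, perm_one]
  have hP : ∀ r, P r * P' r = 1 := fun r => by rw [← perm_mul, mul_inv_cancel, perm_one]
  have hP' : ∀ r, P' r * P r = 1 := fun r => by rw [← perm_mul, inv_mul_cancel, perm_one]
  set γ : ℕ → ℝ → Op p If := fun r s => rot (K r) s * P r * rot (K r) s * rot (S r) s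
  set γ' : ℕ → ℝ → Op p If := fun r s => rot (S r) (-s) * rot (K r) (-s) * P' r * rot (K r) (-s)
  have h1 : ∀ r s, γ r s * γ' r s = 1 := fun r s => by
    simp only [γ, γ', mul_assoc]
    rw [← mul_assoc (rot (S r) s), rot_mul_neg (hS r), one_mul, ← mul_assoc (rot (K r) s) (rot _ _),
      rot_mul_neg (hK r), one_mul, ← mul_assoc (P r), hP, one_mul, rot_mul_neg (hK r)]
  have h2 : ∀ r s, γ' r s * γ r s = 1 := fun r s => by
    simp only [γ, γ', mul_assoc]
    rw [← mul_assoc (rot (K r) (-s)) (rot _ _), rot_neg_mul (hK r), one_mul, ← mul_assoc (P' r), hP',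
      one_mul, ← mul_assoc (rot (K r) (-s)), rot_neg_mul (hK r), one_mul, rot_neg_mul (hS r)]
  have h3 : ∀ r, γ r 0 = P r := fun r => by simp only [γ, rot_zero, one_mul, mul_one]
  have h4 : ∀ r, γ r 1 = γ (r + 1) 0 := fun r => by
    rw [h3]
    simp only [γ, rot_one, K, S, P, shf, perm_mul]
  have h5 : ∀ r, γ' r 1 = γ' (r + 1) 0 := fun r =>
    left_inv_eq_right_inv (h2 r 1) (h4 r ▸ h1 (r + 1) 0)
  have bK : BL fun r s => rot (K r) s := BL.rot fun r => norm_perm_le _
  have bS : BL fun r s => rot (S r) s := BL.rot fun r => norm_perm_le _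
  have d1 : Antitone fun r => δ r + δ r + δ r + δ r := fun a b hab => by
    have := h.anti hab
    simp only
    gcongr
  have d2 : δ 0 + δ 0 + δ 0 + δ 0 < ∞ := by simp [h.fin]
  have d3 : Tendsto (fun r => δ r + δ r + δ r + δ r) atTop (𝓝 0) := by
    simpa using ((h.lim.add h.lim).add h.lim).add h.lim
  obtain ⟨α, hα⟩ := exists_loc (ι := ι) (γ := γ)
    (((bK.mul (BL.const fun r => norm_perm_le _)).mul bK).mul bS) h4 d1 d2 d3 fun r s =>
      ((((h.one_kap r).rot s).mul (one_perm (h.disp_shf r) (hf r))).mul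
        ((h.one_kap r).rot s)).mul ((h.one_sig r).rot s)
  obtain ⟨α', hα'⟩ := exists_loc (ι := ι) (γ := γ')
    (((bS.neg.mul bK.neg).mul (BL.const fun r => norm_perm_le _)).mul bK.neg) h5 d1 d2 d3 fun r s =>
      ((((h.one_sig r).rot (-s)).mul ((h.one_kap r).rot (-s))).mul
        (one_perm_inv (h.disp_shf r) (hf r))).mul ((h.one_kap r).rot (-s))
  have key : ∀ a b : Op p If, a * b = 1 → b - 1 + (a - 1) + (a - 1) * (b - 1) = 0 := fun a b hab => by
    rw [← sub_eq_zero.2 hab]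
    noncomm_ring
  refine ⟨α, isQuasiregular_iff.2 ⟨α', Subtype.ext (BoundedContinuousFunction.ext fun t => ?_),
    Subtype.ext (BoundedContinuousFunction.ext fun t => ?_)⟩, fun r => ?_⟩
  · have e : (α' + α + α * α').1 t = α'.1 t + α.1 t + α.1 t * α'.1 t := rfl
    rw [e, hα, hα']
    exact key _ _ (h1 _ _)
  · have e : (α + α' + α' * α).1 t = α.1 t + α'.1 t + α'.1 t * α.1 t := rfl
    rw [e, hα, hα']
    exact key _ _ (h2 _ _)
  · rw [hα]
    simp [h3, P]

end FineOK

end Pool.Agent.Work.MP_9ec65e_al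
end

-- merged part: Pool.Agent.Work.MP_9ec65e_al.Cocyc
section
/-! The circle valued function on a nerve and the winding number of the fine shifts. -/

set_option linter.unusedSectionVars false
set_option backward.isDefEq.respectTransparency false

namespace Pool.Agent.Work.MP_9ec65e_al

open scoped NNReal ENNReal Topology BigOperators BoundedContinuousFunction
open Filter

theorem norm_exp_sub_exp_le (a b : ℝ) :
    ‖Complex.exp (a * Complex.I) - Complex.exp (b * Complex.I)‖ ≤ |a - b| := by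
  have e : Complex.exp (a * Complex.I) - Complex.exp (b * Complex.I) =
      Complex.exp (b * Complex.I) * (Complex.exp (Complex.I * (a - b : ℝ)) - 1) := by
    rw [mul_sub, ← Complex.exp_add, mul_one]
    congr 2
    push_cast
    ring
  rw [e, norm_mul, Complex.norm_exp_ofReal_mul_I, one_mul]
  exact Real.norm_exp_I_mul_ofReal_sub_one_le

theorem exp_add_int (a : ℝ) (k : ℤ) : Complex.exp ((2 * Real.pi * (a + k) : ℝ) * Complex.I) =
    Complex.exp ((2 * Real.pi * a : ℝ) * Complex.I) := by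
  rw [Complex.exp_eq_exp_iff_exists_int]
  exact ⟨k, by push_cast; ring⟩

/-- The base point of the loop over an index of the fine model. -/
noncomputable def pt0 (i : If) : Pt := ⟨i.1, i.2.1 • gg i.1⟩

variable {p : ℝ≥0} [hp : Fact (1 ≤ (p : ℝ≥0∞))] {C : Set (Set Pt)}

theorem exists_wdata {R R' : ℝ} (hR : ∀ U ∈ C, ∀ x ∈ U, ∀ x' ∈ U, dist x x' ≤ R)
    (hlf : LocallyFinite fun U : C => (U : Set Pt)) {ι : If → Nerve C}
    (h1 : ∀ i, dist (ι i).bp (pt0 i) ≤ R') {δ : ℕ → ℝ≥0∞} (hδ : Tendsto δ atTop (𝓝 0))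
    (h2 : ∀ r i, edist (ι (shf r i)) (ι i) ≤ δ r) :
    ∃ (W K : Set (Nerve C)) (g : Nerve C → ℂ) (L : ℝ≥0), IsCompact K ∧ W ⊆ K ∧
      (∀ y ∈ W, ∀ y' ∉ W, edist y y' = ∞) ∧ (∀ y, ‖g y‖ = 1) ∧ LipschitzWith L g ∧
      ∀ᶠ r in atTop, Wdata (ι ⁻¹' W) (g ∘ ι) (perm p (shf r) - 1) := by
  classical
  obtain ⟨K, hK1, hKR, hKR'⟩ : ∃ K : ℕ, 1 ≤ K ∧ R ≤ K ∧ R' + 1 ≤ K := by
    obtain ⟨K, hK⟩ := exists_nat_ge (max 1 (max R (R' + 1)))
    simp only [max_le_iff] at hK
    exact ⟨K, by exact_mod_cast hK.1, hK.2⟩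
  obtain ⟨n, c, hc1, hc2, hc3, hc4⟩ := exists_cocycle K hK1
  let b : C → Pt := fun U => if h : (U : Set Pt).Nonempty then h.some else ⟨0, 0⟩
  have hb : ∀ (y : Nerve C), ∀ U ∈ y.t.support, dist (b U) y.bp ≤ K := fun y U hU => by
    have h : (U : Set Pt).Nonempty := ⟨_, y.bp_mem U hU⟩
    simp only [b, dif_pos h]
    exact (hR U U.2 _ h.some_mem _ (y.bp_mem U hU)).trans hKR
  let F : Nerve C → Pt → ℝ := fun y x => y.t.sum fun U a => a * c (b U) x
  have hFa : ∀ (y : Nerve C) x, y.bp.n = n → dist y.bp x ≤ K → F y x = F y y.bp + c y.bp x :=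
    fun y x hy hx => by
      rw [← y.sum_const (fun _ => (c y.bp x : ℝ)) _ fun _ _ => rfl]
      simp only [F]
      rw [← Finsupp.sum_add]
      refine Finsupp.sum_congr fun U hU => ?_
      rw [hc3 _ _ _ hy (hb y U hU) hx]
      push_cast
      ring
  have hFc : ∀ (y y' : Nerve C) x, |F y x - F y' x| ≤ 2 * K * l1 (y.t - y'.t) := fun y y' x => by
    simp only [F]
    rw [← Finsupp.sum_sub_index (fun _ _ _ => sub_mul _ _ _)]
    exact abs_sum_le _ _ fun U => by exact_mod_cast hc1 (b U) x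
  let W : Set (Nerve C) := {y | y.bp.n = n}
  let g : Nerve C → ℂ := fun y =>
    if y.bp.n = n then Complex.exp ((2 * Real.pi * F y y.bp : ℝ) * Complex.I) else 1
  have hg : ∀ (y : Nerve C) x, y.bp.n = n → dist y.bp x ≤ K →
      g y = Complex.exp ((2 * Real.pi * F y x : ℝ) * Complex.I) := fun y x hy hx => by
    rw [hFa y x hy hx, exp_add_int]
    exact if_pos hy
  have hg1 : ∀ y, ‖g y‖ = 1 := fun y => by
    simp only [g]
    split_ifs
    · exact Complex.norm_exp_ofReal_mul_I _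
    · exact norm_one
  have hW : ∀ (y y' : Nerve C) x, (∀ U ∈ y.t.support, x ∈ (U : Set Pt)) →
      (∀ U ∈ y'.t.support, x ∈ (U : Set Pt)) → y.bp.n = n → y'.bp.n = n := fun y y' x hy hy' h =>
    hc2 x _ (hc2 _ x h ((Nerve.dist_bp_of_mem hR hy).trans hKR))
      (by rw [dist_comm]; exact (Nerve.dist_bp_of_mem hR hy').trans hKR)
  obtain ⟨Kc, hKc, hKW⟩ := Nerve.exists_compact hlf (finite_comp n).isBounded
  refine ⟨W, Kc, g, 16 * K, hKc, hKW, fun y hy y' hy' => ?_, hg1, fun y y' => ?_, ?_⟩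
  · have := Nerve.le_edist (fun a b => if (a.bp.n = n ↔ b.bp.n = n) then 0 else ∞)
      (fun a b c => by
        by_cases h1 : (a.bp.n = n ↔ b.bp.n = n)
        · by_cases h2 : (b.bp.n = n ↔ c.bp.n = n)
          · rw [if_pos (h1.trans h2)]
            exact zero_le
          · rw [if_neg h2, add_top]
            exact le_top
        · rw [if_neg h1, top_add]
          exact le_top)
      (fun a b x ha hb => by rw [if_pos ⟨hW a b x ha hb, hW b a x hb ha⟩]; exact zero_le) y y'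
    rwa [if_neg fun hh => hy' (hh.1 hy), top_le_iff] at this
  · have hL : ((16 * K : ℝ≥0) : ℝ≥0∞) ≠ 0 := by simp; omega
    rw [mul_comm, ← ENNReal.div_le_iff_le_mul (Or.inl hL) (Or.inl ENNReal.coe_ne_top)]
    refine Nerve.le_edist (fun a b => edist (g a) (g b) / (16 * K : ℝ≥0)) (fun a b c => ?_)
      (fun a b x ha hb => ?_) y y'
    · rw [← ENNReal.add_div]
      exact ENNReal.div_le_div_right (edist_triangle _ _ _) _
    · rw [ENNReal.div_le_iff_le_mul (Or.inl hL) (Or.inl ENNReal.coe_ne_top), edist_dist,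
        ← ENNReal.ofReal_coe_nnreal, ← ENNReal.ofReal_mul (l1_nonneg _), dist_eq_norm]
      refine ENNReal.ofReal_le_ofReal ?_
      have h0 := l1_nonneg (a.t - b.t)
      by_cases h : a.bp.n = n
      · rw [hg a x h ((Nerve.dist_bp_of_mem hR ha).trans hKR),
          hg b x (hW a b x ha hb h) ((Nerve.dist_bp_of_mem hR hb).trans hKR)]
        refine (norm_exp_sub_exp_le _ _).trans ?_
        rw [← mul_sub, abs_mul, abs_of_pos Real.two_pi_pos]
        push_cast
        nlinarith [hFc a b x, Real.pi_le_four, Real.pi_pos, abs_nonneg (F a x - F b x),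
          mul_nonneg (Nat.cast_nonneg (α := ℝ) K) h0]
      · simp only [g, if_neg h, if_neg fun hh => h (hW b a x hb ha hh), sub_self, norm_zero]
        positivity
  have hKpos : (0 : ℝ) < K := by exact_mod_cast hK1
  filter_upwards [ENNReal.tendsto_nhds_zero.1 hδ (ENNReal.ofReal (1 / (8 * K)))
    (ENNReal.ofReal_pos.2 (by positivity))] with r hr
  set σ := shf r with hσ
  have hσ1 : ∀ i, (σ i).1 = i.1 := fun ⟨_, _, _⟩ => by rw [shf_apply]
  have hd1 : ∀ i, dist (ι i).bp (pt0 i) ≤ K := fun i => by linarith [h1 i]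
  have hmem : ∀ i, i ∈ ι ⁻¹' W ↔ i.1 = n := fun i =>
    ⟨fun h => hc2 _ _ h (hd1 i), fun h => hc2 (pt0 i) _ h (by rw [dist_comm]; exact hd1 i)⟩
  let φ : If → ℝ := fun i => F (ι i) (pt0 i)
  let bb : If → ℝ := fun i => φ (σ i) - φ i + cy r i.2.2
  have hbb : ∀ i : If, i.1 = n → |bb i| ≤ 1 / 4 := by
    rintro ⟨m, a, z⟩ (rfl : m = n)
    have hy : (ι (σ ⟨m, a, z⟩)).bp.n = m := (hmem _).2 (hσ1 _)
    have e : φ (σ ⟨m, a, z⟩) + cy r z = F (ι (σ ⟨m, a, z⟩)) (pt0 ⟨m, a, z⟩) := by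
      have e1 : pt0 (σ ⟨m, a, z⟩) = ⟨m, a • gg m + (cy r z : Fq m) • gg m⟩ := by
        rw [shf_apply, ← add_smul]
        rfl
      by_cases h0 : cy r z = 0
      · simp only [φ, e1, h0]
        simp [pt0]
      · have h3 : cy r z = 1 := by
          unfold cy at h0 ⊢
          split_ifs at h0 ⊢ with h5
          · rfl
          · exact (h0 rfl).elim
        rw [h3, Nat.cast_one, one_smul] at e1
        have d1 : dist (pt0 (σ ⟨m, a, z⟩)) (pt0 ⟨m, a, z⟩) ≤ 1 := by
          rw [e1, pt0, dist_same, add_sub_cancel_left]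
          exact_mod_cast len_gg
        have d2 : dist (ι (σ ⟨m, a, z⟩)).bp (pt0 ⟨m, a, z⟩) ≤ K := by
          linarith [dist_triangle (ι (σ ⟨m, a, z⟩)).bp (pt0 (σ ⟨m, a, z⟩)) (pt0 ⟨m, a, z⟩),
            h1 (σ ⟨m, a, z⟩)]
        simp only [φ]
        rw [hFa _ _ hy d2, hFa _ _ hy (hd1 _), hc3 _ (pt0 (σ ⟨m, a, z⟩)) (pt0 ⟨m, a, z⟩) (hσ1 _)
          (hd1 _) (d1.trans (by exact_mod_cast hK1)), h3]
        have : c (pt0 (σ ⟨m, a, z⟩)) (pt0 ⟨m, a, z⟩) = 1 := by
          rw [e1]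
          exact hc4 _
        rw [this]
        push_cast
        ring
    have e2 : bb ⟨m, a, z⟩ = F (ι (σ ⟨m, a, z⟩)) (pt0 ⟨m, a, z⟩) - F (ι ⟨m, a, z⟩) (pt0 ⟨m, a, z⟩) := by
      rw [← e]
      simp only [bb, φ]
      ring
    have e3 : l1 ((ι (σ ⟨m, a, z⟩)).t - (ι ⟨m, a, z⟩).t) ≤ 1 / (8 * K) :=
      (ENNReal.ofReal_le_ofReal_iff (by positivity)).1
        ((Nerve.l1_le_edist _ _).trans ((h2 r _).trans hr))
    rw [e2]
    refine (hFc _ _ _).trans ((mul_le_mul_of_nonneg_left e3 (by positivity)).trans (le_of_eq ?_))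
    field_simp
    norm_num
  have hDf : {i : If | i.1 = n ∧ i.2.2.1 = r ∧ i.2.2.2 < 2 ^ r}.Finite := by
    refine ((((Set.finite_univ (α := Fq n)).prod ((Set.finite_singleton r).prod
      (Set.finite_Iio (2 ^ r)))).image fun z => (⟨n, z⟩ : If))).subset ?_
    rintro ⟨m, z⟩ ⟨(rfl : m = n), h3, h4⟩
    exact ⟨z, ⟨trivial, h3, h4⟩, rfl⟩
  have hD : ∀ i, i ∈ hDf.toFinset ↔ i.1 = n ∧ i.2.2.1 = r ∧ i.2.2.2 < 2 ^ r := fun i =>
    hDf.mem_toFinset
  have hDσ : ∀ i, i ∈ hDf.toFinset ↔ σ i ∈ hDf.toFinset := by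
    rintro ⟨m, a, z⟩
    have : 0 < 2 ^ r := by positivity
    rw [hD, hD, shf_apply]
    unfold nx
    grind
  have hinv : ∀ i : If, i.1 = n → (σ⁻¹ i).1 = n := fun i hi => by
    rw [← hσ1]
    simpa using hi
  refine ⟨hDf.toFinset, fun i => if i.1 = n then -(2 * Real.pi * bb (σ⁻¹ i)) else 0, ?_,
    fun i => ?_, fun i hi => ?_, ?_, ?_⟩
  · refine op_ext fun i j => ?_
    rw [entry_chi_mul (hDf.toFinset : Set If)]
    split_ifs with h3
    · rfl
    · rw [entry_chi_mul]
      split_ifs with h4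
      · by_contra h5
        exact h3 (Finset.mem_coe.2 ((hD i).2 ⟨(hmem i).1 h4, FineOK.moved_shf r i
          (entry_perm_sub_one (Ne.symm h5)).2.1⟩))
      · rfl
  · beta_reduce
    split_ifs with h3
    · rw [abs_neg, abs_mul, abs_of_pos Real.two_pi_pos]
      nlinarith [hbb _ (hinv i h3), Real.pi_pos]
    · simpa using Real.pi_pos
  · beta_reduce
    split_ifs with h3
    · have h4 : σ i = i := by
        by_contra h4
        exact hi ((hD i).2 ⟨h3, FineOK.moved_shf r i h4⟩)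
      have h5 : cy r i.2.2 = 0 := if_neg fun hh => hi ((hD i).2 ⟨h3, hh.1, by omega⟩)
      rw [Equiv.Perm.inv_eq_iff_eq.2 h4.symm]
      simp [bb, h4, h5]
    · rfl
  · have hb1 : Bdd (g ∘ ι) := bdd_unit fun i => hg1 _
    refine op_ext fun i j => ?_
    rw [entry_mul_mulOp hb1, entry_mulOp_mul (bdd_unit fun i => by
      rw [norm_mul, Complex.norm_exp_ofReal_mul_I, mul_one]; exact hg1 _), entry_add,
      entry_chi_mul, entry_sub, entry_perm, entry_one]
    beta_reduce
    by_cases h3 : i.1 = n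
    · rw [if_pos ((hmem i).2 h3), if_pos h3, add_sub_cancel]
      by_cases h4 : i = σ j
      · subst h4
        have h5 : j.1 = n := (hσ1 j).symm.trans h3
        rw [if_pos rfl, one_mul, mul_one, Function.comp_apply, Function.comp_apply,
          hg _ _ ((hmem _).2 h5) (hd1 j), hg _ _ ((hmem _).2 h3) (hd1 _), ← Complex.exp_add,
          ← exp_add_int _ (-(cy r j.2.2 : ℤ))]
        congr 1
        simp only [bb, φ, Equiv.Perm.coe_inv, Equiv.symm_apply_apply]
        push_cast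
        ring
      · simp [h4]
    · rw [if_neg fun hh => h3 ((hmem i).1 hh), if_neg h3]
      by_cases h4 : i = j
      · simp [h4]
      · simp [h4]
  · rw [Finset.sum_congr rfl fun i hi => if_pos ((hD i).1 hi).1, Finset.sum_neg_distrib,
      ← Finset.mul_sum, ← Finset.sum_equiv σ hDσ (f := bb) (fun i _ => by simp)]
    simp only [bb, Finset.sum_add_distrib, Finset.sum_sub_distrib]
    rw [Finset.sum_equiv σ hDσ (f := fun i => φ (σ i)) (g := φ) fun i _ => rfl, sub_self, zero_add]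
    have h3 : 0 < 2 ^ r := by positivity
    have h4 : (0 : ℝ) < ∑ i ∈ hDf.toFinset, (cy r i.2.2 : ℝ) := by
      refine Finset.sum_pos' (fun _ _ => Nat.cast_nonneg _) ⟨⟨n, 0, r, 2 ^ r - 1⟩,
        (hD _).2 ⟨rfl, rfl, by simp⟩, ?_⟩
      rw [cy, if_pos ⟨rfl, Nat.sub_add_cancel h3⟩]
      simp
    exact neg_ne_zero.2 (mul_pos Real.two_pi_pos h4).ne'

end Pool.Agent.Work.MP_9ec65e_al
end
end
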