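import Mathlib

/-! Sequential direct limits of sets. -/

namespace Pool.Agent.Work.MP_9ec65e_al

section Lim

variable {F G : ℕ → Type}

/-- The direct limit of a sequence `F 0 → F 1 → F 2 → ⋯`. -/
def SeqLim (f : ∀ k, F k → F (k + 1)) : Type :=
  Quot fun a b : Σ k, F k => b = ⟨a.1 + 1, f a.1 a.2⟩

/-- The map of direct limits induced by a compatible sequence of maps. -/
def SeqLim.map {f : ∀ k, F k → F (k + 1)} {g : ∀ k, G k → G (k + 1)} (φ : ∀ k, F k → G k)
    (h : ∀ k x, φ (k + 1) (f k x) = g k (φ k x)) : SeqLim f → SeqLim g :=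
  Quot.map (fun a => ⟨a.1, φ a.1 a.2⟩) (fun a b hab => by subst hab; simp only [h])

end Lim

end Pool.Agent.Work.MP_9ec65e_al
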