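import Pool.Agent.Work.MP_9ec65e_al.StBridge
import Pool.Agent.Work.MP_9ec65e_al.DataDefs

/-! The `L^p` coarse assembly map on `K_1`. -/

namespace Pool.Agent.Work.MP_9ec65e_al.St

open scoped NNReal ENNReal

variable {X : Type} [MetricSpace X] [ProperSpace X] (D : AntiCech X) (p : ℝ≥0)
  [Fact (1 ≤ (p : ℝ≥0∞))]

theorem isHom_locMap (k : ℕ) : IsHom (Fn.comp (ad (D.J k)) (lipschitz_ad (D.J k)))
    (Loc p (D.pos k)) (Loc p (D.pos (k + 1))) := isHom_loc p (D.cov k)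

theorem isHom_roeMap (k : ℕ) : IsHom (ad (D.J k)) (Roe p (D.pos k)) (Roe p (D.pos (k + 1))) :=
  isHom_roe p (D.cov k)

/-- The connecting map `K_1(B^p_L(N_{C k})) → K_1(B^p_L(N_{C (k+1)}))`, induced by
`f ↦ (t ↦ V f(t) V†)`. -/
noncomputable def locMap (k : ℕ) : K1 (Loc p (D.pos k)) → K1 (Loc p (D.pos (k + 1))) :=
  K1.map (Fn.comp (ad (D.J k)) (lipschitz_ad (D.J k))) (isHom_locMap D p k)

/-- The connecting map `K_1(B^p(N_{C k})) → K_1(B^p(N_{C (k+1)}))`, induced by `T ↦ V T V†`. -/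
noncomputable def roeMap (k : ℕ) : K1 (Roe p (D.pos k)) → K1 (Roe p (D.pos (k + 1))) :=
  K1.map (ad (D.J k)) (isHom_roeMap D p k)

omit [ProperSpace X] in
theorem isHom_evMap (k : ℕ) :
    IsHom (fun f => f.app 0) (Loc p (D.pos k)) (Roe p (D.pos k)) := isHom_ev p (D.pos k)

/-- The map `K_1(B^p_L(N_{C k})) → K_1(B^p(N_{C k}))` induced by evaluation at `0`. -/
noncomputable def evMap (k : ℕ) : K1 (Loc p (D.pos k)) → K1 (Roe p (D.pos k)) :=
  K1.map (fun f => f.app 0) (isHom_evMap D p k)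

theorem evMap_locMap (k : ℕ) (x : K1 (Loc p (D.pos k))) :
    evMap D p (k + 1) (locMap D p k x) = roeMap D p k (evMap D p k x) :=
  Quot.inductionOn x fun _ => rfl

/-- The `L^p` coarse assembly map in degree one,
`lim_k K_1(B^p_L(N_{C k})) → lim_k K_1(B^p(N_{C k}))`, induced by evaluation at `0`. -/
noncomputable def mu : SeqLim (locMap D p) → SeqLim (roeMap D p) :=
  SeqLim.map (evMap D p) (evMap_locMap D p)

end Pool.Agent.Work.MP_9ec65e_al.St
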