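import Pool.Agent.Work.MP_9ec65e_al.DataDefs
import Pool.Agent.Work.MP_9ec65e_al.StMu

-- merged part: Pool.Agent.Work.MP_9ec65e_al.Main
section
/-! The assembly map is not injective. -/

set_option linter.unusedSectionVars false
set_option backward.isDefEq.respectTransparency false

namespace Pool.Agent.Work.MP_9ec65e_al

open scoped NNReal ENNReal Topology
open Filter

/-- One step along the loop. -/
noncomputable def nxt (x : Pt) : Pt := ⟨x.n, x.v + gg x.n⟩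

theorem dist_nxt (x : Pt) : dist (nxt x) x ≤ 1 := by
  obtain ⟨n, v⟩ := x
  rw [nxt, dist_same, add_sub_cancel_left]
  exact_mod_cast len_gg

theorem near_finite {C : Set (Set Pt)} {R : ℝ} (hR : ∀ U ∈ C, ∀ x ∈ U, ∀ x' ∈ U, dist x x' ≤ R)
    {K : Set (Nerve C)} (hK : IsCompact K) (ρ : ℝ) :
    {n | ∃ y ∈ K, ∃ x : Pt, x.n = n ∧ dist y.bp x ≤ ρ}.Finite := by
  refine ((finite_of_bounded ((Nerve.isBounded_bp hR hK).cthickening (δ := ρ))).image
    Pt.n).subset ?_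
  rintro _ ⟨y, hy, x, rfl, hx⟩
  exact ⟨x, Metric.mem_cthickening_of_dist_le _ _ _ _ ⟨y, hy, rfl⟩ (by rwa [dist_comm]), rfl⟩

/-- The identification of the base level with the coarsest copy of the loop. -/
def code : Ic → Ic ⊕ If
  | ⟨n, a, none⟩ => .inr ⟨n, a, 0, 0⟩
  | ⟨n, a, some z⟩ => .inl ⟨n, a, some z⟩

theorem code_injective : Function.Injective code := by
  rintro ⟨n, a, _ | z⟩ ⟨n', a', _ | z'⟩ h
  · simp only [code, Sum.inr.injEq] at h
    obtain rfl : n = n' := congrArg Sigma.fst h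
    simpa using h
  · simp [code] at h
  · simp [code] at h
  · simpa [code] using h

theorem exists_model {C : Set (Set Pt)} {R : ℝ} (hR : ∀ U ∈ C, ∀ x ∈ U, ∀ x' ∈ U, dist x x' ≤ R)
    (hU : ∀ x x' : Pt, dist x x' ≤ 1 → ∃ U ∈ C, x ∈ U ∧ x' ∈ U) {Z : Set (Nerve C)} (hZ : Dense Z) :
    ∃ (J : Ic ⊕ If ↪ Z × ℕ) (δ : ℕ → ℝ≥0∞),
      (∀ i j, dist (pt i) (pt j) ≤ 1 →
        edist ((J (code i)).1 : Nerve C) (J (code j)).1 ≤ (6 : ℝ≥0)) ∧
      (∀ K, IsCompact K → ((fun i => ((J (code i)).1 : Nerve C)) ⁻¹' K).Finite) ∧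
      FineOK (fun i => ((J (.inr i)).1 : Nerve C)) δ ∧
      ∀ i, dist ((J (.inr i)).1 : Nerve C).bp (pt0 i) ≤ R + R + 1 := by
  have hU' : ∀ x : Pt, ∃ U : C, nxt x ∈ (U : Set Pt) ∧ x ∈ (U : Set Pt) := fun x =>
    let ⟨U, h1, h2⟩ := hU _ _ (dist_nxt x)
    ⟨⟨U, h1⟩, h2⟩
  choose U hU1 hU2 using hU'
  let γ : Pt → unitInterval → Nerve C := fun x θ =>
    Nerve.seg (U x) (U (nxt x)) ⟨nxt x, hU1 x, hU2 _⟩ θ
  have hγ0 : ∀ x, ∀ W ∈ (γ x 0).t.support, x ∈ (W : Set Pt) := fun x W hW => by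
    rw [Nerve.seg_zero_supp hW]
    exact hU2 x
  have hγ4 : ∀ x x', dist x x' ≤ 1 → edist (γ x 0) (γ x' 0) ≤ 2 + 2 := fun x x' h => by
    obtain ⟨V, hV, h1, h2⟩ := hU x x' h
    exact (edist_triangle _ (Nerve.seg ⟨V, hV⟩ ⟨V, hV⟩ ⟨x, h1, h1⟩ 0) _).trans
      (add_le_add (Nerve.edist_le_two (hγ0 x) (Nerve.seg_mem 0 h1 h1))
        (Nerve.edist_le_two (Nerve.seg_mem 0 h2 h2) (hγ0 x')))
  let th : ℕ → ℕ → unitInterval := fun r j => Set.projIcc 0 1 zero_le_one (j / 2 ^ r)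
  let tg : Ic ⊕ If → Nerve C :=
    Sum.elim (fun i => γ (pt i) 0) fun i => γ (pt0 i) (th i.2.2.1 i.2.2.2)
  let ep : Ic ⊕ If → ℝ := Sum.elim (fun _ => 1) fun i => (1 / 2) ^ i.2.2.1
  have hep : ∀ i, 0 < ep i ∧ ep i ≤ 1 := by
    rintro (i | i)
    · exact ⟨one_pos, le_rfl⟩
    · exact ⟨by simp [ep], pow_le_one₀ (by norm_num) (by norm_num)⟩
  have hz : ∀ i, ∃ z : Z, edist (z : Nerve C) (tg i) ≤ ENNReal.ofReal (ep i) := fun i => by
    obtain ⟨z, h1, h2⟩ := EMetric.mem_closure_iff.1 (hZ (tg i)) _ (ENNReal.ofReal_pos.2 (hep i).1)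
    exact ⟨⟨z, h1⟩, by rw [edist_comm]; exact h2.le⟩
  choose z hz using hz
  have hz1 : ∀ i, edist (z i : Nerve C) (tg i) ≤ 1 := fun i =>
    (hz i).trans (ENNReal.ofReal_le_one.2 (hep i).2)
  have hzR : ∀ i, dist (z i : Nerve C).bp (tg i).bp ≤ R := fun i =>
    Nerve.dist_bp_le hR ((hz1 i).trans_lt (by norm_num))
  obtain ⟨e, he⟩ := exists_injective_nat (Ic ⊕ If)
  have htg : ∀ i, tg (code i) = γ (pt i) 0 := by
    rintro ⟨n, a, _ | w⟩
    · simp [tg, code, th, pt, pt0, off]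
    · rfl
  have hlast : ∀ i, dist (z (.inr i) : Nerve C).bp (pt0 i) ≤ R + R + 1 := fun i => by
    have h1 := hzR (.inr i)
    have h2 : dist (tg (.inr i)).bp (nxt (pt0 i)) ≤ R :=
      Nerve.dist_bp_of_mem hR (Nerve.seg_mem (h := ⟨_, hU1 _, hU2 _⟩) _ (hU1 _) (hU2 _))
    linarith [dist_triangle4 (z (.inr i) : Nerve C).bp (tg (.inr i)).bp (nxt (pt0 i)) (pt0 i),
      dist_nxt (pt0 i)]
  have hfine : ∀ (i j : If) (r : ℕ), i.2.2.1 = r ∨ i.2.2.1 = r + 1 → j.2.2.1 = r →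
      edist (tg (.inr i)) (tg (.inr j)) ≤ ENNReal.ofReal (2 * (1 / 2) ^ r) →
      edist (z (.inr i) : Nerve C) (z (.inr j)) ≤ ENNReal.ofReal (4 * (1 / 2) ^ r) := by
    intro i j r hi hj h
    have h1 : ep (.inr i) ≤ (1 / 2) ^ r :=
      pow_le_pow_of_le_one (by norm_num) (by norm_num) (by omega)
    have h2 : ep (.inr j) ≤ (1 / 2) ^ r := (congrArg (fun k => (1 / 2 : ℝ) ^ k) hj).le
    refine (edist_triangle4 _ (tg (.inr i)) (tg (.inr j)) _).trans ?_
    rw [edist_comm (tg (.inr j))]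
    refine (add_le_add (add_le_add ((hz _).trans (ENNReal.ofReal_le_ofReal h1)) h)
      ((hz _).trans (ENNReal.ofReal_le_ofReal h2))).trans (le_of_eq ?_)
    rw [← ENNReal.ofReal_add (by positivity) (by positivity),
      ← ENNReal.ofReal_add (by positivity) (by positivity)]
    congr 1
    ring
  have hth : ∀ (x : Pt) r j, edist (γ x (th r (j + 1))) (γ x (th r j)) ≤
      ENNReal.ofReal (2 * (1 / 2) ^ r) := fun x r j => by
    refine (Nerve.edist_seg_le _ _).trans (ENNReal.ofReal_le_ofReal ?_)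
    refine mul_le_mul_of_nonneg_left ((Set.abs_projIcc_sub_projIcc _).trans (le_of_eq ?_))
      zero_le_two
    rw [← sub_div]
    simp
  refine ⟨⟨fun i => (z i, e i), fun a b h => he (congrArg Prod.snd h)⟩,
    fun r => ENNReal.ofReal (4 * (1 / 2) ^ r), fun i j h => ?_, fun K hK => ?_,
    ⟨fun a b hab => ?_, ENNReal.ofReal_lt_top, ?_, fun n a r j hj => ?_, fun n a r j hj => ?_,
      fun n a r j hj => ?_, fun K hK => ?_⟩, hlast⟩
  · refine (edist_triangle4 _ (tg (code i)) (tg (code j)) _).trans ?_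
    rw [edist_comm (tg (code j))]
    have h4 : edist (tg (code i)) (tg (code j)) ≤ 2 + 2 := by
      rw [htg, htg]
      exact hγ4 _ _ h
    refine (add_le_add (add_le_add (hz1 _) h4) (hz1 _)).trans ?_
    norm_num
  · refine ((near_finite hR hK (R + R)).biUnion fun n _ =>
      Set.finite_range fun w => (⟨n, w⟩ : Ic)).subset fun i hi => ?_
    refine Set.mem_iUnion₂.2 ⟨i.1, ⟨_, hi, pt i, rfl, ?_⟩, i.2, rfl⟩
    refine (dist_triangle _ (tg (code i)).bp _).trans (add_le_add (hzR _) ?_)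
    rw [htg]
    exact Nerve.dist_bp_of_mem hR (hγ0 _)
  · exact ENNReal.ofReal_le_ofReal (mul_le_mul_of_nonneg_left
      (pow_le_pow_of_le_one (by norm_num) (by norm_num) hab) (by norm_num))
  · have := ENNReal.tendsto_ofReal ((tendsto_pow_atTop_nhds_zero_of_lt_one (r := (1 / 2 : ℝ))
      (by norm_num) (by norm_num)).const_mul 4)
    simpa using this
  · refine hfine _ _ r (Or.inr rfl) rfl (le_of_eq_of_le ?_ zero_le)
    have : th (r + 1) (2 * j) = th r j := by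
      simp only [th]
      congr 1
      push_cast
      field_simp
      ring
    change edist (γ _ (th (r + 1) (2 * j))) (γ _ (th r j)) = 0
    rw [this]
    exact edist_self _
  · exact hfine _ _ r (Or.inl rfl) rfl (hth _ r j)
  · refine hfine _ _ r (Or.inl rfl) rfl (le_of_eq_of_le ?_ (hth (pt0 ⟨n, a, r, j⟩) r j))
    have h1 : th r 0 = 0 := by simp [th]
    have h2 : th r (j + 1) = 1 := by simp [th, hj]
    have h3 : pt0 ⟨n, a + 1, r, 0⟩ = nxt (pt0 ⟨n, a, r, j⟩) := by simp [pt0, nxt, add_smul]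
    change edist (γ (pt0 ⟨n, a + 1, r, 0⟩) (th r 0)) _ = _
    rw [h1, h2, h3]
    congr 1
    exact Nerve.seg_one_eq.symm
  · exact (near_finite hR hK (R + R + 1)).subset fun n ⟨w, hw⟩ => ⟨_, hw, pt0 ⟨n, w⟩, rfl, hlast _⟩

/-- Composition of covering injections. -/
def Cov.comp {I I' I'' Y Y' Y'' : Type} [PseudoEMetricSpace Y] [PseudoEMetricSpace Y']
    [PseudoEMetricSpace Y''] {ι : I → Y} {ι' : I' → Y'} {ι'' : I'' → Y''} (c : Cov ι ι')
    (c' : Cov ι' ι'') : Cov ι ι'' where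
  J := c.J.trans c'.J
  lip i j := (c'.lip _ _).trans (c.lip i j)
  proper K hK :=
    let ⟨K', hK', h'⟩ := c'.proper K hK
    let ⟨K₀, hK₀, h₀⟩ := c.proper K' hK'
    ⟨K₀, hK₀, fun i hi => h₀ i (h' _ hi)⟩

/-- The tautological covering injection. -/
def Cov.taut {I I' Y : Type} [PseudoEMetricSpace Y] (ι' : I' → Y) (J : I ↪ I') :
    Cov (fun i => ι' (J i)) ι' :=
  ⟨J, fun _ _ => le_rfl, fun K hK => ⟨K, hK, fun _ h => h⟩⟩

theorem not_injective (D : AntiCech Pt) : ¬ Function.Injective (D.mu 4) := by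
  obtain ⟨k, hk⟩ := (D.tendsto_R.eventually_ge_atTop 1).exists
  have hU : ∀ x x' : Pt, dist x x' ≤ 1 → ∃ U ∈ D.C (k + 1), x ∈ U ∧ x' ∈ U := fun x x' h => by
    obtain ⟨U, h1, h2⟩ := D.lebesgue k {x, x'} (by simp) (by
      have := dist_comm x x' ▸ h
      rintro _ (rfl | rfl) _ (rfl | rfl) <;> first | (simp; linarith) | linarith)
    exact ⟨U, h1, h2 (by simp), h2 (by simp)⟩
  obtain ⟨J, δ, H1, H2, HF, Hb⟩ := exists_model (D.diam_le (k + 1)) hU (D.dense_Z (k + 1))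
  obtain ⟨α, hα, hαr⟩ := HF.exists_alpha (p := 4)
  obtain ⟨hm, hj⟩ := joined_base H1 H2
  let cf := Cov.taut (D.pos (k + 1)) (Function.Embedding.inr.trans J)
  let cc := Cov.taut (D.pos (k + 1)) ((⟨code, code_injective⟩ : Ic ↪ Ic ⊕ If).trans J)
  intro hinj
  refine seqLim_ne (D.locMap 4) (fun _ => cls _ qr_zero)
    (fun j => map_cls_eq _ _ _ _ ((D.cov j).loc 4).map_zero')
    (fun k' x => ∃ (c : Cov (fun i => ((J (.inr i)).1 : Nerve (D.C (k + 1)))) (D.pos k')) (ρ : ℝ),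
      (∀ i, dist (D.pos k' (c.J i)).bp (pt0 i) ≤ ρ) ∧ x = cls (c.loc 4 α) (hα.map _))
    ?_ ?_ (k := k + 1) ⟨cf, _, Hb, rfl⟩ (hinj ?_)
  · rintro k' _ ⟨c, ρ, h, rfl⟩
    refine ⟨c.comp (D.cov k'), D.R (k' + 1) + ρ, fun i => ?_, map_cls_eq _ _ _ _ (Subtype.ext
      (BoundedContinuousFunction.ext fun t => (ad_trans _ _ _).symm))⟩
    refine (dist_triangle _ (D.pos k' (c.J i)).bp _).trans (add_le_add ?_ (h i))
    have e : D.pos (k' + 1) ((c.comp (D.cov k')).J i) =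
        Nerve.map (D.s k') (D.subset_s k') (D.pos k' (c.J i)) := D.J_over k' _
    rw [e]
    exact Nerve.dist_bp_map (D.diam_le (k' + 1)) _ _ _
  · rintro k' ⟨c, ρ, h, h0⟩
    obtain ⟨W, K, g, L, h1, h2, h3, h4, h5, h6⟩ := exists_wdata (p := 4) (D.diam_le k')
      (D.locFin k') h HF.lim fun r i => (c.lip _ _).trans (HF.disp_shf r i)
    refine cls_ne_zero h1 h2 h3 h4 h5 _ ?_ h0.symm
    refine (tendsto_natCast_atTop_atTop (R := ℝ≥0)).frequently (h6.mono fun r hr => ?_).frequently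
    have e : (c.loc 4 α).1 r = ad 4 c.J (perm 4 (shf r) - 1) := congrArg (ad 4 c.J) (hαr r)
    rw [e]
    exact Wdata.ad c.J (fun i => h4 _) hr
  · refine congrArg (fun x => (Quot.mk _ ⟨k + 1, x⟩ : SeqLim (D.roeMap 4))) ?_
    have h1 := cls_eq_of_joined ((hj.map (cc.continuous_roe 4)).mono (V := {x | IsQuasiregular x})
      (by rintro _ ⟨x, hx, rfl⟩; exact IsQuasiregular.map _ hx))
    refine (map_cls_eq _ _ (hα.map _) _ (Subtype.ext ?_)).trans
      (h1.trans (map_cls_eq _ _ qr_zero _ ?_).symm)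
    · let e1 : (Σ n, Fq n × Unit) ↪ If := ⟨fun i => ⟨i.1, i.2.1, 0, 0⟩, by
        rintro ⟨n, a, _⟩ ⟨n', a', _⟩ h
        obtain rfl : n = n' := congrArg Sigma.fst h
        simpa using h⟩
      let e2 : (Σ n, Fq n × Unit) ↪ Ic := ⟨fun i => ⟨i.1, i.2.1, none⟩, by
        rintro ⟨n, a, _⟩ ⟨n', a', _⟩ h
        obtain rfl : n = n' := congrArg Sigma.fst h
        simpa using h⟩
      have a1 := perm_sub_one_eq_ad (p := 4) e1 (sh fun _ _ => 1) (shf 0) (fun _ => rfl) (by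
        rintro ⟨n, a, z⟩ h
        have : z ≠ (0, 0) := by
          rintro rfl
          exact h ⟨⟨n, a, ()⟩, rfl⟩
        simp [shf, sh_apply, this])
      have a2 := perm_sub_one_eq_ad (p := 4) e2 (sh fun _ _ => 1) (sh cBase) (fun _ => rfl) (by
        rintro ⟨n, a, _ | z⟩ h
        · exact (h ⟨⟨n, a, ()⟩, rfl⟩).elim
        · simp [sh_apply, cBase])
      have a3 := hαr 0
      rw [Nat.cast_zero] at a3
      change ad 4 cf.J (α.1 0) = ad 4 cc.J (perm 4 (sh cBase) - 1)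
      rw [a3, a1, a2, ← ad_trans, ← ad_trans]
      rfl
    · exact (cc.roe 4).map_zero'.symm

end Pool.Agent.Work.MP_9ec65e_al
end

-- merged part: Pool.Agent.Work.MP_9ec65e_al.StMain
section
/-! Transfer of non-injectivity to the final presentation of the assembly map. -/

set_option backward.isDefEq.respectTransparency false

namespace Pool.Agent.Work.MP_9ec65e_al.St

open scoped NNReal ENNReal

theorem injective_of_injective {X : Type} [MetricSpace X] [ProperSpace X] (D : AntiCech X)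
    (p : ℝ≥0) [Fact (1 ≤ (p : ℝ≥0∞))] (h : Function.Injective (mu D p)) :
    Function.Injective (D.mu p) := by
  let eL k := kEquiv (emb_jLoc p (D.pos k)) (range_jLoc p (D.pos k))
  let eR k := kEquiv (emb_jRoe p (D.pos k)) (range_jRoe p (D.pos k))
  have hL : ∀ k x, eL (k + 1) (D.locMap p k x) = locMap D p k (eL k x) := fun k x =>
    kEquiv_map _ _ _ _ _ _ _ _ (fun a => (comp_eq p (D.J k) a.1).symm) x
  have hR : ∀ k x, eR (k + 1) (D.roeMap p k x) = roeMap D p k (eR k x) := fun k x =>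
    kEquiv_map _ _ _ _ _ _ _ _ (fun a => (ad_eq (D.J k) a.1).symm) x
  have hE : ∀ k x, eR k (MP_9ec65e_al.K1.map (ev0 p (D.pos k)) (continuous_ev0 p (D.pos k)) x) =
      evMap D p k (eL k x) := fun k x => kEquiv_map _ _ _ _ _ _ _ _ (fun _ => rfl) x
  have hc : mu D p ∘ SeqLim.map (fun k => eL k) hL = SeqLim.map (fun k => eR k) hR ∘ D.mu p := by
    funext x
    obtain ⟨k, x⟩ := x
    exact congrArg (fun z => (Quot.mk _ ⟨k, z⟩ : SeqLim (roeMap D p))) (hE k x).symm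
  exact Function.Injective.of_comp (hc ▸ h.comp (seqLim_injective eL hL))

theorem mu_not_injective (D : AntiCech Pt) : ¬ Function.Injective (mu D 4) := fun h =>
  not_injective D (injective_of_injective D 4 h)

end Pool.Agent.Work.MP_9ec65e_al.St
end
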